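import Mathlib
import Pool.Agent.Helper384.LdCore

namespace Pool.Agent.Results.MP_92436f_lc.LogSquared

open Finset Pool.Agent.Ld

theorem kap_le_half (L : ℕ) (hL : 2 ≤ L) : kap L ≤ 1 / 2 := by
  unfold kap
  obtain ⟨k, hk⟩ : ∃ k, L / 2 = k + 1 := ⟨L / 2 - 1, by omega⟩
  rw [hk]
  have h1 : Nat.choose (2 * (k + 1)) (k + 1) = 2 * Nat.choose (2 * k + 1) k := by
    have e : 2 * (k + 1) = (2 * k + 1) + 1 := by ring
    rw [e, Nat.choose_succ_succ]
    have : Nat.choose (2 * k + 1) (k + 1) = Nat.choose (2 * k + 1) k := by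
      apply Nat.choose_symm_of_eq_add; omega
    rw [Nat.succ_eq_add_one, this]
    ring
  have h2 : Nat.choose (2 * k + 1) k ≤ 4 ^ k := by
    have := Nat.choose_middle_le_pow k
    exact this
  rw [div_le_iff₀ (by positivity), h1]
  have h3 : (Nat.choose (2 * k + 1) k : ℝ) ≤ 4 ^ k := by exact_mod_cast h2
  push_cast
  rw [pow_succ]
  linarith

theorem sum_sg (n : ℕ) (x c : Fin n → Bool) :
    ∑ i, sg (x i) * sg (c i) = (n : ℝ) - 2 * hammingDist x c := by
  have h1 : (hammingDist x c : ℝ) = ∑ i, (if x i ≠ c i then (1 : ℝ) else 0) := by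
    unfold hammingDist
    rw [Finset.card_filter]
    push_cast
    rfl
  have h2 : (n : ℝ) = ∑ i : Fin n, (1 : ℝ) := by simp
  rw [h1, h2, Finset.mul_sum, ← Finset.sum_sub_distrib]
  refine Finset.sum_congr rfl fun i _ => ?_
  cases x i <;> cases c i <;> simp [sg] <;> norm_num

/-- Quasi-polynomial upper bound for zero-rate list-decodable binary codes: for every `L ≥ 2` there is `C`
such that every binary code of any length `n` in which every closed Hamming ball of radius
`(τ_L + ε) n` holds fewer than `L` codewords has at most `exp (C log² (2/ε))` codewords. -/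
theorem result :
    ∀ L : ℕ, 2 ≤ L →
      ∃ C : ℝ,
        ∀ ε : ℝ, 0 < ε → ε < 1 →
          ∀ n : ℕ, ∀ code : Finset (Fin n → Bool),
            (∀ x : Fin n → Bool,
              (code.filter (fun c => (hammingDist x c : ℝ) ≤
                ((1 : ℝ) / 2 - (Nat.choose (2 * (L / 2)) (L / 2) : ℝ) / (2 : ℝ) ^ (2 * (L / 2) + 1) + ε)
                  * (n : ℝ))).card < L) →
            (code.card : ℝ) ≤ Real.exp (C * (Real.log (2 / ε)) ^ 2) := by
  classical
  intro L hL
  obtain ⟨C0, hC0, hgreedy⟩ := greedy L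
  set A : ℝ := (L : ℝ) * L * 2 ^ L with hA
  have hLr : (2 : ℝ) ≤ L := by exact_mod_cast hL
  have hA1 : 1 ≤ A := by
    have : (1 : ℝ) ≤ 2 ^ L := one_le_pow₀ (by norm_num)
    have h2 : (1 : ℝ) ≤ (L : ℝ) * L := by nlinarith
    calc (1 : ℝ) = 1 * 1 := by norm_num
      _ ≤ A := mul_le_mul h2 this (by norm_num) (by positivity)
  set j0 : ℕ := 2 ^ (L + 2) with hj0
  set A1 : ℝ := 1 + Real.log A * 2 with hA1def
  have hlogA : 0 ≤ Real.log A := Real.log_nonneg hA1
  refine ⟨4 * j0 + 4 * L + L * C0 * A1 ^ 2, ?_⟩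
  intro ε hε hε1 n code hcode
  set l : ℝ := Real.log (2 / ε) with hl
  have hlog2 := Real.log_two_gt_d9
  have hlog2' := Real.log_two_lt_d9
  have hl2 : 1 / 2 ≤ l := by
    have h1 : Real.log 2 ≤ l := by
      apply Real.log_le_log (by norm_num)
      rw [le_div_iff₀ hε]; linarith
    linarith
  have hl4 : 1 ≤ 4 * l ^ 2 := by nlinarith
  have hj0pow : (2 : ℝ) ^ j0 ≤ Real.exp (4 * j0 * l ^ 2) := by
    have e : (2 : ℝ) ^ j0 = Real.exp (j0 * Real.log 2) := by
      rw [Real.exp_nat_mul, Real.exp_log (by norm_num)]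
    rw [e]
    apply Real.exp_le_exp.mpr
    have h0 : (0 : ℝ) ≤ j0 := Nat.cast_nonneg _
    nlinarith [mul_le_mul_of_nonneg_left hl4 h0]
  rcases Nat.lt_or_ge n j0 with hn | hn
  · -- short codes
    have h1 : (code.card : ℝ) ≤ 2 ^ j0 := by
      have : code.card ≤ 2 ^ n := by
        calc code.card ≤ Fintype.card (Fin n → Bool) := Finset.card_le_univ _
          _ = 2 ^ n := by simp
      calc (code.card : ℝ) ≤ 2 ^ n := by exact_mod_cast this
        _ ≤ 2 ^ j0 := pow_le_pow_right₀ (by norm_num) hn.le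
    refine h1.trans (hj0pow.trans (Real.exp_le_exp.mpr ?_))
    have : 0 ≤ (4 * L + L * C0 * A1 ^ 2) * l ^ 2 := by positivity
    nlinarith
  · obtain ⟨n', rfl⟩ := Nat.exists_eq_add_of_le hn
    set η : ℝ := ε / A with hη
    have hη0 : 0 < η := by positivity
    have hη1 : η ≤ 1 := by
      rw [hη, div_le_one (by linarith)]; linarith
    set θ : ℝ := Real.exp (-C0 * (Real.log (2 / η)) ^ 2) with hθ
    have hθ0 : 0 < θ := Real.exp_pos _
    -- pigeonhole on the first j0 coordinates
    have hpig : ∃ P : Fin j0 → Bool, (code.card : ℝ) ≤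
        2 ^ j0 * ((code.filter (fun c => (fun i => c (Fin.castAdd n' i)) = P)).card : ℝ) := by
      by_contra hcon
      push Not at hcon
      have h1 : (code.card : ℝ) = ∑ P : Fin j0 → Bool,
          ((code.filter (fun c => (fun i => c (Fin.castAdd n' i)) = P)).card : ℝ) := by
        have := Finset.card_eq_sum_card_fiberwise (s := code) (t := (Finset.univ : Finset (Fin j0 → Bool)))
          (f := fun c => (fun i => c (Fin.castAdd n' i))) (fun _ _ => Finset.mem_univ _)
        rw [this]; push_cast; rfl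
      have h2 : ∑ P : Fin j0 → Bool,
          2 ^ j0 * ((code.filter (fun c => (fun i => c (Fin.castAdd n' i)) = P)).card : ℝ) <
          ∑ P : Fin j0 → Bool, (code.card : ℝ) :=
        Finset.sum_lt_sum_of_nonempty Finset.univ_nonempty (fun P _ => hcon P)
      rw [← Finset.mul_sum, ← h1] at h2
      simp at h2
    obtain ⟨P, hP⟩ := hpig
    set W := code.filter (fun c => (fun i => c (Fin.castAdd n' i)) = P) with hW
    have hWbound : (W.card : ℝ) < (2 / θ) ^ L := by
      by_contra hcon
      push Not at hcon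
      obtain ⟨v, hv1, hv2, hv3⟩ := hgreedy η hη0 hη1 (Fin (j0 + n') → Bool) (Fin n')
        (fun c x => c (Fin.natAdd j0 x)) W hcon
      obtain ⟨z, hz⟩ := centre L (by omega) (Fin n') (Fin (j0 + n') → Bool)
        (fun c x => c (Fin.natAdd j0 x)) v η hη0.le hv3
      set x : Fin (j0 + n') → Bool := Fin.append P z with hx
      have hball : ∀ i, i < L → (hammingDist x (v i) : ℝ) ≤
          ((1 : ℝ) / 2 - (Nat.choose (2 * (L / 2)) (L / 2) : ℝ) / (2 : ℝ) ^ (2 * (L / 2) + 1) + ε)
            * ((j0 + n' : ℕ) : ℝ) := by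
        intro i hi
        have h1 := sum_sg (j0 + n') x (v i)
        rw [Fin.sum_univ_add] at h1
        have hmem := hv1 i hi
        rw [hW, Finset.mem_filter] at hmem
        have hPi : ∀ a, (v i) (Fin.castAdd n' a) = P a := fun a => congrFun hmem.2 a
        have h2 : ∑ a : Fin j0, sg (x (Fin.castAdd n' a)) * sg ((v i) (Fin.castAdd n' a)) = j0 := by
          have : ∀ a : Fin j0, sg (x (Fin.castAdd n' a)) * sg ((v i) (Fin.castAdd n' a)) = 1 := by
            intro a
            rw [hPi, hx, Fin.append_left]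
            exact sg_sq _
          simp [this]
        have h3 : ∑ a : Fin n', sg (x (Fin.natAdd j0 a)) * sg ((v i) (Fin.natAdd j0 a)) =
            ∑ a : Fin n', sg (z a) * sg ((v i) (Fin.natAdd j0 a)) := by
          refine Finset.sum_congr rfl fun a _ => ?_
          rw [hx, Fin.append_right]
        rw [h2, h3] at h1
        have h4 := hz i hi
        rw [Fintype.card_fin] at h4
        have h5 : A * (η * n') = ε * n' := by
          rw [hη]; field_simp
        have h6 : (Nat.choose (2 * (L / 2)) (L / 2) : ℝ) / (2 : ℝ) ^ (2 * (L / 2) + 1) = kap L / 2 := by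
          unfold kap
          rw [pow_succ, pow_mul]
          norm_num
          rw [div_div]
        have hk := kap_le_half L hL
        have hj : (2 : ℝ) ^ (L + 1) ≤ (1 - kap L) * j0 := by
          have e1 : (j0 : ℝ) = 2 * 2 ^ (L + 1) := by
            rw [hj0]; push_cast; ring
          rw [e1]
          have : (0 : ℝ) < 2 ^ (L + 1) := by positivity
          nlinarith
        rw [h6]
        push_cast at h1 ⊢
        have hn0 : (0 : ℝ) ≤ n' := Nat.cast_nonneg _
        have hj0r : (0 : ℝ) ≤ j0 := Nat.cast_nonneg _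
        have h7 : 0 ≤ ε * n' := by positivity
        have h8 : 0 ≤ ε * j0 := by positivity
        nlinarith
      have hcontra := hcode x
      have hsub : (Finset.range L).image v ⊆ code.filter (fun c => (hammingDist x c : ℝ) ≤
          ((1 : ℝ) / 2 - (Nat.choose (2 * (L / 2)) (L / 2) : ℝ) / (2 : ℝ) ^ (2 * (L / 2) + 1) + ε)
            * ((j0 + n' : ℕ) : ℝ)) := by
        intro c hc
        obtain ⟨i, hi, rfl⟩ := Finset.mem_image.mp hc
        rw [Finset.mem_filter]
        exact ⟨(Finset.mem_filter.mp (hv1 i (Finset.mem_range.mp hi))).1,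
          hball i (Finset.mem_range.mp hi)⟩
      have hcardim : ((Finset.range L).image v).card = L := by
        rw [Finset.card_image_of_injOn, Finset.card_range]
        intro i hi j hj hij
        have hi' := Finset.mem_range.mp hi
        have hj' := Finset.mem_range.mp hj
        rcases lt_trichotomy i j with h | h | h
        · exact absurd hij (hv2 j hj' i h)
        · exact h
        · exact absurd hij.symm (hv2 i hi' j h)
      have := Finset.card_le_card hsub
      omega
    -- numerical conclusion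
    have hθeq : (2 / θ) ^ L = Real.exp (L * Real.log 2 + L * (C0 * (Real.log (2 / η)) ^ 2)) := by
      have e : 2 / θ = Real.exp (Real.log 2 + C0 * (Real.log (2 / η)) ^ 2) := by
        rw [Real.exp_add, Real.exp_log (by norm_num), hθ, div_eq_mul_inv, ← Real.exp_neg]
        congr 2; ring
      rw [e, ← Real.exp_nat_mul]; congr 1; ring
    have hlη : Real.log (2 / η) ≤ A1 * l := by
      have e : 2 / η = (2 / ε) * A := by rw [hη]; field_simp
      rw [e, Real.log_mul (by positivity) (by positivity), ← hl, hA1def]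
      nlinarith
    have hlη0 : 0 ≤ Real.log (2 / η) := by
      apply Real.log_nonneg
      rw [le_div_iff₀ hη0]; linarith
    have hlη2 : (Real.log (2 / η)) ^ 2 ≤ A1 ^ 2 * l ^ 2 := by
      rw [← mul_pow]
      exact pow_le_pow_left₀ hlη0 hlη 2
    calc (code.card : ℝ) ≤ 2 ^ j0 * (W.card : ℝ) := hP
      _ ≤ Real.exp (4 * j0 * l ^ 2) *
          Real.exp (L * Real.log 2 + L * (C0 * (Real.log (2 / η)) ^ 2)) := by
          apply mul_le_mul hj0pow _ (Nat.cast_nonneg _) (Real.exp_pos _).le
          rw [← hθeq]; exact hWbound.le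
      _ = Real.exp (4 * j0 * l ^ 2 + (L * Real.log 2 + L * (C0 * (Real.log (2 / η)) ^ 2))) := by
          rw [← Real.exp_add]
      _ ≤ _ := by
          apply Real.exp_le_exp.mpr
          have t1 : (L : ℝ) * Real.log 2 ≤ 4 * L * l ^ 2 := by
            have h0 : (0 : ℝ) ≤ L := Nat.cast_nonneg _
            nlinarith [mul_le_mul_of_nonneg_left hl4 h0]
          have t2 : (L : ℝ) * (C0 * (Real.log (2 / η)) ^ 2) ≤ L * C0 * A1 ^ 2 * l ^ 2 := by
            have h0 : (0 : ℝ) ≤ L * C0 := by positivity
            nlinarith [mul_le_mul_of_nonneg_left hlη2 h0]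
          nlinarith

end Pool.Agent.Results.MP_92436f_lc.LogSquared
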