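import Mathlib

set_option autoImplicit false

namespace Pool.Agent.Results.MP_92436f_lc.QuasiPoly

open Finset



/-- A positive semidefinite kernel, presented as a finite Gram sum. -/
def IsPD {V : Type} (K : V → V → ℝ) : Prop :=
  ∃ (ι : Type) (_ : Fintype ι) (φ : ι → V → ℝ), ∀ u v, K u v = ∑ i, φ i u * φ i v

lemma IsPD.mul {V : Type} {K L : V → V → ℝ} (hK : IsPD K) (hL : IsPD L) :
    IsPD (fun u v => K u v * L u v) := by
  obtain ⟨ι, _, φ, hφ⟩ := hK
  obtain ⟨κ, _, ψ, hψ⟩ := hL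
  refine ⟨ι × κ, inferInstance, fun p u => φ p.1 u * ψ p.2 u, fun u v => ?_⟩
  rw [Fintype.sum_prod_type]
  simp only [hφ, hψ]
  rw [Finset.sum_mul_sum]
  refine Finset.sum_congr rfl (fun i _ => Finset.sum_congr rfl (fun j _ => by ring))

lemma IsPD.const {V : Type} {c : ℝ} (hc : 0 ≤ c) : IsPD (fun _ _ : V => c) := by
  refine ⟨Unit, inferInstance, fun _ _ => Real.sqrt c, fun u v => ?_⟩
  simp [Real.mul_self_sqrt hc]

lemma IsPD.add {V : Type} {K L : V → V → ℝ} (hK : IsPD K) (hL : IsPD L) :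
    IsPD (fun u v => K u v + L u v) := by
  obtain ⟨ι, _, φ, hφ⟩ := hK
  obtain ⟨κ, _, ψ, hψ⟩ := hL
  refine ⟨ι ⊕ κ, inferInstance, fun p u => Sum.elim (fun i => φ i u) (fun j => ψ j u) p,
    fun u v => ?_⟩
  rw [Fintype.sum_sum_type]
  simp [hφ, hψ]

lemma IsPD.pow {V : Type} {K : V → V → ℝ} (hK : IsPD K) (n : ℕ) :
    IsPD (fun u v => K u v ^ n) := by
  induction n with
  | zero => simpa using (IsPD.const (V := V) zero_le_one)
  | succ n ih => simpa [pow_succ] using ih.mul hK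

lemma IsPD.sum_nonneg {V : Type} {K : V → V → ℝ} (hK : IsPD K) (W : Finset V) :
    0 ≤ ∑ u ∈ W, ∑ v ∈ W, K u v := by
  obtain ⟨ι, _, φ, hφ⟩ := hK
  have : ∑ u ∈ W, ∑ v ∈ W, K u v = ∑ i, (∑ u ∈ W, φ i u) * (∑ v ∈ W, φ i v) := by
    simp only [hφ]
    rw [show (∑ u ∈ W, ∑ v ∈ W, ∑ i, φ i u * φ i v) = ∑ u ∈ W, ∑ i, ∑ v ∈ W, φ i u * φ i v from
      Finset.sum_congr rfl (fun u _ => Finset.sum_comm)]
    rw [Finset.sum_comm]
    refine Finset.sum_congr rfl (fun i _ => ?_)
    rw [Finset.sum_mul_sum]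
  rw [this]
  exact Finset.sum_nonneg (fun i _ => mul_self_nonneg _)

lemma IsPD.symm {V : Type} {K : V → V → ℝ} (hK : IsPD K) (u v : V) : K u v = K v u := by
  obtain ⟨ι, _, φ, hφ⟩ := hK
  rw [hφ, hφ]
  exact Finset.sum_congr rfl (fun i _ => mul_comm _ _)

/-- pointwise bound on the negative side, in the scaled variable -/
lemma ptw_neg (j : ℕ) (s : ℝ) (hs : 0 ≤ s) :
    s ^ (4 * j + 3) * |1 - s| ^ j ≤
      (2/3 : ℝ) ^ (4 * j + 3) + (3/2) * (1/2) ^ j * s ^ (4 * j + 2)
        + (2/3) ^ (3 * j + 1) * s ^ (8 * j + 4) := by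
  have h1 : 0 ≤ (2/3 : ℝ) ^ (4 * j + 3) := by positivity
  have h2 : 0 ≤ (3/2) * (1/2 : ℝ) ^ j * s ^ (4 * j + 2) := by positivity
  have h3 : 0 ≤ (2/3 : ℝ) ^ (3 * j + 1) * s ^ (8 * j + 4) := by positivity
  rcases le_total s (2/3) with h | h
  · have ha : |1 - s| ^ j ≤ 1 := by
      apply pow_le_one₀ (abs_nonneg _)
      rw [abs_of_nonneg (by linarith)]; linarith
    have hb : s ^ (4 * j + 3) ≤ (2/3) ^ (4 * j + 3) := pow_le_pow_left₀ hs h _
    have hc : s ^ (4 * j + 3) * |1 - s| ^ j ≤ (2/3) ^ (4 * j + 3) * 1 :=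
      mul_le_mul hb ha (by positivity) (by positivity)
    linarith
  · rcases le_total s (3/2) with h' | h'
    · have ha : |1 - s| ^ j ≤ (1/2) ^ j := by
        apply pow_le_pow_left₀ (abs_nonneg _)
        rw [abs_le]; constructor <;> linarith
      have hb : s ^ (4 * j + 3) ≤ s ^ (4 * j + 2) * (3/2) := by
        rw [pow_succ]; exact mul_le_mul_of_nonneg_left h' (by positivity)
      have hc : s ^ (4 * j + 3) * |1 - s| ^ j ≤ (s ^ (4 * j + 2) * (3/2)) * (1/2) ^ j :=
        mul_le_mul hb ha (by positivity) (by positivity)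
      have hd : (s ^ (4 * j + 2) * (3/2)) * (1/2 : ℝ) ^ j = (3/2) * (1/2) ^ j * s ^ (4 * j + 2) := by
        ring
      linarith
    · have ha : |1 - s| ^ j ≤ s ^ j := by
        apply pow_le_pow_left₀ (abs_nonneg _)
        rw [abs_le]; constructor <;> linarith
      have hb : s ^ (4 * j + 3) * |1 - s| ^ j ≤ s ^ (4 * j + 3) * s ^ j :=
        mul_le_mul_of_nonneg_left ha (by positivity)
      have hc : s ^ (4 * j + 3) * s ^ j ≤ (2/3) ^ (3 * j + 1) * s ^ (8 * j + 4) := by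
        have e1 : s ^ (8 * j + 4) = (s ^ (4 * j + 3) * s ^ j) * s ^ (3 * j + 1) := by ring
        rw [e1]
        have e2 : (1 : ℝ) ≤ (2/3) ^ (3 * j + 1) * s ^ (3 * j + 1) := by
          rw [← mul_pow]
          apply one_le_pow₀
          linarith
        calc s ^ (4 * j + 3) * s ^ j = (s ^ (4 * j + 3) * s ^ j) * 1 := by ring
          _ ≤ (s ^ (4 * j + 3) * s ^ j) * ((2/3) ^ (3 * j + 1) * s ^ (3 * j + 1)) :=
              mul_le_mul_of_nonneg_left e2 (by positivity)
          _ = _ := by ring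
      linarith

/-- pointwise bound on the positive side, in the scaled variable -/
lemma ptw_pos (j : ℕ) (s : ℝ) (hs : 0 ≤ s) :
    (2/3) * s ^ (4 * j + 2) - (2/3 : ℝ) ^ (4 * j + 3) ≤ s ^ (4 * j + 3) * (1 + s) ^ j := by
  have h0 : s ^ (4 * j + 3) * 1 ≤ s ^ (4 * j + 3) * (1 + s) ^ j :=
    mul_le_mul_of_nonneg_left (one_le_pow₀ (by linarith)) (by positivity)
  rcases le_total s (2/3) with h | h
  · have hb : s ^ (4 * j + 2) ≤ (2/3) ^ (4 * j + 2) := pow_le_pow_left₀ hs h _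
    have hc : (2/3 : ℝ) ^ (4 * j + 3) = (2/3) * (2/3) ^ (4 * j + 2) := by ring
    have hd : 0 ≤ s ^ (4 * j + 3) := by positivity
    nlinarith
  · have hb : s ^ (4 * j + 2) * (2/3) ≤ s ^ (4 * j + 3) := by
      rw [pow_succ s (4 * j + 2)]; exact mul_le_mul_of_nonneg_left h (by positivity)
    have hc : 0 ≤ (2/3 : ℝ) ^ (4 * j + 3) := by positivity
    linarith

lemma ptw_neg' (j : ℕ) (t B : ℝ) (ht : 0 ≤ t) (hB : 0 < B) :
    t ^ (4 * j + 3) * |B - t| ^ j ≤
      B ^ (j + 1) * (B ^ (4 * j + 2) * (2/3 : ℝ) ^ (4 * j + 3) + (3/2) * (1/2) ^ j * t ^ (4 * j + 2)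
        + (2/3) ^ (3 * j + 1) * t ^ (8 * j + 4) / B ^ (4 * j + 2)) := by
  have h := ptw_neg j (t / B) (by positivity)
  have h2 := mul_le_mul_of_nonneg_left h (show (0:ℝ) ≤ B ^ (5 * j + 3) by positivity)
  have e1 : B ^ (5 * j + 3) * ((t / B) ^ (4 * j + 3) * |1 - t / B| ^ j) =
      t ^ (4 * j + 3) * |B - t| ^ j := by
    have : |B - t| = B * |1 - t / B| := by
      rw [show B - t = B * (1 - t / B) by field_simp, abs_mul, abs_of_pos hB]
    rw [this, mul_pow, div_pow]
    have : B ^ (5 * j + 3) = B ^ (4 * j + 3) * B ^ j := by ring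
    rw [this]
    field_simp
  rw [e1] at h2
  refine h2.trans (le_of_eq ?_)
  rw [div_pow t B (4 * j + 2), div_pow t B (8 * j + 4)]
  have e2 : B ^ (5 * j + 3) = B ^ (j + 1) * B ^ (4 * j + 2) := by ring
  have e3 : B ^ (8 * j + 4) = B ^ (4 * j + 2) * B ^ (4 * j + 2) := by ring
  rw [e2, e3]
  generalize (2/3 : ℝ) ^ (4 * j + 3) = a
  generalize (1/2 : ℝ) ^ j = b
  generalize (2/3 : ℝ) ^ (3 * j + 1) = c
  have hB' : B ^ (4 * j + 2) ≠ 0 := by positivity
  generalize B ^ (4 * j + 2) = D at *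
  field_simp

lemma ptw_pos' (j : ℕ) (t B : ℝ) (ht : 0 ≤ t) (hB : 0 < B) :
    B ^ (j + 1) * ((2/3) * t ^ (4 * j + 2) - (2/3 : ℝ) ^ (4 * j + 3) * B ^ (4 * j + 2)) ≤
      t ^ (4 * j + 3) * (B + t) ^ j := by
  have h := ptw_pos j (t / B) (by positivity)
  have h2 := mul_le_mul_of_nonneg_left h (show (0:ℝ) ≤ B ^ (5 * j + 3) by positivity)
  have e1 : B ^ (5 * j + 3) * ((t / B) ^ (4 * j + 3) * (1 + t / B) ^ j) =
      t ^ (4 * j + 3) * (B + t) ^ j := by
    have : (B + t) = B * (1 + t / B) := by field_simp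
    rw [this, mul_pow, div_pow]
    have : B ^ (5 * j + 3) = B ^ (4 * j + 3) * B ^ j := by ring
    rw [this]
    field_simp
  rw [e1] at h2
  refine le_trans (le_of_eq ?_) h2
  rw [div_pow t B (4 * j + 2)]
  have e2 : B ^ (5 * j + 3) = B ^ (j + 1) * B ^ (4 * j + 2) := by ring
  rw [e2]
  generalize (2/3 : ℝ) ^ (4 * j + 3) = a
  have hB' : B ^ (4 * j + 2) ≠ 0 := by positivity
  generalize B ^ (4 * j + 2) = D at *
  field_simp

lemma num1 (m' : ℕ) : 9 * (2/3 : ℝ) ^ (2 * m' + 8) ≤ (1/2) ^ m' := by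
  have h1 : (2/3 : ℝ) ^ (2 * m' + 8) = (4/9) ^ m' * (2/3) ^ 8 := by
    rw [pow_add, pow_mul]; norm_num
  rw [h1]
  have h2 : (4/9 : ℝ) ^ m' ≤ (1/2) ^ m' := pow_le_pow_left₀ (by norm_num) (by norm_num) _
  have h3 : 0 ≤ (4/9 : ℝ) ^ m' := by positivity
  nlinarith

lemma num2 (m m' : ℕ) : 1 < ((3/2 : ℝ) ^ (2 * (2 * m' + 8) + 1)) ^ (5 * m + 1) *
    ((1/2) ^ m' * (1/2) ^ (m * (1 + (4 * (2 * m' + 8) + 2)))) := by
  have h1 : (2 : ℝ) ^ (2 * m' + 8) ≤ (3/2 : ℝ) ^ (2 * (2 * m' + 8) + 1) := by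
    rw [pow_succ (3/2 : ℝ) (2 * (2 * m' + 8)), pow_mul (3/2 : ℝ) 2 (2 * m' + 8)]
    have : (2 : ℝ) ^ (2 * m' + 8) ≤ ((3/2 : ℝ) ^ 2) ^ (2 * m' + 8) :=
      pow_le_pow_left₀ (by norm_num) (by norm_num) _
    have h0 : 0 ≤ ((3/2 : ℝ) ^ 2) ^ (2 * m' + 8) := by positivity
    nlinarith
  have h2 : ((2 : ℝ) ^ (2 * m' + 8)) ^ (5 * m + 1) ≤
      ((3/2 : ℝ) ^ (2 * (2 * m' + 8) + 1)) ^ (5 * m + 1) :=
    pow_le_pow_left₀ (by positivity) h1 _
  have h3 : ((1/2 : ℝ) ^ m' * (1/2) ^ (m * (1 + (4 * (2 * m' + 8) + 2)))) =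
      1 / 2 ^ (m' + m * (1 + (4 * (2 * m' + 8) + 2))) := by
    rw [← pow_add, one_div_pow]
  rw [h3, mul_one_div, lt_div_iff₀ (by positivity), one_mul]
  refine lt_of_lt_of_le ?_ h2
  rw [← pow_mul]
  apply pow_lt_pow_right₀ (by norm_num)
  nlinarith

lemma num3 (m m' i : ℕ) (hm : 1 ≤ m) (hm' : 1 ≤ m') (hi : i ≤ 5 * m) :
    (m' + m * (1 + (i + 1) * (4 * (2 * m' + 8) + 2))) * ((2 * m' + 8) + 2) + ((2 * m' + 8) + 2)
      ≤ 3060 * m ^ 2 * m' ^ 2 := by
  have h1 : (i + 1) * (4 * (2 * m' + 8) + 2) ≤ (6 * m) * (42 * m') :=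
    Nat.mul_le_mul (by omega) (by omega)
  have h2 : m' + m * (1 + (i + 1) * (4 * (2 * m' + 8) + 2)) ≤ 254 * m ^ 2 * m' := by
    have a1 : m * (1 + (i + 1) * (4 * (2 * m' + 8) + 2)) ≤ m * (1 + (6 * m) * (42 * m')) :=
      Nat.mul_le_mul_left _ (by omega)
    have a2 : m' ≤ m ^ 2 * m' := Nat.le_mul_of_pos_left _ (by positivity)
    have a3 : m ≤ m ^ 2 * m' := by
      calc m = m * 1 := by ring
        _ ≤ m * (m * m') := Nat.mul_le_mul_left _ (Nat.mul_pos hm hm')
        _ = _ := by ring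
    have a4 : m * (1 + (6 * m) * (42 * m')) = m + 252 * (m ^ 2 * m') := by ring
    have a5 : 254 * m ^ 2 * m' = 254 * (m ^ 2 * m') := by ring
    omega
  have h3 : (2 * m' + 8) + 2 ≤ 12 * m' := by omega
  have h4 := Nat.mul_le_mul h2 h3
  have a2 : 12 * m' ≤ 12 * (m ^ 2 * m' ^ 2) := by
    have : m' ≤ m ^ 2 * m' ^ 2 := by
      calc m' = 1 * (m' * 1) := by ring
        _ ≤ m ^ 2 * (m' * m') := Nat.mul_le_mul (Nat.one_le_pow _ _ hm) (Nat.mul_le_mul_left _ hm')
        _ = _ := by ring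
    omega
  have a3 : 254 * m ^ 2 * m' * (12 * m') = 3048 * (m ^ 2 * m' ^ 2) := by ring
  have a4 : 3060 * m ^ 2 * m' ^ 2 = 3060 * (m ^ 2 * m' ^ 2) := by ring
  omega

/-- ratio pigeonhole: a positive nonincreasing sequence whose first ratio is not too small
cannot have ratios growing by a factor `Γ` at every step. -/
lemma pigeon (M : ℕ → ℝ) (Γ : ℝ) (k : ℕ) (hpos : ∀ i, 0 < M i) (hΓ : 0 < Γ)
    (hdec : ∀ i, M (i + 1) ≤ M i) (h1 : 1 < Γ ^ (k + 1) * (M 1 / M 0)) :
    ∃ i, i ≤ k ∧ M (i + 2) * M i ≤ Γ * M (i + 1) ^ 2 := by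
  by_contra hcon
  push Not at hcon
  have key : ∀ i, i ≤ k + 1 → Γ ^ i * (M 1 / M 0) ≤ M (i + 1) / M i := by
    intro i
    induction i with
    | zero => intro _; simp
    | succ i ih =>
      intro hi
      have h2 := ih (by omega)
      have h3 := hcon i (by omega)
      have h4 : Γ * (M (i + 1) / M i) ≤ M (i + 1 + 1) / M (i + 1) := by
        rw [← mul_div_assoc, div_le_div_iff₀ (hpos i) (hpos (i + 1))]
        have : M (i + 1 + 1) = M (i + 2) := rfl
        rw [this]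
        nlinarith
      calc Γ ^ (i + 1) * (M 1 / M 0) = Γ * (Γ ^ i * (M 1 / M 0)) := by ring
        _ ≤ Γ * (M (i + 1) / M i) := mul_le_mul_of_nonneg_left h2 hΓ.le
        _ ≤ _ := h4
  have h5 := key (k + 1) le_rfl
  have h6 : M (k + 1 + 1) / M (k + 1) ≤ 1 := by
    rw [div_le_one (hpos _)]; exact hdec _
  linarith

lemma step {Z : Type} (S : Finset Z) (ν x : Z → ℝ) (hν : ∀ z ∈ S, 0 ≤ ν z)
    (hx : ∀ z ∈ S, |x z| ≤ 1)
    (hodd : ∀ q : ℕ, Odd q → 0 ≤ ∑ z ∈ S, ν z * x z ^ q) (m m' : ℕ) (hm : 1 ≤ m) (hm' : 1 ≤ m') :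
    (∑ z ∈ S with x z < -(1/2 : ℝ) ^ m, ν z ≤ (1/2) ^ m' * ∑ z ∈ S, ν z) ∨
    ∃ (p j : ℕ) (B : ℝ), Even p ∧ Even j ∧ 0 < B ∧ B ≤ 1 ∧
      (∑ z ∈ S with x z < 0, ν z * (x z ^ p * (B + x z) ^ j) ≤
        (1/2) ^ m' * ∑ z ∈ S, ν z * (x z ^ p * (B + x z) ^ j)) ∧
      (1/2) ^ (3060 * m ^ 2 * m' ^ 2) * ∑ z ∈ S, ν z ≤
        (∑ z ∈ S, ν z * (x z ^ p * (B + x z) ^ j)) / (B + 1) ^ j := by
  by_cases hA : ∑ z ∈ S with x z < -(1/2 : ℝ) ^ m, ν z ≤ (1/2) ^ m' * ∑ z ∈ S, ν z
  · exact Or.inl hA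
  right
  push Not at hA
  set T := ∑ z ∈ S, ν z with hT
  set P := S.filter (fun z => ¬ x z < 0) with hP
  set Nn := S.filter (fun z => x z < 0) with hN
  have hPS : ∀ z ∈ P, z ∈ S ∧ 0 ≤ x z := fun z hz => by
    simp only [hP, mem_filter, not_lt] at hz; exact hz
  have hNS : ∀ z ∈ Nn, z ∈ S ∧ x z < 0 := fun z hz => by
    simp only [hN, mem_filter] at hz; exact hz
  have hx1 : ∀ z ∈ S, x z ≤ 1 := fun z hz => (abs_le.mp (hx z hz)).2
  have hxm1 : ∀ z ∈ S, -1 ≤ x z := fun z hz => (abs_le.mp (hx z hz)).1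
  have hsplit : ∀ f : Z → ℝ, ∑ z ∈ S, f z = ∑ z ∈ Nn, f z + ∑ z ∈ P, f z := fun f => by
    rw [hN, hP, Finset.sum_filter_add_sum_filter_not]
  set β : ℕ → ℝ := fun q => ∑ z ∈ P, ν z * x z ^ q with hβ
  set α : ℕ → ℝ := fun q => ∑ z ∈ Nn, ν z * (-x z) ^ q with hα
  have hT0 : 0 ≤ T := Finset.sum_nonneg hν
  have hδ : (0:ℝ) < (1/2) ^ m := by positivity
  -- T > 0
  have hTpos : 0 < T := by
    have h1 : 0 ≤ (1/2 : ℝ) ^ m' * T := by positivity
    have h2 : ∑ z ∈ S with x z < -(1/2 : ℝ) ^ m, ν z ≤ T :=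
      Finset.sum_le_sum_of_subset_of_nonneg (Finset.filter_subset _ _) (fun z hz _ => hν z hz)
    linarith
  have hαβ : ∀ q, Odd q → α q ≤ β q := by
    intro q hq
    have h := hodd q hq
    rw [hsplit] at h
    have e : ∑ z ∈ Nn, ν z * x z ^ q = - α q := by
      rw [hα]; simp only; rw [← Finset.sum_neg_distrib]
      refine Finset.sum_congr rfl (fun z _ => ?_)
      rw [hq.neg_pow]; ring
    rw [e] at h
    have : β q = ∑ z ∈ P, ν z * x z ^ q := rfl
    linarith
  have hβT : ∀ q, β q ≤ T := by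
    intro q
    have h1 : β q ≤ ∑ z ∈ P, ν z := by
      refine Finset.sum_le_sum (fun z hz => ?_)
      have h := hPS z hz
      have : x z ^ q ≤ 1 := pow_le_one₀ h.2 (hx1 z h.1)
      have := hν z h.1
      nlinarith
    have h2 : ∑ z ∈ P, ν z ≤ T :=
      Finset.sum_le_sum_of_subset_of_nonneg (Finset.filter_subset _ _) (fun z hz _ => hν z hz)
    linarith
  have hαlow : ∀ q, (1/2 : ℝ) ^ m' * (1/2) ^ (m * q) * T ≤ α q := by
    intro q
    have h1 : ∑ z ∈ S with x z < -(1/2 : ℝ) ^ m, ν z * (1/2 : ℝ) ^ (m * q) ≤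
        ∑ z ∈ S with x z < -(1/2 : ℝ) ^ m, ν z * (-x z) ^ q := by
      refine Finset.sum_le_sum (fun z hz => ?_)
      simp only [mem_filter] at hz
      refine mul_le_mul_of_nonneg_left ?_ (hν z hz.1)
      rw [pow_mul]
      exact pow_le_pow_left₀ hδ.le (by linarith [hz.2]) _
    have h2 : ∑ z ∈ S with x z < -(1/2 : ℝ) ^ m, ν z * (-x z) ^ q ≤ α q := by
      refine Finset.sum_le_sum_of_subset_of_nonneg ?_ ?_
      · intro z hz
        simp only [mem_filter, hN] at hz ⊢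
        exact ⟨hz.1, by linarith [hz.2]⟩
      · intro z hz _
        have h := hNS z hz
        have := hν z h.1
        have : 0 ≤ (-x z) ^ q := pow_nonneg (by linarith [h.2]) _
        positivity
    rw [← Finset.sum_mul] at h1
    have h3 : (1/2 : ℝ) ^ m' * T * (1/2) ^ (m * q) ≤
        (∑ z ∈ S with x z < -(1/2 : ℝ) ^ m, ν z) * (1/2) ^ (m * q) :=
      mul_le_mul_of_nonneg_right hA.le (by positivity)
    calc _ = (1/2 : ℝ) ^ m' * T * (1/2) ^ (m * q) := by ring
      _ ≤ _ := h3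
      _ ≤ _ := h1
      _ ≤ _ := h2
  set j := 2 * m' + 8 with hj
  set D := 4 * j + 2 with hD
  set M : ℕ → ℝ := fun i => β (1 + i * D) with hM
  have hDeven : Even D := ⟨2 * j + 1, by omega⟩
  have hoddq : ∀ i, Odd (1 + i * D) := fun i => by
    rw [add_comm]; exact (hDeven.mul_left i).add_one
  have hMlow : ∀ i, (1/2 : ℝ) ^ m' * (1/2) ^ (m * (1 + i * D)) * T ≤ M i := fun i =>
    (hαlow _).trans (hαβ _ (hoddq i))
  have hMpos : ∀ i, 0 < M i := fun i => lt_of_lt_of_le (by positivity) (hMlow i)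
  have hMdec : ∀ i, M (i + 1) ≤ M i := by
    intro i
    refine Finset.sum_le_sum (fun z hz => ?_)
    have h := hPS z hz
    refine mul_le_mul_of_nonneg_left ?_ (hν z h.1)
    exact pow_le_pow_of_le_one h.2 (hx1 z h.1) (by nlinarith)
  have hratio0 : (1/2 : ℝ) ^ m' * (1/2) ^ (m * (1 + D)) ≤ M 1 / M 0 := by
    rw [le_div_iff₀ (hMpos 0)]
    have h1 := hMlow 1
    have h2 : M 0 ≤ T := hβT _
    rw [one_mul] at h1
    have h3 : (0:ℝ) ≤ (1/2 : ℝ) ^ m' * (1/2) ^ (m * (1 + D)) := by positivity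
    nlinarith
  have hbig : 1 < ((3/2 : ℝ) ^ (2 * j + 1)) ^ (5 * m + 1) * (M 1 / M 0) := by
    have h1 := num2 m m'
    have h2 : (0:ℝ) ≤ ((3/2 : ℝ) ^ (2 * j + 1)) ^ (5 * m + 1) := by positivity
    have h3 := mul_le_mul_of_nonneg_left hratio0 h2
    exact lt_of_lt_of_le h1 h3
  obtain ⟨i, hi, hsel⟩ := pigeon M ((3/2 : ℝ) ^ (2 * j + 1)) (5 * m) hMpos (by positivity) hMdec hbig
  set R := M (i + 1) / M i with hR
  have hRpos : 0 < R := div_pos (hMpos _) (hMpos _)
  have hR1 : R ≤ 1 := by rw [hR, div_le_one (hMpos _)]; exact hMdec i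
  set B := R ^ ((D : ℝ)⁻¹) with hB
  have hBpos : 0 < B := Real.rpow_pos_of_pos hRpos _
  have hDne : D ≠ 0 := by omega
  have hBD : B ^ D = R := Real.rpow_inv_natCast_pow hRpos.le hDne
  have hB1 : B ≤ 1 := Real.rpow_le_one hRpos.le hR1 (by positivity)
  have hRB : R ≤ B := by
    rw [← hBD]
    exact pow_le_of_le_one hBpos.le hB1 hDne
  -- relations
  have hRM : R * M i = M (i + 1) := by rw [hR]; field_simp [(hMpos i).ne']
  have hM2 : M (i + 2) / R ≤ (3/2 : ℝ) ^ (2 * j + 1) * M (i + 1) := by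
    rw [div_le_iff₀ hRpos, hR]
    rw [show (3/2 : ℝ) ^ (2 * j + 1) * M (i + 1) * (M (i + 1) / M i) =
      ((3/2 : ℝ) ^ (2 * j + 1) * M (i + 1) ^ 2) / M i by ring]
    rw [le_div_iff₀ (hMpos i)]
    exact hsel
  have hjeven : Even j := ⟨m' + 4, by omega⟩
  have hpeven : Even (1 + i * D + (D + 1)) := by
    have h1 := hoddq i
    have h2 : Odd (D + 1) := hDeven.add_one
    exact h1.add_odd h2
  set p := 1 + i * D + (D + 1) with hp
  set G : Z → ℝ := fun z => x z ^ p * (B + x z) ^ j with hG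
  -- negative side
  have hneg : ∑ z ∈ Nn, ν z * G z ≤ 3 * (2/3 : ℝ) ^ j * (B ^ (j + 1) * M (i + 1)) := by
    have h1 : ∀ z ∈ Nn, ν z * G z ≤
        B ^ (j + 1) * (R * (2/3 : ℝ) ^ (4 * j + 3) * (ν z * (-x z) ^ (1 + i * D))
          + (3/2) * (1/2) ^ j * (ν z * (-x z) ^ (1 + (i + 1) * D))
          + (2/3) ^ (3 * j + 1) * (ν z * (-x z) ^ (1 + (i + 2) * D)) / R) := by
      intro z hz
      have h := hNS z hz
      have ht : 0 ≤ -x z := by linarith [h.2]
      have h2 := ptw_neg' j (-x z) B ht hBpos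
      have h3 : G z = (-x z) ^ (1 + i * D) * ((-x z) ^ (4 * j + 3) * |B - (-x z)| ^ j) := by
        rw [hG]; simp only
        rw [hjeven.pow_abs, ← hpeven.neg_pow (x z), hp, pow_add (-x z) (1 + i * D) (D + 1)]
        rw [show D + 1 = 4 * j + 3 by omega]
        ring
      rw [h3]
      have h4 : 0 ≤ ν z * (-x z) ^ (1 + i * D) := by
        have := hν z h.1
        positivity
      have h5 := mul_le_mul_of_nonneg_left h2 h4
      calc ν z * ((-x z) ^ (1 + i * D) * ((-x z) ^ (4 * j + 3) * |B - (-x z)| ^ j))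
          = ν z * (-x z) ^ (1 + i * D) * ((-x z) ^ (4 * j + 3) * |B - (-x z)| ^ j) := by ring
        _ ≤ _ := h5
        _ = _ := by
          rw [show B ^ (4 * j + 2) = R from hBD]
          have e1 : (-x z) ^ (1 + (i + 1) * D) = (-x z) ^ (1 + i * D) * (-x z) ^ (4 * j + 2) := by
            rw [← pow_add]; congr 1; ring
          have e2 : (-x z) ^ (1 + (i + 2) * D) = (-x z) ^ (1 + i * D) * (-x z) ^ (8 * j + 4) := by
            rw [← pow_add]; congr 1; rw [hD]; ring
          rw [e1, e2]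
          field_simp
    have h6 := Finset.sum_le_sum h1
    rw [← Finset.mul_sum, Finset.sum_add_distrib, Finset.sum_add_distrib, ← Finset.mul_sum,
      ← Finset.mul_sum, ← Finset.sum_div, ← Finset.mul_sum] at h6
    have a0 : ∑ z ∈ Nn, ν z * (-x z) ^ (1 + i * D) ≤ M i := hαβ _ (hoddq i)
    have a1 : ∑ z ∈ Nn, ν z * (-x z) ^ (1 + (i + 1) * D) ≤ M (i + 1) := hαβ _ (hoddq (i + 1))
    have a2 : ∑ z ∈ Nn, ν z * (-x z) ^ (1 + (i + 2) * D) ≤ M (i + 2) := hαβ _ (hoddq (i + 2))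
    have b0 : R * (2/3 : ℝ) ^ (4 * j + 3) * ∑ z ∈ Nn, ν z * (-x z) ^ (1 + i * D) ≤
        (2/3 : ℝ) ^ j * (8/27) * M (i + 1) := by
      calc _ ≤ R * (2/3 : ℝ) ^ (4 * j + 3) * M i :=
            mul_le_mul_of_nonneg_left a0 (by positivity)
        _ = (2/3 : ℝ) ^ (4 * j + 3) * (R * M i) := by ring
        _ = (2/3 : ℝ) ^ (4 * j + 3) * M (i + 1) := by rw [hRM]
        _ ≤ _ := by
          refine mul_le_mul_of_nonneg_right ?_ (hMpos _).le
          have : (2/3 : ℝ) ^ (4 * j + 3) = (2/3) ^ (4 * j) * (8/27) := by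
            rw [pow_add]; norm_num
          rw [this]
          refine mul_le_mul_of_nonneg_right ?_ (by norm_num)
          exact pow_le_pow_of_le_one (by norm_num) (by norm_num) (by omega)
    have b1 : (3/2) * (1/2 : ℝ) ^ j * ∑ z ∈ Nn, ν z * (-x z) ^ (1 + (i + 1) * D) ≤
        (2/3 : ℝ) ^ j * (3/2) * M (i + 1) := by
      calc _ ≤ (3/2) * (1/2 : ℝ) ^ j * M (i + 1) := mul_le_mul_of_nonneg_left a1 (by positivity)
        _ ≤ _ := by
          refine mul_le_mul_of_nonneg_right ?_ (hMpos _).le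
          rw [mul_comm]
          refine mul_le_mul_of_nonneg_right ?_ (by norm_num)
          exact pow_le_pow_left₀ (by norm_num) (by norm_num) _
    have b2 : (2/3 : ℝ) ^ (3 * j + 1) * (∑ z ∈ Nn, ν z * (-x z) ^ (1 + (i + 2) * D)) / R ≤
        (2/3 : ℝ) ^ j * M (i + 1) := by
      calc _ ≤ (2/3 : ℝ) ^ (3 * j + 1) * M (i + 2) / R := by
            refine div_le_div_of_nonneg_right ?_ hRpos.le
            exact mul_le_mul_of_nonneg_left a2 (by positivity)
        _ = (2/3 : ℝ) ^ (3 * j + 1) * (M (i + 2) / R) := by ring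
        _ ≤ (2/3 : ℝ) ^ (3 * j + 1) * ((3/2 : ℝ) ^ (2 * j + 1) * M (i + 1)) :=
            mul_le_mul_of_nonneg_left hM2 (by positivity)
        _ = _ := by
          have : (2/3 : ℝ) ^ (3 * j + 1) = (2/3) ^ j * (2/3) ^ (2 * j + 1) := by
            rw [← pow_add]; congr 1; ring
          rw [this]
          have h7 : (2/3 : ℝ) ^ (2 * j + 1) * (3/2) ^ (2 * j + 1) = 1 := by
            rw [← mul_pow]; norm_num
          calc (2/3 : ℝ) ^ j * (2/3) ^ (2 * j + 1) * ((3/2 : ℝ) ^ (2 * j + 1) * M (i + 1)) =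
              (2/3 : ℝ) ^ j * ((2/3) ^ (2 * j + 1) * (3/2 : ℝ) ^ (2 * j + 1)) * M (i + 1) := by ring
            _ = _ := by rw [h7]; ring
    have hB0 : (0:ℝ) ≤ B ^ (j + 1) := by positivity
    refine h6.trans ?_
    have h8 := add_le_add (add_le_add b0 b1) b2
    refine (mul_le_mul_of_nonneg_left h8 hB0).trans ?_
    have h9 : (0:ℝ) ≤ (2/3 : ℝ) ^ j * (B ^ (j + 1) * M (i + 1)) := by
      have := (hMpos (i + 1)).le
      positivity
    nlinarith
  -- positive side
  have hpos : B ^ (j + 1) * M (i + 1) / 3 ≤ ∑ z ∈ P, ν z * G z := by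
    have h1 : ∀ z ∈ P, B ^ (j + 1) * ((2/3) * (ν z * x z ^ (1 + (i + 1) * D))
        - (2/3 : ℝ) ^ (4 * j + 3) * R * (ν z * x z ^ (1 + i * D))) ≤ ν z * G z := by
      intro z hz
      have h := hPS z hz
      have h2 := ptw_pos' j (x z) B h.2 hBpos
      have h3 : G z = (x z) ^ (1 + i * D) * ((x z) ^ (4 * j + 3) * (B + x z) ^ j) := by
        rw [hG]; simp only
        rw [hp, pow_add (x z) (1 + i * D) (D + 1)]
        rw [show D + 1 = 4 * j + 3 by omega]
        ring
      rw [h3]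
      have h4 : 0 ≤ ν z * (x z) ^ (1 + i * D) := by
        have := hν z h.1
        have := h.2
        positivity
      have h5 := mul_le_mul_of_nonneg_left h2 h4
      calc _ = ν z * (x z) ^ (1 + i * D) * (B ^ (j + 1) * ((2/3) * x z ^ (4 * j + 2) -
            (2/3 : ℝ) ^ (4 * j + 3) * B ^ (4 * j + 2))) := by
            rw [show B ^ (4 * j + 2) = R from hBD]
            have e1 : (x z) ^ (1 + (i + 1) * D) = (x z) ^ (1 + i * D) * (x z) ^ (4 * j + 2) := by
              rw [← pow_add]; congr 1; ring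
            rw [e1]; ring
        _ ≤ _ := h5
        _ = _ := by ring
    have h6 := Finset.sum_le_sum h1
    rw [← Finset.mul_sum, Finset.sum_sub_distrib, ← Finset.mul_sum, ← Finset.mul_sum] at h6
    refine le_trans ?_ h6
    have e1 : ∑ z ∈ P, ν z * x z ^ (1 + (i + 1) * D) = M (i + 1) := rfl
    have e2 : ∑ z ∈ P, ν z * x z ^ (1 + i * D) = M i := rfl
    rw [e1, e2]
    have e3 : (2/3 : ℝ) ^ (4 * j + 3) * R * M i = (2/3 : ℝ) ^ (4 * j + 3) * M (i + 1) := by
      rw [mul_assoc, hRM]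
    rw [e3]
    have e4 : (2/3 : ℝ) ^ (4 * j + 3) ≤ 8/27 := by
      have : (2/3 : ℝ) ^ (4 * j + 3) ≤ (2/3) ^ 3 :=
        pow_le_pow_of_le_one (by norm_num) (by norm_num) (by omega)
      calc _ ≤ _ := this
        _ = 8/27 := by norm_num
    have hB0 : (0:ℝ) ≤ B ^ (j + 1) := by positivity
    have hm0 := (hMpos (i + 1)).le
    rw [mul_div_assoc]
    refine mul_le_mul_of_nonneg_left ?_ hB0
    nlinarith
  have hpos0 : 0 ≤ B ^ (j + 1) * M (i + 1) := by
    have := (hMpos (i + 1)).le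
    positivity
  have hN0 : 0 ≤ ∑ z ∈ Nn, ν z * G z := by
    refine Finset.sum_nonneg (fun z hz => ?_)
    have h := hNS z hz
    have h1 : 0 ≤ G z := mul_nonneg (hpeven.pow_nonneg _) (hjeven.pow_nonneg _)
    exact mul_nonneg (hν z h.1) h1
  have htot : ∑ z ∈ P, ν z * G z ≤ ∑ z ∈ S, ν z * G z := by
    rw [hsplit]; linarith
  refine ⟨p, j, B, hpeven, hjeven, hBpos, hB1, ?_, ?_⟩
  · change ∑ z ∈ Nn, ν z * G z ≤ (1/2) ^ m' * ∑ z ∈ S, ν z * G z
    have h1 := num1 m'
    have h2 : (0:ℝ) ≤ (2/3 : ℝ) ^ j := by positivity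
    have h3 : (0:ℝ) ≤ (1/2 : ℝ) ^ m' := by positivity
    calc ∑ z ∈ Nn, ν z * G z ≤ 3 * (2/3 : ℝ) ^ j * (B ^ (j + 1) * M (i + 1)) := hneg
      _ = 9 * (2/3 : ℝ) ^ j * (B ^ (j + 1) * M (i + 1) / 3) := by ring
      _ ≤ (1/2) ^ m' * (B ^ (j + 1) * M (i + 1) / 3) :=
          mul_le_mul_of_nonneg_right h1 (by positivity)
      _ ≤ (1/2) ^ m' * ∑ z ∈ S, ν z * G z :=
          mul_le_mul_of_nonneg_left (hpos.trans htot) h3
  · change (1/2) ^ (3060 * m ^ 2 * m' ^ 2) * T ≤ (∑ z ∈ S, ν z * G z) / (B + 1) ^ j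
    set e0 := m' + m * (1 + (i + 1) * D) with he0
    have hMlow' : (1/2 : ℝ) ^ e0 * T ≤ M (i + 1) := by
      have := hMlow (i + 1)
      rwa [← pow_add] at this
    have hRlow : (1/2 : ℝ) ^ e0 ≤ R := by
      rw [hR, le_div_iff₀ (hMpos i)]
      have h1 : M i ≤ T := hβT _
      have h2 : (0:ℝ) ≤ (1/2 : ℝ) ^ e0 := by positivity
      nlinarith
    have hBlow : (1/2 : ℝ) ^ e0 ≤ B := hRlow.trans hRB
    have hBp : ((1/2 : ℝ) ^ e0) ^ (j + 1) ≤ B ^ (j + 1) := pow_le_pow_left₀ (by positivity) hBlow _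
    rw [le_div_iff₀ (by positivity)]
    have h1 : (B + 1) ^ j ≤ 2 ^ j := pow_le_pow_left₀ (by linarith) (by linarith) _
    have h2 : (1/2 : ℝ) ^ (3060 * m ^ 2 * m' ^ 2) ≤ (1/2) ^ (e0 * (j + 2) + (j + 2)) :=
      pow_le_pow_of_le_one (by norm_num) (by norm_num) (num3 m m' i hm hm' hi)
    have h3 : (1/2 : ℝ) ^ (e0 * (j + 2) + (j + 2)) * T * 2 ^ j ≤ B ^ (j + 1) * M (i + 1) / 3 := by
      have e : (1/2 : ℝ) ^ (e0 * (j + 2) + (j + 2)) * T * 2 ^ j =
          ((1/2 : ℝ) ^ e0) ^ (j + 1) * ((1/2) ^ e0 * T) / 4 := by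
        have : (1/2 : ℝ) ^ (e0 * (j + 2) + (j + 2)) =
            ((1/2 : ℝ) ^ e0) ^ (j + 1) * (1/2) ^ e0 * ((1/2) ^ j * (1/4)) := by
          rw [← pow_mul, ← pow_add, show (1/4 : ℝ) = (1/2) ^ 2 by norm_num, ← pow_add, ← pow_add]
          congr 1
        rw [this]
        have h7 : (1/2 : ℝ) ^ j * 2 ^ j = 1 := by
          rw [← mul_pow]; norm_num
        calc _ = ((1/2 : ℝ) ^ e0) ^ (j + 1) * (1/2) ^ e0 * ((1/2 : ℝ) ^ j * 2 ^ j) * (1/4) * T := by ring
          _ = _ := by rw [h7]; ring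
      rw [e]
      have h8 : ((1/2 : ℝ) ^ e0) ^ (j + 1) * ((1/2) ^ e0 * T) ≤ B ^ (j + 1) * M (i + 1) :=
        mul_le_mul hBp hMlow' (by positivity) (by positivity)
      have h9 : 0 ≤ B ^ (j + 1) * M (i + 1) := hpos0
      linarith
    calc (1/2) ^ (3060 * m ^ 2 * m' ^ 2) * T * (B + 1) ^ j
        ≤ (1/2) ^ (e0 * (j + 2) + (j + 2)) * T * 2 ^ j := by
          refine mul_le_mul (mul_le_mul_of_nonneg_right h2 hT0) h1 (by positivity) (by positivity)
      _ ≤ _ := h3
      _ ≤ _ := hpos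
      _ ≤ _ := htot

open scoped Classical in
/-- The set of pairs on which some kernel of the list is below `-(1/2)^m`. -/
noncomputable def bad {V : Type} (W : Finset V) (l : List (V → V → ℝ)) (m : ℕ) : Finset (V × V) :=
  (W ×ˢ W).filter (fun z => ∃ p ∈ l, p z.1 z.2 < -(1/2 : ℝ) ^ m)

lemma num4 (m m' : ℕ) (hm : 1 ≤ m) (hm' : 1 ≤ m') :
    m' + 1 + 3060 * m ^ 2 * (m' + 1) ^ 2 ≤ 12242 * (m * m') ^ 2 := by
  have h1 : m' + 1 ≤ 2 * m' := by omega
  have h2 : (m' + 1) ^ 2 ≤ (2 * m') ^ 2 := Nat.pow_le_pow_left h1 2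
  have h3 : 3060 * m ^ 2 * (m' + 1) ^ 2 ≤ 3060 * m ^ 2 * (2 * m') ^ 2 := Nat.mul_le_mul_left _ h2
  have h4 : 3060 * m ^ 2 * (2 * m') ^ 2 = 12240 * (m * m') ^ 2 := by ring
  have h5 : m' ≤ (m * m') ^ 2 := by
    calc m' = 1 * (m' * 1) := by ring
      _ ≤ m ^ 2 * (m' * m') := Nat.mul_le_mul (Nat.one_le_pow _ _ hm) (Nat.mul_le_mul_left _ hm')
      _ = _ := by ring
  omega

lemma num5 (A a m m' : ℕ) (hm : 1 ≤ m) (hm' : 1 ≤ m') :
    3060 * m ^ 2 * (m' + 1) ^ 2 + A * (m * (12242 * (m * m') ^ 2)) ^ a ≤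
      (12242 + A * 12242 ^ a) * (m * m') ^ (3 * a + 2) := by
  have hmm : 1 ≤ m * m' := Nat.mul_pos hm hm'
  have h1 : 3060 * m ^ 2 * (m' + 1) ^ 2 ≤ 12242 * (m * m') ^ 2 := by
    have := num4 m m' hm hm'; omega
  have h2 : (m * m') ^ 2 ≤ (m * m') ^ (3 * a + 2) := Nat.pow_le_pow_right hmm (by omega)
  have h3 : m * (12242 * (m * m') ^ 2) ≤ 12242 * (m * m') ^ 3 := by
    have : m ≤ m * m' := Nat.le_mul_of_pos_right _ hm'
    calc m * (12242 * (m * m') ^ 2) ≤ (m * m') * (12242 * (m * m') ^ 2) :=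
          Nat.mul_le_mul_right _ this
      _ = _ := by ring
  have h4 : (m * (12242 * (m * m') ^ 2)) ^ a ≤ 12242 ^ a * (m * m') ^ (3 * a) := by
    calc _ ≤ (12242 * (m * m') ^ 3) ^ a := Nat.pow_le_pow_left h3 a
      _ = _ := by rw [mul_pow, ← pow_mul]
  have h5 : (m * m') ^ (3 * a) ≤ (m * m') ^ (3 * a + 2) := Nat.pow_le_pow_right hmm (by omega)
  calc _ ≤ 12242 * (m * m') ^ (3 * a + 2) + A * (12242 ^ a * (m * m') ^ (3 * a + 2)) :=
        Nat.add_le_add (h1.trans (Nat.mul_le_mul_left _ h2))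
          (Nat.mul_le_mul_left _ (h4.trans (Nat.mul_le_mul_left _ h5)))
    _ = _ := by ring

theorem core_weight (r : ℕ) : ∃ A a : ℕ, ∀ (m m' : ℕ), 1 ≤ m → 1 ≤ m' →
    ∀ (V : Type) (W : Finset V) (l : List (V → V → ℝ)), l.length = r → (∀ p ∈ l, IsPD p) →
    (∀ p ∈ l, ∀ u ∈ W, ∀ v ∈ W, |p u v| ≤ 1) →
    ∃ w : V → V → ℝ, IsPD w ∧ (∀ u ∈ W, ∀ v ∈ W, 0 ≤ w u v ∧ w u v ≤ 1) ∧
      (∑ z ∈ bad W l m, w z.1 z.2 ≤ (1/2) ^ m' * ∑ z ∈ W ×ˢ W, w z.1 z.2) ∧
      (1/2 : ℝ) ^ (A * (m * m') ^ a) * (W.card : ℝ) ^ 2 ≤ ∑ z ∈ W ×ˢ W, w z.1 z.2 := by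
  classical
  induction r with
  | zero =>
    refine ⟨0, 0, fun m m' hm hm' V W l hl _ _ => ⟨fun _ _ => 1, IsPD.const zero_le_one, ?_, ?_, ?_⟩⟩
    · intro u _ v _; norm_num
    · have : l = [] := List.length_eq_zero_iff.mp hl
      subst this
      have hb : bad W ([] : List (V → V → ℝ)) m = ∅ := by
        simp [bad]
      rw [hb, Finset.sum_empty]
      exact mul_nonneg (by positivity) (Finset.sum_nonneg (fun _ _ => zero_le_one))
    · simp [Finset.card_product, pow_two]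
  | succ r ih =>
    obtain ⟨A, a, ih⟩ := ih
    refine ⟨12242 + A * 12242 ^ a, 3 * a + 2, fun m m' hm hm' V W l hl hPD hbd => ?_⟩
    obtain _ | ⟨p, l'⟩ := l
    · simp at hl
    have hl' : l'.length = r := by simpa using hl
    set m1 := 12242 * (m * m') ^ 2 with hm1
    have hmm : 1 ≤ m * m' := Nat.mul_pos hm hm'
    have hm1' : 1 ≤ m1 := by
      have : 1 ≤ (m * m') ^ 2 := Nat.one_le_pow _ _ hmm
      omega
    obtain ⟨w1, hw1PD, hw1, hbad1, htot1⟩ := ih m m1 hm hm1' V W l' hl'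
      (fun q hq => hPD q (List.mem_cons_of_mem _ hq)) (fun q hq => hbd q (List.mem_cons_of_mem _ hq))
    have hpPD : IsPD p := hPD p List.mem_cons_self
    have hpbd := hbd p List.mem_cons_self
    set S := W ×ˢ W with hS
    have hSmem : ∀ z ∈ S, z.1 ∈ W ∧ z.2 ∈ W := fun z hz => by
      rw [hS, mem_product] at hz; exact hz
    have hTnn : 0 ≤ ∑ z ∈ S, w1 z.1 z.2 :=
      Finset.sum_nonneg (fun z hz => (hw1 _ (hSmem z hz).1 _ (hSmem z hz).2).1)
    have hE := num4 m m' hm hm'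
    have hbadsub : bad W (p :: l') m ⊆ bad W l' m ∪ S.filter (fun z => p z.1 z.2 < -(1/2 : ℝ) ^ m) := by
      intro z hz
      simp only [bad, mem_filter, mem_union, List.mem_cons, exists_eq_or_imp] at hz ⊢
      rcases hz with ⟨h1, h2 | h2⟩
      · exact Or.inr ⟨h1, h2⟩
      · exact Or.inl ⟨h1, h2⟩
    have hbadS : bad W l' m ⊆ S := Finset.filter_subset _ _
    rcases step S (fun z => w1 z.1 z.2) (fun z => p z.1 z.2)
      (fun z hz => (hw1 _ (hSmem z hz).1 _ (hSmem z hz).2).1)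
      (fun z hz => hpbd _ (hSmem z hz).1 _ (hSmem z hz).2)
      (fun q _ => by
        have := (hw1PD.mul (hpPD.pow q)).sum_nonneg W
        rw [hS, Finset.sum_product]; exact this) m (m' + 1) hm (by omega) with h | h
    · refine ⟨w1, hw1PD, hw1, ?_, ?_⟩
      · have h1 : ∑ z ∈ bad W (p :: l') m, w1 z.1 z.2 ≤
            ∑ z ∈ bad W l' m, w1 z.1 z.2 + ∑ z ∈ S with p z.1 z.2 < -(1/2 : ℝ) ^ m, w1 z.1 z.2 := by
          refine le_trans (Finset.sum_le_sum_of_subset_of_nonneg hbadsub ?_) ?_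
          · intro z hz _
            have : z ∈ S := by
              rcases mem_union.mp hz with h | h
              · exact hbadS h
              · exact (mem_filter.mp h).1
            exact (hw1 _ (hSmem z this).1 _ (hSmem z this).2).1
          · rw [← Finset.sum_union_inter]
            refine le_add_of_nonneg_right (Finset.sum_nonneg (fun z hz => ?_))
            have : z ∈ S := hbadS (mem_inter.mp hz).1
            exact (hw1 _ (hSmem z this).1 _ (hSmem z this).2).1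
        have h2 : (1/2 : ℝ) ^ m1 ≤ (1/2) ^ (m' + 1) :=
          pow_le_pow_of_le_one (by norm_num) (by norm_num) (by omega)
        have h3 := mul_le_mul_of_nonneg_right h2 hTnn
        have h4 : (1/2 : ℝ) ^ (m' + 1) = (1/2) ^ m' / 2 := by ring
        rw [h4] at h3 h
        linarith
      · refine le_trans ?_ htot1
        refine mul_le_mul_of_nonneg_right ?_ (by positivity)
        refine pow_le_pow_of_le_one (by norm_num) (by norm_num) ?_
        have := num5 A a m m' hm hm'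
        rw [← hm1] at this
        omega
    · obtain ⟨q, j, B, hq, hj, hB, hB1, hneg, htot⟩ := h
      set c : ℝ := 1 / (B + 1) ^ j with hc
      have hc0 : 0 ≤ c := by positivity
      set w : V → V → ℝ := fun u v => w1 u v * ((p u v ^ q * (B + p u v) ^ j) * c) with hw
      have hwPD : IsPD w := hw1PD.mul (((hpPD.pow q).mul (((IsPD.const hB.le).add hpPD).pow j)).mul
        (IsPD.const hc0))
      have hF : ∀ u ∈ W, ∀ v ∈ W, 0 ≤ (p u v ^ q * (B + p u v) ^ j) * c ∧
          (p u v ^ q * (B + p u v) ^ j) * c ≤ 1 := by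
        intro u hu v hv
        have h1 := abs_le.mp (hpbd u hu v hv)
        have h2 : 0 ≤ p u v ^ q := hq.pow_nonneg _
        have h3 : 0 ≤ (B + p u v) ^ j := hj.pow_nonneg _
        refine ⟨by positivity, ?_⟩
        have h4 : p u v ^ q ≤ 1 := by
          rw [← hq.pow_abs]; exact pow_le_one₀ (abs_nonneg _) (hpbd u hu v hv)
        have h5 : (B + p u v) ^ j ≤ (B + 1) ^ j := by
          rw [← hj.pow_abs]
          refine pow_le_pow_left₀ (abs_nonneg _) ?_ _
          rw [abs_le]; constructor <;> linarith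
        have h6 : p u v ^ q * (B + p u v) ^ j ≤ 1 * (B + 1) ^ j :=
          mul_le_mul h4 h5 h3 (by norm_num)
        calc _ ≤ 1 * (B + 1) ^ j * c := mul_le_mul_of_nonneg_right h6 hc0
          _ = 1 := by rw [hc]; field_simp
      have hwb : ∀ u ∈ W, ∀ v ∈ W, 0 ≤ w u v ∧ w u v ≤ 1 := by
        intro u hu v hv
        have h1 := hw1 u hu v hv
        have h2 := hF u hu v hv
        exact ⟨mul_nonneg h1.1 h2.1, by rw [hw]; exact mul_le_one₀ h1.2 h2.1 h2.2⟩
      have hwle : ∀ u ∈ W, ∀ v ∈ W, w u v ≤ w1 u v := by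
        intro u hu v hv
        have h1 := hw1 u hu v hv
        have h2 := hF u hu v hv
        calc w u v ≤ w1 u v * 1 := mul_le_mul_of_nonneg_left h2.2 h1.1
          _ = _ := mul_one _
      have hsumw : ∀ s : Finset (V × V), ∑ z ∈ s, w z.1 z.2 =
          (∑ z ∈ s, w1 z.1 z.2 * (p z.1 z.2 ^ q * (B + p z.1 z.2) ^ j)) * c := by
        intro s
        rw [Finset.sum_mul]
        refine Finset.sum_congr rfl (fun z _ => ?_)
        rw [hw]; ring
      have htot' : (1/2 : ℝ) ^ (3060 * m ^ 2 * (m' + 1) ^ 2) * ∑ z ∈ S, w1 z.1 z.2 ≤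
          ∑ z ∈ S, w z.1 z.2 := by
        rw [hsumw, hc, mul_one_div]; exact htot
      have hwS : 0 ≤ ∑ z ∈ S, w z.1 z.2 :=
        Finset.sum_nonneg (fun z hz => (hwb _ (hSmem z hz).1 _ (hSmem z hz).2).1)
      refine ⟨w, hwPD, hwb, ?_, ?_⟩
      · have h1 : ∑ z ∈ bad W (p :: l') m, w z.1 z.2 ≤
            ∑ z ∈ bad W l' m, w z.1 z.2 + ∑ z ∈ S with p z.1 z.2 < 0, w z.1 z.2 := by
          have hsub2 : bad W (p :: l') m ⊆ bad W l' m ∪ S.filter (fun z => p z.1 z.2 < 0) := by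
            intro z hz
            rcases mem_union.mp (hbadsub hz) with h | h
            · exact mem_union_left _ h
            · refine mem_union_right _ ?_
              rw [mem_filter] at h ⊢
              refine ⟨h.1, h.2.trans ?_⟩
              have : (0:ℝ) < (1/2) ^ m := by positivity
              linarith
          refine le_trans (Finset.sum_le_sum_of_subset_of_nonneg hsub2 ?_) ?_
          · intro z hz _
            have : z ∈ S := by
              rcases mem_union.mp hz with h | h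
              · exact hbadS h
              · exact (mem_filter.mp h).1
            exact (hwb _ (hSmem z this).1 _ (hSmem z this).2).1
          · rw [← Finset.sum_union_inter]
            refine le_add_of_nonneg_right (Finset.sum_nonneg (fun z hz => ?_))
            have : z ∈ S := hbadS (mem_inter.mp hz).1
            exact (hwb _ (hSmem z this).1 _ (hSmem z this).2).1
        have h2 : ∑ z ∈ S with p z.1 z.2 < 0, w z.1 z.2 ≤ (1/2) ^ (m' + 1) * ∑ z ∈ S, w z.1 z.2 := by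
          rw [hsumw, hsumw, ← mul_assoc]
          exact mul_le_mul_of_nonneg_right hneg hc0
        have h3 : ∑ z ∈ bad W l' m, w z.1 z.2 ≤ (1/2) ^ (m' + 1) * ∑ z ∈ S, w z.1 z.2 := by
          have a1 : ∑ z ∈ bad W l' m, w z.1 z.2 ≤ ∑ z ∈ bad W l' m, w1 z.1 z.2 :=
            Finset.sum_le_sum (fun z hz => hwle _ (hSmem z (hbadS hz)).1 _ (hSmem z (hbadS hz)).2)
          have a2 : (1/2 : ℝ) ^ m1 ≤ (1/2) ^ (m' + 1) * (1/2) ^ (3060 * m ^ 2 * (m' + 1) ^ 2) := by
            rw [← pow_add]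
            exact pow_le_pow_of_le_one (by norm_num) (by norm_num) hE
          have a3 := mul_le_mul_of_nonneg_right a2 hTnn
          have a4 := mul_le_mul_of_nonneg_left htot' (show (0:ℝ) ≤ (1/2) ^ (m' + 1) by positivity)
          calc _ ≤ _ := a1
            _ ≤ _ := hbad1
            _ ≤ _ := a3
            _ = _ := by rw [mul_assoc]
            _ ≤ _ := a4
        have h4 : (1/2 : ℝ) ^ (m' + 1) = (1/2) ^ m' / 2 := by ring
        rw [h4] at h2 h3
        linarith
      · refine le_trans ?_ htot'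
        refine le_trans ?_ (mul_le_mul_of_nonneg_left htot1 (by positivity))
        rw [← mul_assoc, ← pow_add]
        refine mul_le_mul_of_nonneg_right ?_ (by positivity)
        exact pow_le_pow_of_le_one (by norm_num) (by norm_num) (num5 A a m m' hm hm')

theorem core_pair (r : ℕ) : ∃ A a : ℕ, ∀ (m : ℕ), 1 ≤ m →
    ∀ (V : Type) (W : Finset V) (l : List (V → V → ℝ)), l.length = r → (∀ p ∈ l, IsPD p) →
    (∀ p ∈ l, ∀ u ∈ W, ∀ v ∈ W, |p u v| ≤ 1) → 2 ^ (A * m ^ a) ≤ W.card →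
    ∃ u ∈ W, ∃ v ∈ W, u ≠ v ∧ ∀ p ∈ l, -(1/2 : ℝ) ^ m ≤ p u v := by
  classical
  obtain ⟨A, a, h⟩ := core_weight r
  refine ⟨A + 2, a, fun m hm V W l hl hPD hbd hcard => ?_⟩
  obtain ⟨w, -, hw, hbad, htot⟩ := h m 1 hm le_rfl V W l hl hPD hbd
  by_contra hcon
  push Not at hcon
  have hmem : ∀ z ∈ W ×ˢ W, z.1 ∈ W ∧ z.2 ∈ W := fun z hz => mem_product.mp hz
  set Dg : Finset (V × V) := (W ×ˢ W).filter (fun z => z.1 = z.2) with hDg
  have hsub : W ×ˢ W ⊆ Dg ∪ bad W l m := by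
    intro z hz
    by_cases h1 : z.1 = z.2
    · exact mem_union_left _ (mem_filter.mpr ⟨hz, h1⟩)
    · refine mem_union_right _ (mem_filter.mpr ⟨hz, ?_⟩)
      exact hcon z.1 (hmem z hz).1 z.2 (hmem z hz).2 h1
  have hsubS : Dg ∪ bad W l m ⊆ W ×ˢ W :=
    union_subset (filter_subset _ _) (filter_subset _ _)
  have h1 : ∑ z ∈ W ×ˢ W, w z.1 z.2 ≤ ∑ z ∈ Dg, w z.1 z.2 + ∑ z ∈ bad W l m, w z.1 z.2 := by
    rw [← Finset.sum_union_inter, show W ×ˢ W = Dg ∪ bad W l m from Subset.antisymm hsub hsubS]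
    refine le_add_of_nonneg_right (Finset.sum_nonneg (fun z hz => ?_))
    have : z ∈ W ×ˢ W := (mem_filter.mp (mem_inter.mp hz).1).1
    exact (hw _ (hmem z this).1 _ (hmem z this).2).1
  have h2 : ∑ z ∈ Dg, w z.1 z.2 ≤ W.card := by
    have e : Dg.card = W.card := by
      have : Dg = W.image (fun u => (u, u)) := by
        ext ⟨u, v⟩
        simp only [hDg, mem_filter, mem_product, mem_image, Prod.mk.injEq]
        constructor
        · rintro ⟨⟨h1, _⟩, h2⟩; exact ⟨u, h1, rfl, h2⟩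
        · rintro ⟨x, hx, rfl, rfl⟩; exact ⟨⟨hx, hx⟩, rfl⟩
      rw [this, card_image_of_injective _ (fun x y hxy => (Prod.mk.inj hxy).1)]
    rw [← e]
    calc _ ≤ ∑ z ∈ Dg, (1:ℝ) := Finset.sum_le_sum (fun z hz => by
          have : z ∈ W ×ˢ W := (mem_filter.mp hz).1
          exact (hw _ (hmem z this).1 _ (hmem z this).2).2)
      _ = _ := by simp
  have h3 : ∑ z ∈ W ×ˢ W, w z.1 z.2 ≤ 2 * W.card := by
    have : ∑ z ∈ bad W l m, w z.1 z.2 ≤ (1/2) * ∑ z ∈ W ×ˢ W, w z.1 z.2 := by simpa using hbad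
    linarith
  rw [mul_one] at htot
  have hWpos : (0:ℝ) < W.card := by
    have : 0 < W.card := lt_of_lt_of_le (by positivity) hcard
    exact_mod_cast this
  have h4 : (1/2 : ℝ) ^ (A * m ^ a) * (W.card : ℝ) ≤ 2 := by
    have h5 := htot.trans h3
    rw [pow_two, ← mul_assoc] at h5
    exact le_of_mul_le_mul_right h5 hWpos
  have h6 : (2 : ℝ) ^ ((A + 2) * m ^ a) ≤ W.card := by exact_mod_cast hcard
  have h7 : (2 : ℝ) ^ (A * m ^ a + 2) ≤ (2:ℝ) ^ ((A + 2) * m ^ a) := by
    apply pow_le_pow_right₀ (by norm_num)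
    have : 1 ≤ m ^ a := Nat.one_le_pow _ _ hm
    nlinarith
  have h8 : (1/2 : ℝ) ^ (A * m ^ a) * 2 ^ (A * m ^ a + 2) = 4 := by
    rw [pow_add, ← mul_assoc, ← mul_pow]; norm_num
  have h9 : (1/2 : ℝ) ^ (A * m ^ a) * 2 ^ (A * m ^ a + 2) ≤ (1/2 : ℝ) ^ (A * m ^ a) * W.card :=
    mul_le_mul_of_nonneg_left (h7.trans h6) (by positivity)
  linarith

theorem core_nbr (r : ℕ) : ∃ A a : ℕ, ∀ (m : ℕ), 1 ≤ m →
    ∀ (V : Type) (W : Finset V) (l : List (V → V → ℝ)), l.length = r → (∀ p ∈ l, IsPD p) →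
    (∀ p ∈ l, ∀ u ∈ W, ∀ v ∈ W, |p u v| ≤ 1) → ∀ K : ℕ, 2 ^ (A * m ^ a) * (K + 1) ≤ W.card →
    ∃ u ∈ W, ∃ W' ⊆ W, u ∉ W' ∧ K ≤ W'.card ∧ ∀ v ∈ W', ∀ p ∈ l, -(1/2 : ℝ) ^ m ≤ p u v := by
  classical
  obtain ⟨A, a, h⟩ := core_pair r
  refine ⟨A, a, fun m hm V W l hl hPD hbd K hcard => ?_⟩
  set N := 2 ^ (A * m ^ a) with hN
  have hNpos : 0 < N := by positivity
  -- maximal bad clique
  obtain ⟨Bd, hBd⟩ : ∃ Bd : Finset V → Prop, ∀ I, Bd I ↔
      ∀ u ∈ I, ∀ v ∈ I, u ≠ v → ¬ ∀ p ∈ l, -(1/2 : ℝ) ^ m ≤ p u v := ⟨_, fun _ => Iff.rfl⟩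
  set F := W.powerset.filter Bd with hF
  have hFne : F.Nonempty := ⟨∅, by
    rw [hF, mem_filter, hBd]
    exact ⟨empty_mem_powerset _, fun u hu => absurd hu (notMem_empty _)⟩⟩
  obtain ⟨I, hIF, hImax⟩ := Finset.exists_max_image F Finset.card hFne
  have hIF' : I ⊆ W ∧ ∀ u ∈ I, ∀ v ∈ I, u ≠ v → ¬ ∀ p ∈ l, -(1/2 : ℝ) ^ m ≤ p u v := by
    rw [hF, mem_filter, mem_powerset, hBd] at hIF; exact hIF
  obtain ⟨hIW, hIbad⟩ := hIF'
  have hIcard : I.card < N := by
    by_contra hcon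
    push Not at hcon
    obtain ⟨u, hu, v, hv, huv, hgood⟩ := h m hm V I l hl hPD
      (fun p hp u hu v hv => hbd p hp u (hIW hu) v (hIW hv)) hcon
    exact hIbad u hu v hv huv hgood
  have hcover : ∀ v ∈ W \ I, ∃ u ∈ I, ∀ p ∈ l, -(1/2 : ℝ) ^ m ≤ p u v := by
    intro v hv
    rw [mem_sdiff] at hv
    by_contra hcon
    push Not at hcon
    have hins : insert v I ∈ F := by
      rw [hF, mem_filter, mem_powerset, hBd]
      refine ⟨insert_subset hv.1 hIW, ?_⟩
      intro x hx y hy hxy hgood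
      rw [mem_insert] at hx hy
      rcases hx with rfl | hx
      · rcases hy with rfl | hy
        · exact hxy rfl
        · obtain ⟨p, hp, hp2⟩ := hcon y hy
          have := hgood p hp
          rw [(hPD p hp).symm] at this
          linarith
      · rcases hy with rfl | hy
        · obtain ⟨p, hp, hp2⟩ := hcon x hx
          have := hgood p hp
          linarith
        · exact hIbad x hx y hy hxy hgood
    have := hImax _ hins
    rw [card_insert_of_notMem hv.2] at this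
    omega
  choose! f hf1 hf2 using hcover
  have hcardsd : I.card * K ≤ (W \ I).card := by
    have h1 : (W \ I).card = W.card - I.card := card_sdiff_of_subset hIW
    have h2 : I.card * K + I.card ≤ N * (K + 1) := by
      calc _ = I.card * (K + 1) := by ring
        _ ≤ _ := Nat.mul_le_mul_right _ hIcard.le
    omega
  have hIne : I.Nonempty := by
    by_contra hcon
    rw [not_nonempty_iff_eq_empty] at hcon
    have hWne : W.Nonempty := by
      rw [← card_pos]
      exact lt_of_lt_of_le (by positivity) hcard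
    obtain ⟨v, hv⟩ := hWne
    have := hf1 v (by rw [hcon]; simpa using hv)
    rw [hcon] at this
    simp at this
  obtain ⟨u, hu, hfib⟩ := Finset.exists_le_card_fiber_of_mul_le_card_of_maps_to hf1 hIne hcardsd
  refine ⟨u, hIW hu, (W \ I).filter (fun v => f v = u), ?_, ?_, hfib, ?_⟩
  · exact (filter_subset _ _).trans sdiff_subset
  · intro hmem
    have := (mem_sdiff.mp (mem_filter.mp hmem).1).2
    exact this hu
  · intro v hv p hp
    have h1 := mem_filter.mp hv
    have := hf2 v h1.1 p hp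
    rw [h1.2] at this
    exact this

/-- The sign of a bit. -/
def sg (b : Bool) : ℝ := if b then 1 else -1

lemma sg_mul_self (b : Bool) : sg b * sg b = 1 := by cases b <;> simp [sg]

lemma abs_sg (b : Bool) : |sg b| = 1 := by cases b <;> simp [sg]

/-- Correlation of two words on a set of coordinates. -/
noncomputable def corr {n : ℕ} (E : Finset (Fin n)) (x y : Fin n → Bool) : ℝ :=
  ∑ i ∈ E, sg (x i) * sg (y i)

/-- All later words are almost nonnegatively correlated with each word of the list, on every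
cell of the partition of `E` generated by the earlier words. -/
def PC {n : ℕ} (D : ℝ) : Finset (Fin n) → List (Fin n → Bool) → Prop
  | _, [] => True
  | E, x :: xs => (∀ y ∈ xs, -D ≤ corr E x y) ∧
      PC D (E.filter (fun i => x i = true)) xs ∧ PC D (E.filter (fun i => x i = false)) xs

noncomputable def ker {n : ℕ} (E : Finset (Fin n)) (x y : Fin n → Bool) : ℝ :=
  (1 / n : ℝ) * corr E x y

lemma ker_PD {n : ℕ} (E : Finset (Fin n)) : IsPD (ker E) := by
  refine ⟨Fin n, inferInstance, fun i x => if i ∈ E then Real.sqrt (1 / n) * sg (x i) else 0,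
    fun u v => ?_⟩
  have h0 : (0:ℝ) ≤ 1 / n := by positivity
  unfold ker corr
  rw [Finset.mul_sum, ← Finset.sum_filter_add_sum_filter_not (s := (Finset.univ : Finset (Fin n)))
    (p := fun i => i ∈ E)]
  have h1 : ∑ i ∈ Finset.univ with i ∉ E, (if i ∈ E then Real.sqrt (1 / n) * sg (u i) else 0) *
      (if i ∈ E then Real.sqrt (1 / n) * sg (v i) else 0) = 0 := by
    refine Finset.sum_eq_zero (fun i hi => ?_)
    rw [mem_filter] at hi
    simp [hi.2]
  rw [h1, add_zero, Finset.filter_mem_eq_inter, Finset.univ_inter]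
  refine Finset.sum_congr rfl (fun i hi => ?_)
  simp only [hi, if_true]
  calc (1 / n : ℝ) * (sg (u i) * sg (v i)) =
      (Real.sqrt (1 / n) * Real.sqrt (1 / n)) * (sg (u i) * sg (v i)) := by
        rw [Real.mul_self_sqrt h0]
    _ = _ := by ring

lemma abs_corr_le {n : ℕ} (E : Finset (Fin n)) (x y : Fin n → Bool) : |corr E x y| ≤ E.card := by
  unfold corr
  refine (Finset.abs_sum_le_sum_abs _ _).trans ?_
  rw [Finset.sum_congr rfl (fun i _ => by rw [abs_mul, abs_sg, abs_sg, mul_one])]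
  simp

lemma abs_ker_le {n : ℕ} (E : Finset (Fin n)) (x y : Fin n → Bool) : |ker E x y| ≤ 1 := by
  unfold ker
  rcases Nat.eq_zero_or_pos n with h | h
  · subst h; simp
  · have h1 := abs_corr_le E x y
    have h2 : (E.card : ℝ) ≤ n := by
      have := Finset.card_le_univ E
      rw [Fintype.card_fin] at this
      exact_mod_cast this
    have h3 : (0:ℝ) < n := by exact_mod_cast h
    rw [abs_mul, abs_of_nonneg (by positivity : (0:ℝ) ≤ 1 / n), one_div, inv_mul_le_iff₀ h3, mul_one]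
    linarith

theorem seq_exists (t : ℕ) : ∀ r : ℕ, ∃ A a : ℕ, ∀ m : ℕ, 1 ≤ m → ∀ n : ℕ, 1 ≤ n →
    ∀ cells : List (Finset (Fin n)), cells.length = r → ∀ W : Finset (Fin n → Bool),
    2 ^ (A * m ^ a) ≤ W.card →
    ∃ xs : List (Fin n → Bool), xs.length = t ∧ xs.Nodup ∧ (∀ x ∈ xs, x ∈ W) ∧
      ∀ E ∈ cells, PC ((1/2 : ℝ) ^ m * n) E xs := by
  induction t with
  | zero =>
    intro r
    exact ⟨0, 0, fun m _ n _ cells _ W _ => ⟨[], rfl, List.nodup_nil, by simp, fun E _ => trivial⟩⟩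
  | succ t ih =>
    intro r
    obtain ⟨A1, a1, h1⟩ := core_nbr r
    obtain ⟨A2, a2, h2⟩ := ih (2 * r)
    refine ⟨A1 + A2 + 1, a1 + a2, fun m hm n hn cells hcells W hW => ?_⟩
    have hcard : 2 ^ (A1 * m ^ a1) * (2 ^ (A2 * m ^ a2) + 1) ≤ W.card := by
      refine le_trans ?_ hW
      have e1 : 2 ^ (A2 * m ^ a2) + 1 ≤ 2 ^ (A2 * m ^ a2 + 1) := by
        rw [pow_succ]
        have : 1 ≤ 2 ^ (A2 * m ^ a2) := Nat.one_le_two_pow
        omega
      refine (Nat.mul_le_mul_left _ e1).trans ?_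
      rw [← pow_add]
      apply Nat.pow_le_pow_right (by norm_num)
      have p1 : m ^ a1 ≤ m ^ (a1 + a2) := Nat.pow_le_pow_right hm (by omega)
      have p2 : m ^ a2 ≤ m ^ (a1 + a2) := Nat.pow_le_pow_right hm (by omega)
      have p3 : 1 ≤ m ^ (a1 + a2) := Nat.one_le_pow _ _ hm
      calc A1 * m ^ a1 + (A2 * m ^ a2 + 1) ≤
          A1 * m ^ (a1 + a2) + (A2 * m ^ (a1 + a2) + 1 * m ^ (a1 + a2)) :=
            Nat.add_le_add (Nat.mul_le_mul_left _ p1) (Nat.add_le_add (Nat.mul_le_mul_left _ p2)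
              (by omega))
        _ = _ := by ring
    obtain ⟨u, huW, W', hW'W, huW', hW'card, hgood⟩ := h1 m hm (Fin n → Bool) W
      (cells.map ker) (by simpa using hcells)
      (fun p hp => by obtain ⟨E, _, rfl⟩ := List.mem_map.mp hp; exact ker_PD E)
      (fun p hp x _ y _ => by obtain ⟨E, _, rfl⟩ := List.mem_map.mp hp; exact abs_ker_le E x y)
      (2 ^ (A2 * m ^ a2)) hcard
    obtain ⟨xs, hlen, hnd, hmem, hPC⟩ := h2 m hm n hn
      (cells.flatMap (fun E => [E.filter (fun i => u i = true), E.filter (fun i => u i = false)]))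
      (by
        rw [List.length_flatMap]
        simp only [List.length_cons, List.length_nil]
        rw [List.map_const', List.sum_replicate, hcells]
        simp [mul_comm]) W' hW'card
    have hnpos : (0:ℝ) < n := by exact_mod_cast hn
    refine ⟨u :: xs, by simp [hlen], ?_, ?_, ?_⟩
    · rw [List.nodup_cons]
      exact ⟨fun h => huW' (hmem u h), hnd⟩
    · intro x hx
      rcases List.mem_cons.mp hx with rfl | hx
      · exact huW
      · exact hW'W (hmem x hx)
    · intro E hE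
      refine ⟨?_, ?_, ?_⟩
      · intro y hy
        have := hgood y (hmem y hy) (ker E) (List.mem_map.mpr ⟨E, hE, rfl⟩)
        unfold ker at this
        have h5 : (1 / n : ℝ) * corr E u y * n = corr E u y := by field_simp
        have h6 := mul_le_mul_of_nonneg_right this hnpos.le
        rw [h5] at h6
        linarith
      · exact hPC _ (List.mem_flatMap.mpr ⟨E, hE, by simp⟩)
      · exact hPC _ (List.mem_flatMap.mpr ⟨E, hE, by simp⟩)

/-- Average of `|c + w_1 ξ_1 + ... + w_t ξ_t|` over independent signs. -/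
noncomputable def Abar : List ℝ → ℝ → ℝ
  | [], c => |c|
  | w :: ws, c => (Abar ws (c + w) + Abar ws (c - w)) / 2

/-- First order coefficients. -/
noncomputable def Dco : List ℝ → ℕ → ℝ → ℝ
  | [], _, _ => 0
  | w :: ws, 0, c => (Abar ws (c + w) - Abar ws (c - w)) / 2
  | w :: ws, k + 1, c => (Dco ws k (c + w) + Dco ws k (c - w)) / 2

lemma Abar_lip (ws : List ℝ) : ∀ c c' : ℝ, Abar ws c' - Abar ws c ≤ |c' - c| := by
  induction ws with
  | nil => intro c c'; simp only [Abar]; exact abs_sub_abs_le_abs_sub c' c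
  | cons w ws ih =>
    intro c c'
    simp only [Abar]
    have h1 := ih (c + w) (c' + w)
    have h2 := ih (c - w) (c' - w)
    have e1 : (c' + w) - (c + w) = c' - c := by ring
    have e2 : (c' - w) - (c - w) = c' - c := by ring
    rw [e1] at h1; rw [e2] at h2
    linarith

lemma abs_four (c c' w : ℝ) (h : c ≤ c') (hw : 0 ≤ w) :
    |c + w| - |c - w| ≤ |c' + w| - |c' - w| := by
  rcases abs_cases (c + w) with ⟨h1, _⟩ | ⟨h1, _⟩ <;> rcases abs_cases (c - w) with ⟨h2, _⟩ | ⟨h2, _⟩ <;>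
    rcases abs_cases (c' + w) with ⟨h3, _⟩ | ⟨h3, _⟩ <;>
    rcases abs_cases (c' - w) with ⟨h4, _⟩ | ⟨h4, _⟩ <;> rw [h1, h2, h3, h4] <;> linarith

lemma Abar_four (ws : List ℝ) : ∀ c c' w : ℝ, c ≤ c' → 0 ≤ w →
    Abar ws (c + w) - Abar ws (c - w) ≤ Abar ws (c' + w) - Abar ws (c' - w) := by
  induction ws with
  | nil => intro c c' w h hw; exact abs_four c c' w h hw
  | cons v ws ih =>
    intro c c' w h hw
    simp only [Abar]
    have h1 := ih (c + v) (c' + v) w (by linarith) hw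
    have h2 := ih (c - v) (c' - v) w (by linarith) hw
    rw [show c + w + v = c + v + w by ring, show c + w - v = c - v + w by ring,
      show c - w + v = c + v - w by ring, show c - w - v = c - v - w by ring,
      show c' + w + v = c' + v + w by ring, show c' + w - v = c' - v + w by ring,
      show c' - w + v = c' + v - w by ring, show c' - w - v = c' - v - w by ring]
    linarith

lemma Dco_mono (ws : List ℝ) : (∀ w ∈ ws, 0 ≤ w) → ∀ (k : ℕ) (c c' : ℝ), c ≤ c' →
    Dco ws k c ≤ Dco ws k c' := by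
  induction ws with
  | nil => intro _ k c c' _; simp [Dco]
  | cons w ws ih =>
    intro hw k c c' h
    cases k with
    | zero =>
      simp only [Dco]
      have := Abar_four ws c c' w h (hw w List.mem_cons_self)
      linarith
    | succ k =>
      simp only [Dco]
      have h1 := ih (fun v hv => hw v (List.mem_cons_of_mem _ hv)) k (c + w) (c' + w) (by linarith)
      have h2 := ih (fun v hv => hw v (List.mem_cons_of_mem _ hv)) k (c - w) (c' - w) (by linarith)
      linarith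

lemma Dco_abs (ws : List ℝ) : (∀ w ∈ ws, 0 ≤ w ∧ w ≤ 1) → ∀ (k : ℕ) (c : ℝ), |Dco ws k c| ≤ 1 := by
  induction ws with
  | nil => intro _ k c; simp [Dco]
  | cons w ws ih =>
    intro hw k c
    cases k with
    | zero =>
      simp only [Dco]
      have hw' := hw w List.mem_cons_self
      have h1 := Abar_lip ws (c - w) (c + w)
      have h2 := Abar_lip ws (c + w) (c - w)
      have e1 : |c + w - (c - w)| = 2 * w := by
        rw [show c + w - (c - w) = 2 * w by ring, abs_of_nonneg (by linarith)]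
      have e2 : |c - w - (c + w)| = 2 * w := by
        rw [show c - w - (c + w) = -(2 * w) by ring, abs_neg, abs_of_nonneg (by linarith)]
      rw [e1] at h1; rw [e2] at h2
      rw [abs_le]; constructor <;> linarith
    | succ k =>
      simp only [Dco]
      have h1 := abs_le.mp (ih (fun v hv => hw v (List.mem_cons_of_mem _ hv)) k (c + w))
      have h2 := abs_le.mp (ih (fun v hv => hw v (List.mem_cons_of_mem _ hv)) k (c - w))
      rw [abs_le]; constructor <;> linarith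

lemma Abar_even (ws : List ℝ) : ∀ c : ℝ, Abar ws (-c) = Abar ws c := by
  induction ws with
  | nil => intro c; simp [Abar]
  | cons w ws ih =>
    intro c
    simp only [Abar]
    rw [show -c + w = -(c - w) by ring, show -c - w = -(c + w) by ring, ih, ih]
    ring

lemma Dco_odd (ws : List ℝ) : ∀ (k : ℕ) (c : ℝ), Dco ws k (-c) = - Dco ws k c := by
  induction ws with
  | nil => intro k c; simp [Dco]
  | cons w ws ih =>
    intro k c
    cases k with
    | zero =>
      simp only [Dco]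
      rw [show -c + w = -(c - w) by ring, show -c - w = -(c + w) by ring, Abar_even, Abar_even]
      ring
    | succ k =>
      simp only [Dco]
      rw [show -c + w = -(c - w) by ring, show -c - w = -(c + w) by ring, ih, ih]
      ring

lemma Dco_zero (ws : List ℝ) (k : ℕ) : Dco ws k 0 = 0 := by
  have := Dco_odd ws k 0
  rw [neg_zero] at this
  linarith

/-- `∑_k w_k x_k(i)`. -/
def lin {n : ℕ} : List ℝ → List (Fin n → Bool) → Fin n → ℝ
  | w :: ws, x :: xs, i => w * sg (x i) + lin ws xs i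
  | _, _, _ => 0

/-- bias sum -/
noncomputable def bs {n : ℕ} (E : Finset (Fin n)) : List (Fin n → Bool) → (ℕ → ℝ) → ℝ
  | [], _ => 0
  | x :: xs, f => f 0 * ∑ i ∈ E, sg (x i) + bs E xs (fun k => f (k + 1))

lemma bs_zero {n : ℕ} (E : Finset (Fin n)) (xs : List (Fin n → Bool)) :
    bs E xs (fun _ => 0) = 0 := by
  induction xs with
  | nil => rfl
  | cons x xs ih => simp [bs, ih]

lemma split_sum {n : ℕ} (E : Finset (Fin n)) (x : Fin n → Bool) (g : Fin n → ℝ) :
    ∑ i ∈ E, g i = ∑ i ∈ E.filter (fun i => x i = true), g i +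
      ∑ i ∈ E.filter (fun i => x i = false), g i := by
  rw [← Finset.sum_filter_add_sum_filter_not E (fun i => x i = true)]
  congr 1
  refine Finset.sum_congr ?_ (fun _ _ => rfl)
  ext i; simp

lemma corr_split {n : ℕ} (E : Finset (Fin n)) (x y : Fin n → Bool) :
    corr E x y = ∑ i ∈ E.filter (fun i => x i = true), sg (y i) -
      ∑ i ∈ E.filter (fun i => x i = false), sg (y i) := by
  unfold corr
  rw [split_sum E x]
  have h1 : ∑ i ∈ E.filter (fun i => x i = true), sg (x i) * sg (y i) =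
      ∑ i ∈ E.filter (fun i => x i = true), sg (y i) :=
    Finset.sum_congr rfl (fun i hi => by simp [(mem_filter.mp hi).2, sg])
  have h2 : ∑ i ∈ E.filter (fun i => x i = false), sg (x i) * sg (y i) =
      - ∑ i ∈ E.filter (fun i => x i = false), sg (y i) := by
    rw [← Finset.sum_neg_distrib]
    exact Finset.sum_congr rfl (fun i hi => by
      rw [(mem_filter.mp hi).2]; simp only [sg, Bool.false_eq_true, if_false]; ring)
  rw [h1, h2]; ring

lemma bs_split {n : ℕ} (D : ℝ) (E : Finset (Fin n)) (x : Fin n → Bool) (xs : List (Fin n → Bool)) :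
    ∀ f g : ℕ → ℝ, (∀ k, g k ≤ f k) → (∀ k, f k ≤ 1) → (∀ k, -1 ≤ g k) → 0 ≤ D →
    (∀ y ∈ xs, -D ≤ corr E x y) →
    bs E xs (fun k => (f k + g k) / 2) - xs.length * D ≤
      bs (E.filter (fun i => x i = true)) xs f + bs (E.filter (fun i => x i = false)) xs g := by
  induction xs with
  | nil => intro f g _ _ _ _ _; simp [bs]
  | cons y xs ih =>
    intro f g hfg hf hg hD hc
    have h1 := ih (fun k => f (k + 1)) (fun k => g (k + 1)) (fun k => hfg _) (fun k => hf _)
      (fun k => hg _) hD (fun z hz => hc z (List.mem_cons_of_mem _ hz))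
    have h2 := hc y List.mem_cons_self
    rw [corr_split] at h2
    simp only [bs, List.length_cons]
    rw [split_sum E x (fun i => sg (y i))]
    set P := ∑ i ∈ E.filter (fun i => x i = true), sg (y i)
    set N := ∑ i ∈ E.filter (fun i => x i = false), sg (y i)
    have h3 : -D ≤ (f 0 - g 0) / 2 * (P - N) := by
      have a1 : 0 ≤ (f 0 - g 0) / 2 := by linarith [hfg 0]
      have a2 : (f 0 - g 0) / 2 ≤ 1 := by linarith [hf 0, hg 0]
      nlinarith
    push_cast
    have h4 : f 0 * P + g 0 * N = (f 0 + g 0) / 2 * (P + N) + (f 0 - g 0) / 2 * (P - N) := by ring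
    linarith

/-- Error constants. -/
def Kc : ℕ → ℕ
  | 0 => 0
  | t + 1 => 2 * Kc t + t

theorem main_ineq {n : ℕ} (D : ℝ) (hD : 0 ≤ D) : ∀ (xs : List (Fin n → Bool)) (ws : List ℝ)
    (E : Finset (Fin n)) (c : ℝ), ws.length = xs.length → (∀ w ∈ ws, 0 ≤ w ∧ w ≤ 1) → PC D E xs →
    E.card * Abar ws c + bs E xs (fun k => Dco ws k c) - Kc xs.length * D ≤
      ∑ i ∈ E, |c + lin ws xs i| := by
  intro xs
  induction xs with
  | nil =>
    intro ws E c hlen hw _
    have : ws = [] := List.length_eq_zero_iff.mp hlen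
    subst this
    simp [Abar, bs, Kc, lin]
  | cons x xs ih =>
    intro ws E c hlen hw hPC
    obtain _ | ⟨w, ws⟩ := ws
    · simp at hlen
    have hlen' : ws.length = xs.length := by simpa using hlen
    have hws : ∀ v ∈ ws, 0 ≤ v ∧ v ≤ 1 := fun v hv => hw v (List.mem_cons_of_mem _ hv)
    obtain ⟨hc, hP1, hP2⟩ := hPC
    have h1 := ih ws (E.filter (fun i => x i = true)) (c + w) hlen' hws hP1
    have h2 := ih ws (E.filter (fun i => x i = false)) (c - w) hlen' hws hP2
    have h3 := bs_split D E x xs (fun k => Dco ws k (c + w)) (fun k => Dco ws k (c - w))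
      (fun k => Dco_mono ws (fun v hv => (hws v hv).1) k _ _ (by linarith [(hw w List.mem_cons_self).1]))
      (fun k => (abs_le.mp (Dco_abs ws hws k _)).2) (fun k => (abs_le.mp (Dco_abs ws hws k _)).1) hD hc
    have e1 : ∑ i ∈ E, |c + lin (w :: ws) (x :: xs) i| =
        ∑ i ∈ E.filter (fun i => x i = true), |c + w + lin ws xs i| +
        ∑ i ∈ E.filter (fun i => x i = false), |c - w + lin ws xs i| := by
      rw [split_sum E x]
      congr 1
      · refine Finset.sum_congr rfl (fun i hi => ?_)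
        rw [lin, (mem_filter.mp hi).2]; simp only [sg, if_true]; congr 1; ring
      · refine Finset.sum_congr rfl (fun i hi => ?_)
        rw [lin, (mem_filter.mp hi).2]
        simp only [sg, Bool.false_eq_true, if_false]; congr 1; ring
    rw [e1]
    have e2 : (E.card : ℝ) = (E.filter (fun i => x i = true)).card +
        (E.filter (fun i => x i = false)).card := by
      have := split_sum E x (fun _ => (1:ℝ))
      simpa using this
    have e3 : ∑ i ∈ E, sg (x i) = (E.filter (fun i => x i = true)).card -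
        (E.filter (fun i => x i = false)).card := by
      rw [split_sum E x]
      have a1 : ∑ i ∈ E.filter (fun i => x i = true), sg (x i) =
          (E.filter (fun i => x i = true)).card := by
        rw [Finset.sum_congr rfl (fun i hi => by rw [(mem_filter.mp hi).2])]
        simp [sg]
      have a2 : ∑ i ∈ E.filter (fun i => x i = false), sg (x i) =
          - (E.filter (fun i => x i = false)).card := by
        rw [Finset.sum_congr rfl (fun i hi => by rw [(mem_filter.mp hi).2])]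
        simp [sg]
      rw [a1, a2]; ring
    have e4 : bs E (x :: xs) (fun k => Dco (w :: ws) k c) =
        (Abar ws (c + w) - Abar ws (c - w)) / 2 * ∑ i ∈ E, sg (x i) +
        bs E xs (fun k => (Dco ws k (c + w) + Dco ws k (c - w)) / 2) := by
      simp [bs, Dco]
    rw [e4, e3, e2]
    simp only [Abar, List.length_cons, Kc]
    push_cast
    have e5 : ((E.filter (fun i => x i = true)).card : ℝ) * Abar ws (c + w) +
        (E.filter (fun i => x i = false)).card * Abar ws (c - w) =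
        (((E.filter (fun i => x i = true)).card : ℝ) + (E.filter (fun i => x i = false)).card) *
          ((Abar ws (c + w) + Abar ws (c - w)) / 2) +
        (Abar ws (c + w) - Abar ws (c - w)) / 2 * (((E.filter (fun i => x i = true)).card : ℝ) -
          (E.filter (fun i => x i = false)).card) := by ring
    linarith

/-- Expected sign of `s` plus `t` independent signs. -/
noncomputable def aa : ℕ → ℤ → ℝ
  | 0, s => (Int.sign s : ℝ)
  | t + 1, s => (aa t (s + 1) + aa t (s - 1)) / 2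

noncomputable def bb : ℕ → ℤ → ℝ
  | 0, _ => 0
  | t + 1, s => (aa t (s + 1) - aa t (s - 1)) / 2

lemma bb_avg (t : ℕ) (s : ℤ) : (bb (t + 1) (s + 1) + bb (t + 1) (s - 1)) / 2 = bb (t + 2) s := by
  simp only [bb, aa]
  rw [show s + 1 + 1 = s + 2 by ring, show s + 1 - 1 = s by ring, show s - 1 + 1 = s by ring,
    show s - 1 - 1 = s - 2 by ring]
  ring

lemma Abar_lower (ws : List ℝ) : ∀ (c : ℝ) (s : ℤ),
    aa ws.length s * c + bb ws.length s * ws.sum ≤ Abar ws c := by
  induction ws with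
  | nil =>
    intro c s
    simp only [List.length_nil, aa, bb, List.sum_nil, Abar]
    have h1 : |(Int.sign s : ℝ)| ≤ 1 := by
      rcases lt_trichotomy s 0 with h | h | h
      · rw [Int.sign_eq_neg_one_of_neg h]; simp
      · rw [h]; simp
      · rw [Int.sign_eq_one_of_pos h]; simp
    have h2 : (Int.sign s : ℝ) * c ≤ |(Int.sign s : ℝ)| * |c| := by
      rw [← abs_mul]; exact le_abs_self _
    have h3 : |(Int.sign s : ℝ)| * |c| ≤ 1 * |c| := mul_le_mul_of_nonneg_right h1 (abs_nonneg _)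
    linarith
  | cons w ws ih =>
    intro c s
    have h1 := ih (c + w) (s + 1)
    have h2 := ih (c - w) (s - 1)
    simp only [List.length_cons, List.sum_cons, Abar]
    have h3 : (bb ws.length (s + 1) + bb ws.length (s - 1)) / 2 * ws.sum =
        bb (ws.length + 1) s * ws.sum := by
      cases ws with
      | nil => simp
      | cons v vs =>
        rw [List.length_cons, bb_avg]
    have h4 : aa (ws.length + 1) s = (aa ws.length (s + 1) + aa ws.length (s - 1)) / 2 := rfl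
    have h5 : bb (ws.length + 1) s * w = (aa ws.length (s + 1) - aa ws.length (s - 1)) / 2 * w := rfl
    rw [mul_add, ← h3, h4, h5]
    linarith

lemma aa_closed (t : ℕ) : ∀ s : ℤ, aa t s =
    (∑ i ∈ Finset.range (t + 1), (t.choose i : ℝ) * (Int.sign (s + t - 2 * i) : ℝ)) / 2 ^ t := by
  induction t with
  | zero => intro s; simp [aa]
  | succ t ih =>
    intro s
    rw [aa, ih, ih]
    have h := Finset.sum_choose_succ_mul (R := ℝ)
      (fun i _ => (Int.sign (s + (t + 1 : ℕ) - 2 * i) : ℝ)) t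
    rw [show t + 1 + 1 = t + 2 by rfl, h]
    have e1 : ∑ i ∈ Finset.range (t + 1), (t.choose i : ℝ) * (Int.sign (s + 1 + t - 2 * i) : ℝ) =
        ∑ i ∈ Finset.range (t + 1), (t.choose i : ℝ) * (Int.sign (s + (t + 1 : ℕ) - 2 * i) : ℝ) := by
      refine Finset.sum_congr rfl (fun i _ => ?_)
      rw [show s + 1 + (t : ℤ) - 2 * i = s + ((t + 1 : ℕ) : ℤ) - 2 * i by push_cast; ring]
    have e2 : ∑ i ∈ Finset.range (t + 1), (t.choose i : ℝ) * (Int.sign (s - 1 + t - 2 * i) : ℝ) =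
        ∑ i ∈ Finset.range (t + 1), (t.choose i : ℝ) *
          (Int.sign (s + (t + 1 : ℕ) - 2 * ((i + 1 : ℕ) : ℤ)) : ℝ) := by
      refine Finset.sum_congr rfl (fun i _ => ?_)
      rw [show s - 1 + (t : ℤ) - 2 * i = s + ((t + 1 : ℕ) : ℤ) - 2 * ((i + 1 : ℕ) : ℤ) by
        push_cast; ring]
    rw [e1, e2, pow_succ]
    field_simp

/-- The constant `C(2k,k)/4^k`. -/
noncomputable def kap (k : ℕ) : ℝ := (Nat.choose (2 * k) k : ℝ) / 2 ^ (2 * k)

lemma bb_val (k : ℕ) : bb (2 * k + 1) 0 = kap k := by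
  rw [bb, aa_closed, aa_closed, ← sub_div, ← Finset.sum_sub_distrib, kap, div_div, mul_comm ((2:ℝ) ^ (2 * k)) 2,
    ← div_div]
  congr 1
  rw [Finset.sum_eq_single k]
  · rw [show (0 + 1 + ((2 * k : ℕ) : ℤ) - 2 * (k : ℤ)) = 1 by push_cast; ring,
      show (0 - 1 + ((2 * k : ℕ) : ℤ) - 2 * (k : ℤ)) = -1 by push_cast; ring]
    norm_num
  · intro i _ hik
    rcases lt_or_gt_of_ne hik with h | h
    · rw [Int.sign_eq_one_of_pos (by push_cast; omega), Int.sign_eq_one_of_pos (by push_cast; omega)]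
      ring
    · rw [Int.sign_eq_neg_one_of_neg (by push_cast; omega),
        Int.sign_eq_neg_one_of_neg (by push_cast; omega)]
      ring
  · intro h
    exact absurd (Finset.mem_range.mpr (by omega)) h

lemma kap_nonneg (k : ℕ) : 0 ≤ kap k := by unfold kap; positivity

lemma kap_le_half (k : ℕ) (hk : 1 ≤ k) : kap k ≤ 1 / 2 := by
  obtain ⟨j, rfl⟩ : ∃ j, k = j + 1 := ⟨k - 1, by omega⟩
  have h1 : Nat.choose (2 * (j + 1)) (j + 1) ≤ 2 ^ (2 * j + 1) := by
    rw [show 2 * (j + 1) = (2 * j + 1) + 1 by ring, Nat.choose_succ_succ, ← Nat.sum_range_choose]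
    have h2 : ∑ i ∈ ({j, j + 1} : Finset ℕ), (2 * j + 1).choose i ≤
        ∑ i ∈ Finset.range (2 * j + 1 + 1), (2 * j + 1).choose i := by
      apply Finset.sum_le_sum_of_subset
      intro i hi
      simp only [Finset.mem_insert, Finset.mem_singleton] at hi
      rw [Finset.mem_range]
      omega
    rwa [Finset.sum_pair (by omega)] at h2
  unfold kap
  rw [div_le_div_iff₀ (by positivity) (by norm_num)]
  have h3 : ((Nat.choose (2 * (j + 1)) (j + 1) : ℕ) : ℝ) ≤ 2 ^ (2 * j + 1) := by exact_mod_cast h1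
  have h4 : (2:ℝ) ^ (2 * (j + 1)) = 2 ^ (2 * j + 1) * 2 := by ring
  rw [h4]
  linarith

lemma lin_ofFn {n : ℕ} : ∀ (L : ℕ) (w : Fin L → ℝ) (X : Fin L → Fin n → Bool) (i : Fin n),
    lin (List.ofFn w) (List.ofFn X) i = ∑ k, w k * sg (X k i) := by
  intro L
  induction L with
  | zero => intro w X i; simp [lin]
  | succ L ih =>
    intro w X i
    rw [List.ofFn_succ, List.ofFn_succ, lin, ih, Fin.sum_univ_succ]

/-- Minimax: if every weighting has a good centre then there is a good fractional centre. -/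
lemma duality {n L : ℕ} (X : Fin L → Fin n → Bool) (v : ℝ)
    (h : ∀ w : Fin L → ℝ, (∀ k, 0 ≤ w k) → ∑ k, w k = 1 →
      v ≤ ∑ i, |∑ k, w k * sg (X k i)|) :
    ∃ z : Fin n → ℝ, (∀ i, |z i| ≤ 1) ∧ ∀ k, v ≤ ∑ i, sg (X k i) * z i := by
  set Φ : (Fin n → ℝ) →ₗ[ℝ] (Fin L → ℝ) :=
    { toFun := fun z k => ∑ i, sg (X k i) * z i
      map_add' := fun a b => by
        ext k; simp [mul_add, Finset.sum_add_distrib]
      map_smul' := fun c a => by
        ext k; simp only [Pi.smul_apply, smul_eq_mul, RingHom.id_apply, Finset.mul_sum]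
        exact Finset.sum_congr rfl (fun i _ => by ring) } with hΦ
  have hΦa : ∀ z k, Φ z k = ∑ i, sg (X k i) * z i := fun z k => rfl
  set Q : Set (Fin L → ℝ) := {y | ∀ k, v ≤ y k} with hQ
  set S : Set (Fin L → ℝ) := Φ '' (Metric.closedBall (0 : Fin n → ℝ) 1) with hS
  by_contra hcon
  push Not at hcon
  have hdisj : Disjoint S Q := by
    rw [Set.disjoint_left]
    rintro y ⟨z, hz, rfl⟩ hy
    rw [mem_closedBall_zero_iff] at hz
    obtain ⟨k, hk⟩ := hcon z (fun i => by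
      have := norm_le_pi_norm z i
      rw [Real.norm_eq_abs] at this
      linarith)
    have := hy k
    rw [hΦa] at this
    linarith
  have hScon : Convex ℝ S := (convex_closedBall _ _).linear_image Φ
  have hScomp : IsCompact S :=
    (isCompact_closedBall _ _).image (LinearMap.continuous_of_finiteDimensional Φ)
  have hQcon : Convex ℝ Q := by
    intro x hx y hy a b ha hb hab k
    have h1 := hx k
    have h2 := hy k
    simp only [Pi.add_apply, Pi.smul_apply, smul_eq_mul]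
    calc v = (a + b) * v := by rw [hab, one_mul]
      _ = a * v + b * v := by ring
      _ ≤ a * x k + b * y k := add_le_add (mul_le_mul_of_nonneg_left h1 ha)
          (mul_le_mul_of_nonneg_left h2 hb)
  have hQclosed : IsClosed Q := by
    have : Q = ⋂ k, {y : Fin L → ℝ | v ≤ y k} := by
      ext y; simp [hQ]
    rw [this]
    exact isClosed_iInter (fun k => isClosed_le continuous_const (continuous_apply k))
  obtain ⟨f, u, u', hf1, huu, hf2⟩ :=
    geometric_hahn_banach_compact_closed hScon hScomp hQcon hQclosed hdisj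
  set a : Fin L → ℝ := fun k => f (Pi.single k 1) with ha
  have hfa : ∀ y : Fin L → ℝ, f y = ∑ k, y k * a k := by
    intro y
    have : y = ∑ k, y k • (Pi.single k (1:ℝ) : Fin L → ℝ) := by
      ext j; simp [Finset.sum_apply, Pi.single_apply]
    conv_lhs => rw [this]
    rw [map_sum]
    exact Finset.sum_congr rfl (fun k _ => by rw [map_smul, smul_eq_mul])
  have hann : ∀ k, 0 ≤ a k := by
    intro k
    by_contra hk
    push Not at hk
    -- the point v·1 + s e_k
    set c := ∑ j, v * a j with hc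
    have key : ∀ s : ℝ, 0 ≤ s → u' < c + s * a k := by
      intro s hs
      have h1 : (fun j => v + s * (Pi.single k (1:ℝ) : Fin L → ℝ) j) ∈ Q := by
        intro j
        have : 0 ≤ s * (Pi.single k (1:ℝ) : Fin L → ℝ) j := by
          refine mul_nonneg hs ?_
          rw [Pi.single_apply]; split_ifs <;> norm_num
        simp only; linarith
      have h2 := hf2 _ h1
      rw [hfa] at h2
      have h3 : ∑ j, (v + s * (Pi.single k (1:ℝ) : Fin L → ℝ) j) * a j = c + s * a k := by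
        simp only [add_mul, Finset.sum_add_distrib, Pi.single_apply, mul_ite, mul_one, mul_zero,
          ite_mul, zero_mul, Finset.sum_ite_eq', Finset.mem_univ, if_true]
        rw [hc]
      rw [h3] at h2
      exact h2
    have h4 := key (|c - u'| / (-a k)) (by
      apply div_nonneg (abs_nonneg _); linarith)
    have h5 : |c - u'| / (-a k) * a k = -|c - u'| := by
      have hk' : a k ≠ 0 := hk.ne
      rw [div_neg, neg_mul, div_mul_cancel₀ _ hk']
    rw [h5] at h4
    have := le_abs_self (c - u')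
    linarith
  have hv1 : ∑ k, v * a k > u' := by
    have h1 : (fun _ => v : Fin L → ℝ) ∈ Q := fun k => le_rfl
    have := hf2 _ h1
    rw [hfa] at this
    exact this
  have h0u : 0 < u := by
    have h1 : (0 : Fin L → ℝ) ∈ S := ⟨0, by simp, by simp⟩
    have := hf1 _ h1
    rwa [map_zero] at this
  set F := ∑ k, a k with hF
  have hFv : v * F > u' := by rw [hF, Finset.mul_sum]; exact hv1
  have hF0 : 0 ≤ F := Finset.sum_nonneg (fun k _ => hann k)
  have hFpos : 0 < F := by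
    rcases hF0.lt_or_eq with h1 | h1
    · exact h1
    · rw [← h1] at hFv; linarith
  have hw := h (fun k => a k / F) (fun k => div_nonneg (hann k) hF0) (by
    rw [← Finset.sum_div]; exact div_self hFpos.ne')
  -- the optimal centre
  set z : Fin n → ℝ := fun i => if 0 ≤ ∑ k, a k * sg (X k i) then 1 else -1 with hz
  have hzmem : z ∈ Metric.closedBall (0 : Fin n → ℝ) 1 := by
    rw [mem_closedBall_zero_iff, pi_norm_le_iff_of_nonneg zero_le_one]
    intro i
    rw [hz]; simp only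
    split_ifs <;> simp
  have h6 := hf1 _ ⟨z, hzmem, rfl⟩
  rw [hfa] at h6
  have h7 : ∑ k, Φ z k * a k = ∑ i, |∑ k, a k * sg (X k i)| := by
    simp only [hΦa, Finset.sum_mul]
    rw [Finset.sum_comm]
    refine Finset.sum_congr rfl (fun i _ => ?_)
    have e1 : ∑ k, sg (X k i) * z i * a k = z i * ∑ k, a k * sg (X k i) := by
      rw [Finset.mul_sum]; exact Finset.sum_congr rfl (fun k _ => by ring)
    rw [e1, hz]; simp only
    split_ifs with hp
    · rw [abs_of_nonneg hp, one_mul]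
    · rw [abs_of_neg (by linarith)]; ring
  have h8 : ∑ i, |∑ k, a k / F * sg (X k i)| = (∑ i, |∑ k, a k * sg (X k i)|) / F := by
    rw [Finset.sum_div]
    refine Finset.sum_congr rfl (fun i _ => ?_)
    rw [← abs_of_pos hFpos, ← abs_div, abs_of_pos hFpos, Finset.sum_div]
    congr 1
    exact Finset.sum_congr rfl (fun k _ => by ring)
  rw [h8, le_div_iff₀ hFpos] at hw
  rw [h7] at h6
  linarith

/-- Rounding on one class. -/
lemma round_class {n : ℕ} (C : Finset (Fin n)) (z : Fin n → ℝ) (hz : ∀ i, |z i| ≤ 1) :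
    ∃ P ⊆ C, |(2 * (P.card : ℝ) - C.card) - ∑ i ∈ C, z i| ≤ 2 := by
  set s := ∑ i ∈ C, z i with hs
  have h1 : |s| ≤ C.card := by
    refine (Finset.abs_sum_le_sum_abs _ _).trans ?_
    refine (Finset.sum_le_sum (fun i _ => hz i)).trans ?_
    simp
  have h2 := abs_le.mp h1
  have h3 : 0 ≤ (C.card + s) / 2 := by linarith
  have h4 : ⌊(C.card + s) / 2⌋₊ ≤ C.card := by
    have : ((⌊(C.card + s) / 2⌋₊ : ℕ) : ℝ) ≤ C.card := by
      refine (Nat.floor_le h3).trans (by linarith)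
    exact_mod_cast this
  obtain ⟨P, hP, hPc⟩ := Finset.exists_subset_card_eq h4
  refine ⟨P, hP, ?_⟩
  rw [hPc]
  have h5 := Nat.floor_le h3
  have h6 := Nat.lt_floor_add_one ((C.card + s) / 2)
  rw [abs_le]; constructor <;> linarith

lemma rounding {n L : ℕ} (X : Fin L → Fin n → Bool) (z : Fin n → ℝ) (hz : ∀ i, |z i| ≤ 1) :
    ∃ y : Fin n → Bool, ∀ k, ∑ i, sg (X k i) * z i - 2 * 2 ^ L ≤ ∑ i, sg (X k i) * sg (y i) := by
  classical
  have hcl := fun τ : Fin L → Bool =>
    round_class (Finset.univ.filter (fun i => (fun k => X k i) = τ)) z hz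
  choose P hP hPb using hcl
  refine ⟨fun i => decide (i ∈ P (fun k => X k i)), fun k => ?_⟩
  have h1 : ∑ i, sg (X k i) * (sg (decide (i ∈ P (fun k => X k i))) - z i) =
      ∑ τ : Fin L → Bool, sg (τ k) * ∑ i ∈ Finset.univ.filter (fun i => (fun k => X k i) = τ),
        (sg (decide (i ∈ P τ)) - z i) := by
    rw [← Finset.sum_fiberwise (s := Finset.univ) (g := fun i => fun k => X k i)]
    refine Finset.sum_congr rfl (fun τ _ => ?_)
    rw [Finset.mul_sum]
    refine Finset.sum_congr rfl (fun i hi => ?_)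
    have := (mem_filter.mp hi).2
    rw [this]
    rw [show X k i = τ k from congrFun this k]
  have h2 : ∀ τ : Fin L → Bool, |∑ i ∈ Finset.univ.filter (fun i => (fun k => X k i) = τ),
        (sg (decide (i ∈ P τ)) - z i)| ≤ 2 := by
    intro τ
    rw [Finset.sum_sub_distrib]
    have e : ∑ i ∈ Finset.univ.filter (fun i => (fun k => X k i) = τ), sg (decide (i ∈ P τ)) =
        2 * ((P τ).card : ℝ) - (Finset.univ.filter (fun i => (fun k => X k i) = τ)).card := by
      have e1 : ∀ i, sg (decide (i ∈ P τ)) = 2 * (if i ∈ P τ then 1 else 0) - 1 := by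
        intro i; by_cases hi : i ∈ P τ <;> simp [sg, hi]; norm_num
      simp only [e1]
      rw [Finset.sum_sub_distrib, ← Finset.mul_sum, Finset.sum_ite_mem,
        Finset.inter_eq_right.mpr (hP τ)]
      simp
    rw [e]
    exact hPb τ
  have h3 : |∑ i, sg (X k i) * (sg (decide (i ∈ P (fun k => X k i))) - z i)| ≤ 2 * 2 ^ L := by
    rw [h1]
    refine (Finset.abs_sum_le_sum_abs _ _).trans ?_
    calc _ ≤ ∑ τ : Fin L → Bool, (2:ℝ) := Finset.sum_le_sum (fun τ _ => by
          rw [abs_mul, abs_sg, one_mul]; exact h2 τ)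
      _ = _ := by simp [mul_comm]
  have h4 := (abs_le.mp h3).1
  simp only [mul_sub, Finset.sum_sub_distrib] at h4
  linarith

lemma hd_eq {n : ℕ} (x y : Fin n → Bool) :
    ∑ i, sg (x i) * sg (y i) = (n : ℝ) - 2 * (hammingDist x y : ℝ) := by
  have h1 : ∀ i, sg (x i) * sg (y i) = 1 - 2 * (if x i ≠ y i then (1:ℝ) else 0) := by
    intro i
    cases x i <;> cases y i <;> norm_num [sg]
  simp only [h1]
  rw [Finset.sum_sub_distrib, ← Finset.mul_sum, Finset.sum_boole]
  simp [hammingDist]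

theorem comb (k : ℕ) (hk : 1 ≤ k) : ∃ A a : ℕ, ∀ m : ℕ, 1 ≤ m → ∀ n : ℕ, 1 ≤ n →
    ∀ (W : Finset (Fin n → Bool)) (E : Finset (Fin n)),
    (∀ x ∈ W, ∀ y ∈ W, ∀ i ∉ E, x i = y i) → (E.card : ℝ) + 4 * 2 ^ (2 * k + 1) = n →
    2 ^ (A * m ^ a) ≤ W.card →
    ∃ T ⊆ W, T.card = 2 * k + 1 ∧ ∃ y : Fin n → Bool, ∀ x ∈ T,
      (n : ℝ) * kap k - Kc (2 * k + 1) * ((1/2 : ℝ) ^ m * n) ≤ ∑ i, sg (x i) * sg (y i) := by
  classical
  obtain ⟨A, a, h⟩ := seq_exists (2 * k + 1) 1
  refine ⟨A, a, fun m hm n hn W E hagree hE hW => ?_⟩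
  obtain ⟨xs, hlen, hnd, hmem, hPC⟩ := h m hm n hn [E] rfl W hW
  have hPCE := hPC E (by simp)
  have hxs0 : 0 < xs.length := by omega
  set D : ℝ := (1/2 : ℝ) ^ m * n with hD
  have hD0 : 0 ≤ D := by positivity
  set X : Fin xs.length → Fin n → Bool := xs.get with hX
  have hXW : ∀ j, X j ∈ W := fun j => hmem _ (List.get_mem _ _)
  have hkey : ∀ w : Fin xs.length → ℝ, (∀ j, 0 ≤ w j) → ∑ j, w j = 1 →
      4 * 2 ^ (2 * k + 1) + (E.card : ℝ) * kap k - Kc (2 * k + 1) * D ≤
        ∑ i, |∑ j, w j * sg (X j i)| := by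
    intro w hw hw1
    have hwle : ∀ j, w j ≤ 1 := fun j => by
      rw [← hw1]; exact Finset.single_le_sum (fun i _ => hw i) (Finset.mem_univ j)
    have h1 := main_ineq D hD0 xs (List.ofFn w) E 0 (by simp)
      (fun v hv => by
        rw [List.mem_ofFn] at hv
        obtain ⟨j, rfl⟩ := hv
        exact ⟨hw j, hwle j⟩) hPCE
    have h2 : (fun k => Dco (List.ofFn w) k 0) = fun _ => 0 := funext (fun k => Dco_zero _ k)
    rw [h2, bs_zero, add_zero] at h1
    have h3 := Abar_lower (List.ofFn w) 0 0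
    have hb : bb (List.ofFn w).length 0 = kap k := by rw [List.length_ofFn, hlen, bb_val]
    rw [hb, List.sum_ofFn, hw1, mul_zero, zero_add, mul_one] at h3
    have h4 : (E.card : ℝ) * kap k ≤ E.card * Abar (List.ofFn w) 0 :=
      mul_le_mul_of_nonneg_left h3 (by positivity)
    have h5 : ∑ i ∈ E, |0 + lin (List.ofFn w) xs i| = ∑ i ∈ E, |∑ j, w j * sg (X j i)| := by
      refine Finset.sum_congr rfl (fun i _ => ?_)
      rw [zero_add]
      congr 1
      have h8 := lin_ofFn xs.length w X i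
      rw [hX, List.ofFn_get] at h8
      exact h8
    have h6 : ∑ i ∈ Eᶜ, |∑ j, w j * sg (X j i)| = 4 * 2 ^ (2 * k + 1) := by
      have h7 : ∀ i ∈ Eᶜ, |∑ j, w j * sg (X j i)| = 1 := by
        intro i hi
        rw [Finset.mem_compl] at hi
        have : ∑ j, w j * sg (X j i) = ∑ j, w j * sg (X ⟨0, hxs0⟩ i) :=
          Finset.sum_congr rfl (fun j _ => by rw [hagree (X j) (hXW j) (X ⟨0, hxs0⟩) (hXW _) i hi])
        rw [this, ← Finset.sum_mul, hw1, one_mul, abs_sg]
      rw [Finset.sum_congr rfl h7, Finset.sum_const, nsmul_eq_mul, mul_one, Finset.card_compl,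
        Fintype.card_fin, Nat.cast_sub (by
          have := Finset.card_le_univ E
          rwa [Fintype.card_fin] at this)]
      linarith
    rw [← Finset.sum_add_sum_compl E, h6, ← h5]
    have hKc : (Kc xs.length : ℝ) = Kc (2 * k + 1) := by rw [hlen]
    rw [hKc] at h1
    linarith
  obtain ⟨z, hz, hzv⟩ := duality X _ hkey
  obtain ⟨y, hy⟩ := rounding X z hz
  refine ⟨Finset.univ.image X, ?_, ?_, y, ?_⟩
  · intro x hx
    obtain ⟨j, _, rfl⟩ := Finset.mem_image.mp hx
    exact hXW j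
  · rw [Finset.card_image_of_injective _ (List.nodup_iff_injective_get.mp hnd), Finset.card_univ,
      Fintype.card_fin, hlen]
  · intro x hx
    obtain ⟨j, _, rfl⟩ := Finset.mem_image.mp hx
    have h1 := hzv j
    have h2 := hy j
    rw [hlen] at h2
    have h3 := kap_le_half k hk
    have h4 : (n : ℝ) * kap k = (E.card : ℝ) * kap k + 4 * 2 ^ (2 * k + 1) * kap k := by
      rw [← hE]; ring
    have h5 : (4 * 2 ^ (2 * k + 1) : ℝ) * kap k ≤ 4 * 2 ^ (2 * k + 1) * (1 / 2) :=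
      mul_le_mul_of_nonneg_left h3 (by positivity)
    linarith

/-- Combinatorial form with integer parameters. -/
theorem main_nat (k : ℕ) (hk : 1 ≤ k) : ∃ H A a : ℕ, ∀ m : ℕ, 1 ≤ m → ∀ ε : ℝ,
    (Kc (2 * k + 1) : ℝ) * (1/2) ^ m ≤ 2 * ε → ∀ n : ℕ, ∀ code : Finset (Fin n → Bool),
    (∀ x : Fin n → Bool, (code.filter (fun c => (hammingDist x c : ℝ) ≤
      ((1 : ℝ) / 2 - (Nat.choose (2 * k) k : ℝ) / (2 : ℝ) ^ (2 * k + 1) + ε)
        * (n : ℝ))).card < 2 * k + 1) → code.card ≤ 2 ^ (H + A * m ^ a) := by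
  classical
  obtain ⟨A, a, h⟩ := comb k hk
  set H := 4 * 2 ^ (2 * k + 1) with hH
  refine ⟨H, A, a, fun m hm ε hε n code hcode => ?_⟩
  by_contra hbig
  push Not at hbig
  have hnH : H ≤ n := by
    by_contra hlt
    push Not at hlt
    have h1 : code.card ≤ 2 ^ n := by
      have := Finset.card_le_univ code
      simpa using this
    have h2 : 2 ^ n ≤ 2 ^ (H + A * m ^ a) := Nat.pow_le_pow_right (by norm_num) (by omega)
    omega
  have hHpos : 0 < H := by positivity
  have hn : 1 ≤ n := by omega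
  -- popular pattern on the first H coordinates
  obtain ⟨τ, -, hτ⟩ := Finset.exists_le_card_fiber_of_mul_le_card_of_maps_to
    (s := code) (t := (Finset.univ : Finset (Fin H → Bool)))
    (f := fun x => fun i => x (Fin.castLE hnH i)) (n := 2 ^ (A * m ^ a))
    (fun _ _ => Finset.mem_univ _) Finset.univ_nonempty (by
      rw [Finset.card_univ, Fintype.card_fun, Fintype.card_bool, Fintype.card_fin, ← pow_add]
      exact hbig.le)
  set W := code.filter (fun x => (fun i => x (Fin.castLE hnH i)) = τ) with hW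
  set E : Finset (Fin n) := (Finset.univ.map (Fin.castLEEmb hnH))ᶜ with hE
  have hagree : ∀ x ∈ W, ∀ y ∈ W, ∀ i ∉ E, x i = y i := by
    intro x hx y hy i hi
    rw [hE, Finset.mem_compl, not_not, Finset.mem_map] at hi
    obtain ⟨j, _, rfl⟩ := hi
    have h1 := congrFun (Finset.mem_filter.mp hx).2 j
    have h2 := congrFun (Finset.mem_filter.mp hy).2 j
    simp only [Fin.coe_castLEEmb]
    rw [h1, h2]
  have hEcard : (E.card : ℝ) + 4 * 2 ^ (2 * k + 1) = n := by
    rw [hE, Finset.card_compl, Finset.card_map, Finset.card_univ, Fintype.card_fin,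
      Fintype.card_fin, Nat.cast_sub hnH, hH]
    push_cast
    ring
  obtain ⟨T, hTW, hTcard, y, hy⟩ := h m hm n hn W E hagree hEcard hτ
  have hsub : T ⊆ code.filter (fun c => (hammingDist y c : ℝ) ≤
      ((1 : ℝ) / 2 - (Nat.choose (2 * k) k : ℝ) / (2 : ℝ) ^ (2 * k + 1) + ε) * (n : ℝ)) := by
    intro x hx
    rw [Finset.mem_filter]
    refine ⟨(Finset.mem_filter.mp (hTW hx)).1, ?_⟩
    have h1 := hy x hx
    rw [hd_eq, hammingDist_comm] at h1
    have hn0 : (0:ℝ) ≤ n := by positivity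
    have h2 : (Kc (2 * k + 1) : ℝ) * ((1/2) ^ m * n) ≤ 2 * ε * n := by
      rw [← mul_assoc]; exact mul_le_mul_of_nonneg_right hε hn0
    have h3 : (Nat.choose (2 * k) k : ℝ) / (2 : ℝ) ^ (2 * k + 1) = kap k / 2 := by
      unfold kap; rw [pow_succ]; field_simp
    rw [h3]
    linarith
  have h4 := Finset.card_le_card hsub
  have h5 := hcode y
  omega

/-- Quasi-polynomial upper bound for zero-rate list-decodable binary codes. -/
theorem result : ∀ L : ℕ, 2 ≤ L →
    ∃ A : ℝ, ∃ K : ℕ,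
      ∀ ε : ℝ, 0 < ε → ε < 1 →
        ∀ n : ℕ, ∀ code : Finset (Fin n → Bool),
          (∀ x : Fin n → Bool,
            (code.filter (fun c => (hammingDist x c : ℝ) ≤
              ((1 : ℝ) / 2 - (Nat.choose (2 * (L / 2)) (L / 2) : ℝ) / (2 : ℝ) ^ (2 * (L / 2) + 1) + ε)
                * (n : ℝ))).card < L) →
          (code.card : ℝ) ≤ Real.exp (A * Real.log (2 / ε) ^ K) := by
  intro L hL
  have hk : 1 ≤ L / 2 := by omega
  obtain ⟨H, A, a, h⟩ := main_nat (L / 2) hk
  set C := (Kc (2 * (L / 2) + 1) : ℝ) with hC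
  have hC0 : 0 ≤ C := by positivity
  have hl2 : 0 < Real.log 2 := Real.log_pos (by norm_num)
  set Cm : ℝ := (Real.log (C + 1) / Real.log 2 + 2) / Real.log 2 with hCm
  have hlogC : 0 ≤ Real.log (C + 1) := Real.log_nonneg (by linarith)
  have hCm0 : 0 ≤ Cm := by positivity
  refine ⟨Real.log 2 * (H / Real.log 2 ^ a + A * Cm ^ a), a, fun ε hε hε1 n code hcode => ?_⟩
  set ℓ := Real.log (2 / ε) with hℓ
  have hℓ2 : Real.log 2 ≤ ℓ := by
    apply Real.log_le_log (by norm_num)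
    rw [le_div_iff₀ hε]; linarith
  have hℓ0 : 0 < ℓ := by linarith
  have hgt1 : 1 < (C + 1) / ε := by rw [lt_div_iff₀ hε]; linarith
  set m := ⌈Real.logb 2 ((C + 1) / ε)⌉₊ with hm
  have hlogb : 0 < Real.logb 2 ((C + 1) / ε) := Real.logb_pos (by norm_num) hgt1
  have hm1 : 1 ≤ m := Nat.one_le_iff_ne_zero.mpr (by
    have := Nat.ceil_pos.mpr hlogb
    omega)
  have hpow : (C + 1) / ε ≤ 2 ^ m := by
    have h1 := Nat.le_ceil (Real.logb 2 ((C + 1) / ε))
    rw [Real.logb_le_iff_le_rpow (by norm_num) (by linarith), Real.rpow_natCast] at h1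
    exact h1
  have hsmall : C * (1/2) ^ m ≤ 2 * ε := by
    rw [div_le_iff₀ hε] at hpow
    rw [one_div_pow, mul_one_div, div_le_iff₀ (by positivity)]
    linarith
  have hcode' : ∀ x : Fin n → Bool, (code.filter (fun c => (hammingDist x c : ℝ) ≤
      ((1 : ℝ) / 2 - (Nat.choose (2 * (L / 2)) (L / 2) : ℝ) / (2 : ℝ) ^ (2 * (L / 2) + 1) + ε)
        * (n : ℝ))).card < 2 * (L / 2) + 1 := by
    intro x
    have := hcode x
    omega
  have hcard := h m hm1 ε hsmall n code hcode'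
  have hmle : (m : ℝ) ≤ Cm * ℓ := by
    have h1 : (m : ℝ) ≤ Real.logb 2 ((C + 1) / ε) + 1 := (Nat.ceil_lt_add_one hlogb.le).le
    have h2 : Real.logb 2 ((C + 1) / ε) = (Real.log (C + 1) + (ℓ - Real.log 2)) / Real.log 2 := by
      rw [Real.logb, Real.log_div (by linarith) hε.ne', hℓ, Real.log_div (by norm_num) hε.ne']
      ring
    rw [h2] at h1
    have h3 : Real.log (C + 1) ≤ Real.log (C + 1) / Real.log 2 * ℓ := by
      rw [div_mul_eq_mul_div, le_div_iff₀ hl2]
      exact mul_le_mul_of_nonneg_left hℓ2 hlogC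
    have h4 : Cm * ℓ = (Real.log (C + 1) / Real.log 2 * ℓ + 2 * ℓ) / Real.log 2 := by
      rw [hCm]; ring
    rw [h4]
    refine h1.trans ?_
    rw [le_div_iff₀ hl2, add_mul, div_mul_cancel₀ _ hl2.ne', one_mul]
    linarith
  have hexp : ((2 ^ (H + A * m ^ a) : ℕ) : ℝ) = Real.exp (Real.log 2 * (H + A * (m : ℝ) ^ a)) := by
    rw [Real.exp_mul, Real.exp_log (by norm_num)]
    push_cast
    rw [← Real.rpow_natCast]
    push_cast
    rfl
  have hfin : (code.card : ℝ) ≤ ((2 ^ (H + A * m ^ a) : ℕ) : ℝ) := by exact_mod_cast hcard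
  refine hfin.trans ?_
  rw [hexp]
  apply Real.exp_le_exp.mpr
  have h1 : (m : ℝ) ^ a ≤ Cm ^ a * ℓ ^ a := by
    rw [← mul_pow]; exact pow_le_pow_left₀ (by positivity) hmle _
  have h2 : (H : ℝ) ≤ H / Real.log 2 ^ a * ℓ ^ a := by
    rw [div_mul_eq_mul_div, le_div_iff₀ (by positivity)]
    exact mul_le_mul_of_nonneg_left (pow_le_pow_left₀ hl2.le hℓ2 _) (by positivity)
  have h3 : (A : ℝ) * (m : ℝ) ^ a ≤ A * (Cm ^ a * ℓ ^ a) :=
    mul_le_mul_of_nonneg_left h1 (by positivity)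
  calc Real.log 2 * (H + A * (m : ℝ) ^ a) ≤
      Real.log 2 * (H / Real.log 2 ^ a * ℓ ^ a + A * (Cm ^ a * ℓ ^ a)) :=
        mul_le_mul_of_nonneg_left (by linarith) hl2.le
    _ = _ := by ring

end Pool.Agent.Results.MP_92436f_lc.QuasiPoly
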