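import Mathlib

set_option autoImplicit false

open Finset

namespace Pool.Agent.Results.MP_92436f_lc.SingleExp


/-- `±1` value of a bit -/
noncomputable def sg (b : Bool) : ℝ := if b then 1 else -1

lemma sg_sq (b : Bool) : sg b * sg b = 1 := by cases b <;> simp [sg]
lemma abs_sg (b : Bool) : |sg b| = 1 := by cases b <;> simp [sg]

/-- normalised inner product -/
noncomputable def ip {n : ℕ} (f g : Fin n → ℝ) : ℝ := (∑ x, f x * g x) / n

section ip
variable {n : ℕ}

lemma ip_add_right (f g h : Fin n → ℝ) : ip f (fun x => g x + h x) = ip f g + ip f h := by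
  unfold ip
  rw [← add_div, ← Finset.sum_add_distrib]
  congr 1
  exact Finset.sum_congr rfl fun x _ => by ring

lemma ip_smul_right (c : ℝ) (f g : Fin n → ℝ) : ip f (fun x => c * g x) = c * ip f g := by
  unfold ip
  rw [← mul_div_assoc, Finset.mul_sum]
  congr 1
  exact Finset.sum_congr rfl fun x _ => by ring

lemma ip_comm (f g : Fin n → ℝ) : ip f g = ip g f := by
  unfold ip
  congr 1
  exact Finset.sum_congr rfl fun x _ => by ring

lemma ip_self_nonneg (f : Fin n → ℝ) : 0 ≤ ip f f := by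
  unfold ip
  exact div_nonneg (Finset.sum_nonneg fun x _ => mul_self_nonneg _) (Nat.cast_nonneg _)

lemma ip_self_le_one (hn : 0 < n) (f : Fin n → ℝ) (hf : ∀ x, |f x| ≤ 1) : ip f f ≤ 1 := by
  unfold ip
  rw [div_le_one (by exact_mod_cast hn)]
  calc ∑ x, f x * f x ≤ ∑ x : Fin n, (1:ℝ) := Finset.sum_le_sum fun x _ => by
        have := hf x
        rw [abs_le] at this
        nlinarith [this.1, this.2]
    _ = n := by simp

/-- Cauchy–Schwarz in the form used here -/
lemma ip_sq_le (hn : 0 < n) (z g : Fin n → ℝ) (hz : ∀ x, |z x| ≤ 1) : (ip z g)^2 ≤ ip g g := by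
  have h1 : (∑ x, z x * g x)^2 ≤ (∑ x, z x ^ 2) * (∑ x, g x ^ 2) :=
    Finset.sum_mul_sq_le_sq_mul_sq _ _ _
  have h2 : ∑ x, z x ^ 2 ≤ (n : ℝ) := by
    calc ∑ x, z x ^ 2 ≤ ∑ x : Fin n, (1:ℝ) := Finset.sum_le_sum fun x _ => by
          have := hz x
          rw [← sq_abs]
          nlinarith [abs_nonneg (z x)]
      _ = n := by simp
  have hn' : (0:ℝ) < n := by exact_mod_cast hn
  have h3 : 0 ≤ ∑ x, g x ^ 2 := Finset.sum_nonneg fun x _ => sq_nonneg _
  unfold ip
  rw [div_pow, div_le_div_iff₀ (by positivity) hn']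
  have h4 : ∑ x, g x * g x = ∑ x, g x ^ 2 := Finset.sum_congr rfl fun x _ => by ring
  rw [h4]
  calc (∑ x, z x * g x)^2 * n ≤ ((n:ℝ) * ∑ x, g x ^ 2) * n := by
        apply mul_le_mul_of_nonneg_right _ hn'.le
        exact h1.trans (mul_le_mul_of_nonneg_right h2 h3)
    _ = (∑ x, g x ^ 2) * (n:ℝ)^2 := by ring

end ip

/-- the real inequality behind the potential argument -/
lemma pot_ineq {s t p A : ℝ} (hs : 0 < s) (ht : 0 < t) (ht2 : t ≤ 2) (hp : 0 < p)
    (hA : 16 ≤ A) (h : A * (1/s - 1/t) ≤ - Real.log p) : p * (t - s) ≤ 2 * s^2 / A := by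
  have hA0 : 0 < A := by linarith
  rcases le_or_gt t s with hts | hts
  · have : p * (t - s) ≤ 0 := mul_nonpos_of_nonneg_of_nonpos hp.le (by linarith)
    exact this.trans (by positivity)
  set u := t - s with hu
  have hu0 : 0 < u := by linarith
  have hpe : p ≤ Real.exp (-(A * (1/s - 1/t))) := by
    rw [← Real.log_le_iff_le_exp hp]; linarith
  have hdiff : 1/s - 1/t = u / (s * t) := by
    rw [hu]; field_simp
  rcases le_or_gt u s with hus | hus
  · -- `t ≤ 2 s`
    have ht2s : t ≤ 2 * s := by linarith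
    set y := A * u / (2 * s^2) with hy
    have hyle : y ≤ A * (1/s - 1/t) := by
      rw [hdiff, hy, mul_div_assoc]
      apply mul_le_mul_of_nonneg_left _ hA0.le
      apply div_le_div_of_nonneg_left hu0.le (by positivity)
      nlinarith
    have hexp : p ≤ Real.exp (-y) := hpe.trans (Real.exp_le_exp.mpr (by linarith))
    have hye : y * Real.exp (-y) ≤ 1 := by
      have h1 : y ≤ Real.exp y := by linarith [Real.add_one_le_exp y]
      have h2 := mul_le_mul_of_nonneg_right h1 (Real.exp_pos (-y)).le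
      rwa [← Real.exp_add, add_neg_cancel, Real.exp_zero] at h2
    calc p * u ≤ Real.exp (-y) * u := mul_le_mul_of_nonneg_right hexp hu0.le
      _ = (2 * s^2 / A) * (y * Real.exp (-y)) := by rw [hy]; field_simp
      _ ≤ (2 * s^2 / A) * 1 := mul_le_mul_of_nonneg_left hye (by positivity)
      _ = 2 * s^2 / A := mul_one _
  · have ht2u : t < 2 * u := by linarith
    set y := A / (2 * s) with hy
    have hy0 : 0 < y := by positivity
    have hyle : y ≤ A * (1/s - 1/t) := by
      rw [hdiff, hy, div_eq_mul_inv A, ← one_div]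
      apply mul_le_mul_of_nonneg_left _ hA0.le
      rw [div_le_div_iff₀ (by positivity) (by positivity)]
      nlinarith
    have hexp : p ≤ Real.exp (-y) := hpe.trans (Real.exp_le_exp.mpr (by linarith))
    have hye : Real.exp (-y) ≤ 2 / y^2 := by
      rw [Real.exp_neg, ← one_div, div_le_div_iff₀ (Real.exp_pos _) (by positivity)]
      have := Real.quadratic_le_exp_of_nonneg hy0.le
      nlinarith
    have hu2 : u ≤ 2 := by linarith
    calc p * u ≤ (2 / y^2) * 2 :=
          mul_le_mul (hexp.trans hye) hu2 hu0.le (by positivity)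
      _ = 16 * s^2 / A^2 := by rw [hy]; field_simp; ring
      _ ≤ 2 * s^2 / A := by
          rw [div_le_div_iff₀ (by positivity) hA0]
          nlinarith [sq_nonneg s, mul_pos hA0 hA0, mul_nonneg (sq_nonneg s) hA0.le]


/-- product weight with bias `m` -/
noncomputable def wt {L : ℕ} (m : ℝ) (y : Fin L → Bool) : ℝ := ∏ j, (1 + sg (y j) * m) / 2

/-- expectation under the product measure with bias `m` -/
noncomputable def EE {L : ℕ} (m : ℝ) (F : (Fin L → Bool) → ℝ) : ℝ := ∑ y, wt m y * F y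

lemma wt_nonneg {L : ℕ} {m : ℝ} (hm : |m| ≤ 1) (y : Fin L → Bool) : 0 ≤ wt m y := by
  unfold wt
  apply Finset.prod_nonneg
  intro j _
  rw [abs_le] at hm
  cases y j <;> simp [sg] <;> linarith [hm.1, hm.2]

/-- sums over `Fin (L+1) → β` split off the first coordinate -/
lemma sum_cons {β : Type*} [Fintype β] {L : ℕ} (f : (Fin (L+1) → β) → ℝ) :
    ∑ y, f y = ∑ b : β, ∑ y' : Fin L → β, f (Fin.cons b y') := by
  rw [← (Fin.consEquiv (fun _ : Fin (L+1) => β)).sum_comp, Fintype.sum_prod_type]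
  rfl

lemma EE_succ {L : ℕ} (m : ℝ) (F : (Fin (L+1) → Bool) → ℝ) :
    EE m F = (1 + m) / 2 * EE m (fun y => F (Fin.cons true y)) +
      (1 - m) / 2 * EE m (fun y => F (Fin.cons false y)) := by
  unfold EE
  rw [sum_cons, Fintype.sum_bool, Finset.mul_sum, Finset.mul_sum]
  congr 1
  · apply Finset.sum_congr rfl
    intro y _
    simp [wt, Fin.prod_univ_succ, sg]
    ring
  · apply Finset.sum_congr rfl
    intro y _
    simp [wt, Fin.prod_univ_succ, sg]
    ring

lemma EE_zero (m : ℝ) (F : (Fin 0 → Bool) → ℝ) : EE m F = F Fin.elim0 := by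
  unfold EE
  rw [Fintype.sum_unique]
  simp [wt]
  congr 1

lemma EE_add {L : ℕ} (m : ℝ) (F G : (Fin L → Bool) → ℝ) :
    EE m (fun y => F y + G y) = EE m F + EE m G := by
  unfold EE
  rw [← Finset.sum_add_distrib]
  exact Finset.sum_congr rfl fun y _ => by ring

lemma EE_smul {L : ℕ} (m c : ℝ) (F : (Fin L → Bool) → ℝ) :
    EE m (fun y => c * F y) = c * EE m F := by
  unfold EE
  rw [Finset.mul_sum]
  exact Finset.sum_congr rfl fun y _ => by ring

lemma EE_one {L : ℕ} (m : ℝ) : EE m (fun _ : Fin L → Bool => (1:ℝ)) = 1 := by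
  induction L with
  | zero => rw [EE_zero]
  | succ L ih => rw [EE_succ, ih]; ring

lemma EE_abs_le {L : ℕ} {m : ℝ} (hm : |m| ≤ 1) (F : (Fin L → Bool) → ℝ) (hF : ∀ y, |F y| ≤ 1) :
    |EE m F| ≤ 1 := by
  rw [← EE_one (L := L) m]
  unfold EE
  refine (Finset.abs_sum_le_sum_abs _ _).trans (Finset.sum_le_sum fun y _ => ?_)
  rw [abs_mul, abs_of_nonneg (wt_nonneg hm y)]
  exact mul_le_mul_of_nonneg_left (hF y) (wt_nonneg hm y)

/-- hybrid argument -/
lemma hybrid {n : ℕ} {ι : Type*} [Fintype ι] (a : ι → Fin n → Bool) (m : Fin n → ℝ)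
    (hm : ∀ x, |m x| ≤ 1) (δ : ℝ)
    (hδ : ∀ z : Fin n → ℝ, (∀ x, |z x| ≤ 1) →
      ∑ v, |(∑ x, z x * (sg (a v x) - m x)) / n| ≤ Fintype.card ι * δ) :
    ∀ (L : ℕ) (F : Fin n → (Fin L → Bool) → ℝ), (∀ x y, |F x y| ≤ 1) →
      ∑ T : Fin L → ι, |(∑ x, F x (fun j => a (T j) x)) / n - (∑ x, EE (m x) (F x)) / n|
        ≤ (Fintype.card ι : ℝ) ^ L * (L * δ) := by
  intro L
  induction L with
  | zero =>
    intro F hF
    rw [Fintype.sum_unique]
    have : ∀ x, F x (fun j => a ((default : Fin 0 → ι) j) x) = EE (m x) (F x) := by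
      intro x
      rw [EE_zero]
      congr 1
      exact Subsingleton.elim _ _
    simp [this]
  | succ L ih =>
    intro F hF
    rw [sum_cons]
    -- for each `v`
    have hstep : ∀ v : ι,
        ∑ T' : Fin L → ι, |(∑ x, F x (fun j => a ((Fin.cons v T' : Fin (L+1) → ι) j) x)) / n
            - (∑ x, EE (m x) (F x)) / n|
          ≤ (Fintype.card ι : ℝ) ^ L * (L * δ) + (Fintype.card ι : ℝ) ^ L *
            |(∑ x, (EE (m x) (fun y => (F x (Fin.cons true y) - F x (Fin.cons false y)) / 2))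
              * (sg (a v x) - m x)) / n| := by
      intro v
      have h1 := ih (fun x y => F x (Fin.cons (a v x) y)) (fun x y => hF x _)
      have h2 : ∀ T' : Fin L → ι,
          (∑ x, F x (fun j => a ((Fin.cons v T' : Fin (L+1) → ι) j) x)) / n
            - (∑ x, EE (m x) (F x)) / n
          = ((∑ x, F x (Fin.cons (a v x) (fun j => a (T' j) x))) / n
              - (∑ x, EE (m x) (fun y => F x (Fin.cons (a v x) y))) / n)
            + (∑ x, (EE (m x) (fun y => (F x (Fin.cons true y) - F x (Fin.cons false y)) / 2))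
              * (sg (a v x) - m x)) / n := by
        intro T'
        have e1 : ∀ x, F x (fun j => a ((Fin.cons v T' : Fin (L+1) → ι) j) x)
            = F x (Fin.cons (a v x) (fun j => a (T' j) x)) := by
          intro x
          congr 1
          funext j
          refine Fin.cases ?_ (fun i => ?_) j <;> simp
        have e2 : ∀ x, (EE (m x) (fun y => (F x (Fin.cons true y) - F x (Fin.cons false y)) / 2))
              * (sg (a v x) - m x)
            = EE (m x) (fun y => F x (Fin.cons (a v x) y)) - EE (m x) (F x) := by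
          intro x
          have e3 : EE (m x) (fun y => (F x (Fin.cons true y) - F x (Fin.cons false y)) / 2)
              = (EE (m x) (fun y => F x (Fin.cons true y))
                - EE (m x) (fun y => F x (Fin.cons false y))) / 2 := by
            unfold EE
            rw [← Finset.sum_sub_distrib, Finset.sum_div]
            exact Finset.sum_congr rfl fun y _ => by ring
          rw [e3, EE_succ (m x) (F x)]
          cases h : a v x <;> simp [sg] <;> ring
        simp_rw [e1, e2]
        rw [Finset.sum_sub_distrib]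
        ring
      calc _ ≤ ∑ T' : Fin L → ι, (|(∑ x, F x (Fin.cons (a v x) (fun j => a (T' j) x))) / n
              - (∑ x, EE (m x) (fun y => F x (Fin.cons (a v x) y))) / n|
              + |(∑ x, (EE (m x) (fun y => (F x (Fin.cons true y) - F x (Fin.cons false y)) / 2))
              * (sg (a v x) - m x)) / n|) := by
            apply Finset.sum_le_sum
            intro T' _
            rw [h2 T']
            exact abs_add_le _ _
        _ ≤ _ := by
            rw [Finset.sum_add_distrib]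
            apply add_le_add h1
            rw [Finset.sum_const, nsmul_eq_mul]
            simp
    calc _ ≤ ∑ v : ι, ((Fintype.card ι : ℝ) ^ L * (L * δ) + (Fintype.card ι : ℝ) ^ L *
            |(∑ x, (EE (m x) (fun y => (F x (Fin.cons true y) - F x (Fin.cons false y)) / 2))
              * (sg (a v x) - m x)) / n|) := Finset.sum_le_sum fun v _ => hstep v
      _ = (Fintype.card ι : ℝ) * ((Fintype.card ι : ℝ) ^ L * (L * δ)) + (Fintype.card ι : ℝ) ^ L *
            ∑ v : ι, |(∑ x, (EE (m x)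
              (fun y => (F x (Fin.cons true y) - F x (Fin.cons false y)) / 2))
              * (sg (a v x) - m x)) / n| := by
            rw [Finset.sum_add_distrib, Finset.sum_const, Finset.mul_sum, nsmul_eq_mul]
            simp
      _ ≤ (Fintype.card ι : ℝ) * ((Fintype.card ι : ℝ) ^ L * (L * δ)) + (Fintype.card ι : ℝ) ^ L *
            (Fintype.card ι * δ) := by
            gcongr
            apply hδ
            intro x
            apply EE_abs_le (hm x)
            intro y
            have h1 := hF x (Fin.cons true y)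
            have h2 := hF x (Fin.cons false y)
            rw [abs_le] at h1 h2 ⊢
            constructor <;> linarith [h1.1, h1.2, h2.1, h2.2]
      _ = _ := by push_cast; ring




/-- one step of the biased walk -/
noncomputable def stp (p q : ℝ) (f : ℤ → ℝ) : ℤ → ℝ := fun r => p * f (r + 1) + q * f (r - 1)

lemma stp_iter (p q : ℝ) (n : ℕ) : ∀ (f : ℤ → ℝ) (r : ℤ), ((stp p q)^[n] f) r =
    ∑ ij ∈ antidiagonal n, (n.choose ij.1 : ℝ) * (p ^ ij.1 * q ^ ij.2 * f (r + ij.1 - ij.2)) := by
  induction n with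
  | zero => intro f r; simp
  | succ n ih =>
    intro f r
    rw [Function.iterate_succ_apply, ih]
    rw [Finset.sum_antidiagonal_choose_succ_mul
      (fun i j => p ^ i * q ^ j * f (r + (i:ℤ) - (j:ℤ))) n]
    rw [← Finset.sum_add_distrib]
    apply Finset.sum_congr rfl
    intro ij hij
    rw [Finset.HasAntidiagonal.mem_antidiagonal] at hij
    have hc : (n.choose ij.2 : ℝ) = n.choose ij.1 := by
      rw [Nat.choose_symm_of_eq_add hij.symm]
    rw [hc]
    unfold stp
    push_cast
    have e1 : r + (ij.1:ℤ) - (ij.2:ℤ) + 1 = r + ((ij.1:ℤ) + 1) - (ij.2:ℤ) := by ring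
    have e2 : r + (ij.1:ℤ) - (ij.2:ℤ) - 1 = r + (ij.1:ℤ) - ((ij.2:ℤ) + 1) := by ring
    rw [e1, e2]
    ring

/-- `δ_0` -/
noncomputable def d0 : ℤ → ℝ := fun r => if r = 0 then 1 else 0
noncomputable def d1 : ℤ → ℝ := fun r => if r = 1 then 1 else 0
noncomputable def dm : ℤ → ℝ := fun r => if r = -1 then 1 else 0
noncomputable def ab : ℤ → ℝ := fun r => |(r : ℝ)|
noncomputable def sn : ℤ → ℝ := fun r => (r.sign : ℝ)

lemma stp_add (p q : ℝ) (f g : ℤ → ℝ) : stp p q (f + g) = stp p q f + stp p q g := by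
  funext r; simp [stp]; ring

lemma stp_smul (p q c : ℝ) (f : ℤ → ℝ) : stp p q (c • f) = c • stp p q f := by
  funext r; simp [stp]; ring

lemma iter_add (p q : ℝ) (n : ℕ) : ∀ f g : ℤ → ℝ, (stp p q)^[n] (f + g) =
    (stp p q)^[n] f + (stp p q)^[n] g := by
  induction n with
  | zero => intro f g; simp
  | succ n ih => intro f g; simp only [Function.iterate_succ_apply, stp_add, ih]

lemma iter_smul (p q : ℝ) (n : ℕ) (c : ℝ) : ∀ f : ℤ → ℝ, (stp p q)^[n] (c • f) =
    c • (stp p q)^[n] f := by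
  induction n with
  | zero => intro f; simp
  | succ n ih => intro f; simp only [Function.iterate_succ_apply, stp_smul, ih]

lemma stp_ab {p q : ℝ} (hpq : p + q = 1) : stp p q ab = ab + ((p - q) • sn + d0) := by
  funext r
  simp only [stp, ab, sn, d0, Pi.add_apply, Pi.smul_apply, smul_eq_mul]
  rcases lt_trichotomy r 0 with h | h | h
  · have h1 : (r:ℝ) ≤ -1 := by exact_mod_cast (by omega : r ≤ -1)
    rw [Int.sign_eq_neg_one_of_neg h, if_neg h.ne]
    push_cast
    rw [abs_of_nonpos (by linarith : (r:ℝ) + 1 ≤ 0), abs_of_nonpos (by linarith : (r:ℝ) - 1 ≤ 0),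
      abs_of_nonpos (by linarith : (r:ℝ) ≤ 0)]
    have : q = 1 - p := by linarith
    subst this; ring
  · subst h; simp [hpq]
  · have h1 : (1:ℝ) ≤ r := by exact_mod_cast (by omega : 1 ≤ r)
    rw [Int.sign_eq_one_of_pos h, if_neg h.ne']
    push_cast
    rw [abs_of_nonneg (by linarith : 0 ≤ (r:ℝ) + 1), abs_of_nonneg (by linarith : 0 ≤ (r:ℝ) - 1),
      abs_of_nonneg (by linarith : 0 ≤ (r:ℝ))]
    have : q = 1 - p := by linarith
    subst this; ring

lemma stp_sn {p q : ℝ} (hpq : p + q = 1) :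
    stp p q sn = sn + ((p - q) • d0 + (p • dm + (-q) • d1)) := by
  funext r
  simp only [stp, sn, d0, d1, dm, Pi.add_apply, Pi.smul_apply, smul_eq_mul]
  have hq : q = 1 - p := by linarith
  subst hq
  rcases (by omega : r ≤ -2 ∨ r = -1 ∨ r = 0 ∨ r = 1 ∨ 2 ≤ r) with h | h | h | h | h
  · rw [Int.sign_eq_neg_one_of_neg (by omega), Int.sign_eq_neg_one_of_neg (by omega),
      Int.sign_eq_neg_one_of_neg (by omega), if_neg (by omega), if_neg (by omega),
      if_neg (by omega)]
    push_cast; ring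
  · subst h
    have : Int.sign (-2) = -1 := by decide
    simp [this]; ring
  · subst h; simp; ring
  · subst h
    have : Int.sign 2 = 1 := by decide
    simp [this]
  · rw [Int.sign_eq_one_of_pos (by omega), Int.sign_eq_one_of_pos (by omega),
      Int.sign_eq_one_of_pos (by omega), if_neg (by omega), if_neg (by omega),
      if_neg (by omega)]
    push_cast; ring

/-- reversal -/
lemma iter_dm_d1 (p q : ℝ) (n : ℕ) :
    p * ((stp p q)^[n] dm) 0 = q * ((stp p q)^[n] d1) 0 := by
  rw [stp_iter, stp_iter, Finset.mul_sum, Finset.mul_sum,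
    ← Finset.Nat.sum_antidiagonal_swap]
  apply Finset.sum_congr rfl
  intro ij hij
  rw [Finset.HasAntidiagonal.mem_antidiagonal] at hij
  have hc : (n.choose ij.2 : ℝ) = n.choose ij.1 := by
    rw [Nat.choose_symm_of_eq_add hij.symm]
  simp only [Prod.fst_swap, Prod.snd_swap, hc, dm, d1]
  by_cases h : ij.1 = ij.2 + 1
  · rw [if_pos (by omega), if_pos (by omega), h]
    ring
  · rw [if_neg (by omega), if_neg (by omega)]
    ring

lemma iter_d0_even (p q : ℝ) (l : ℕ) :
    ((stp p q)^[2 * l] d0) 0 = (Nat.centralBinom l : ℝ) * (p * q) ^ l := by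
  rw [stp_iter]
  rw [Finset.sum_eq_single (l, l)]
  · simp [d0, Nat.centralBinom, mul_pow]
  · intro ij hij hne
    rw [Finset.HasAntidiagonal.mem_antidiagonal] at hij
    have : ij.1 ≠ ij.2 := by
      intro h
      apply hne
      ext <;> simp <;> omega
    simp only [d0]
    rw [if_neg (by omega)]
    ring
  · intro h
    exfalso
    apply h
    rw [Finset.HasAntidiagonal.mem_antidiagonal]
    ring

lemma iter_d0_odd (p q : ℝ) (l : ℕ) :
    ((stp p q)^[2 * l + 1] d0) 0 = 0 := by
  rw [stp_iter]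
  apply Finset.sum_eq_zero
  intro ij hij
  rw [Finset.HasAntidiagonal.mem_antidiagonal] at hij
  simp only [d0]
  rw [if_neg (by omega)]
  ring

lemma sn_rec {p q : ℝ} (hpq : p + q = 1) (n : ℕ) :
    ((stp p q)^[n+1] sn) 0 = ((stp p q)^[n] sn) 0 + (p - q) * ((stp p q)^[n] d0) 0 := by
  rw [Function.iterate_succ_apply, stp_sn hpq, iter_add, iter_add, iter_add, iter_smul, iter_smul,
    iter_smul]
  simp only [Pi.add_apply, Pi.smul_apply, smul_eq_mul]
  rw [iter_dm_d1]
  ring

lemma ab_rec {p q : ℝ} (hpq : p + q = 1) (n : ℕ) :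
    ((stp p q)^[n+1] ab) 0 = ((stp p q)^[n] ab) 0 + (p - q) * ((stp p q)^[n] sn) 0
      + ((stp p q)^[n] d0) 0 := by
  rw [Function.iterate_succ_apply, stp_ab hpq, iter_add, iter_add, iter_smul]
  simp only [Pi.add_apply, Pi.smul_apply, smul_eq_mul]
  ring

/-- `β_l = C(2l,l)/4^l` -/
noncomputable def be (l : ℕ) : ℝ := (Nat.centralBinom l : ℝ) / 4 ^ l

lemma be_succ (l : ℕ) : be (l+1) * (2 * (l + 1)) = be l * (2 * l + 1) := by
  unfold be
  have h := Nat.succ_mul_centralBinom_succ l
  have h' : ((l:ℝ) + 1) * (Nat.centralBinom (l+1) : ℝ) = 2 * (2 * l + 1) * Nat.centralBinom l := by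
    exact_mod_cast h
  rw [pow_succ]
  field_simp
  nlinarith [h']

lemma be_pos (l : ℕ) : 0 < be l := by
  unfold be
  have := Nat.centralBinom_pos l
  positivity

lemma be_succ_le (l : ℕ) : be (l+1) ≤ be l := by
  have h := be_succ l
  have h1 := be_pos l
  have h2 := be_pos (l+1)
  have h3 : (0:ℝ) ≤ l := Nat.cast_nonneg l
  nlinarith

lemma be_anti {i j : ℕ} (h : i ≤ j) : be j ≤ be i :=
  antitone_nat_of_succ_le be_succ_le h

lemma be_sum (k : ℕ) : ∑ l ∈ range (k+1), be l = (2 * k + 1) * be k := by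
  induction k with
  | zero => simp
  | succ k ih =>
    rw [Finset.sum_range_succ, ih]
    have h := be_succ k
    push_cast
    linarith

/-- exact formula for the sign -/
lemma sn_val {p q : ℝ} (hpq : p + q = 1) (k : ℕ) :
    ((stp p q)^[2 * k] sn) 0 = (p - q) * ∑ l ∈ range k, be l * (1 - (p - q)^2)^l ∧
    ((stp p q)^[2 * k + 1] sn) 0 = (p - q) * ∑ l ∈ range (k+1), be l * (1 - (p - q)^2)^l := by
  have hpq4 : p * q = (1 - (p-q)^2) / 4 := by
    have : q = 1 - p := by linarith
    subst this; ring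
  have hd : ∀ l, ((stp p q)^[2 * l] d0) 0 = be l * (1 - (p-q)^2)^l := by
    intro l
    rw [iter_d0_even, hpq4, be, div_pow]
    ring
  induction k with
  | zero =>
    constructor
    · simp [sn]
    · rw [sn_rec hpq]
      have := hd 0
      simp at this
      simp [sn, d0, be]
  | succ k ih =>
    have h1 : ((stp p q)^[2 * (k+1)] sn) 0
        = (p - q) * ∑ l ∈ range (k+1), be l * (1 - (p - q)^2)^l := by
      rw [show 2 * (k+1) = (2 * k + 1) + 1 by ring, sn_rec hpq, ih.2, iter_d0_odd]
      ring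
    refine ⟨h1, ?_⟩
    rw [sn_rec hpq, h1, hd, Finset.sum_range_succ _ (k+1)]
    ring

lemma ab_val {p q : ℝ} (hpq : p + q = 1) (k : ℕ) :
    ((stp p q)^[2 * k + 3] ab) 0 = ((stp p q)^[2 * k + 1] ab) 0
      + 2 * (p - q)^2 * ∑ l ∈ range (k+1), be l * (1 - (p - q)^2)^l
      + be (k+1) * (1 - (p - q)^2)^(k+1) := by
  have hpq4 : p * q = (1 - (p-q)^2) / 4 := by
    have : q = 1 - p := by linarith
    subst this; ring
  have hd : ((stp p q)^[2 * (k+1)] d0) 0 = be (k+1) * (1 - (p-q)^2)^(k+1) := by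
    rw [iter_d0_even, hpq4, be, div_pow]
    ring
  rw [show 2 * k + 3 = (2 * (k + 1)) + 1 by ring, ab_rec hpq, hd, (sn_val hpq (k+1)).1,
    show 2 * (k+1) = (2 * k + 1) + 1 by ring, ab_rec hpq, iter_d0_odd, (sn_val hpq k).2]
  ring

lemma ab_lower {p q : ℝ} (hp : 0 ≤ p) (hq : 0 ≤ q) (hpq : p + q = 1) (k : ℕ) :
    (2 * k + 1) * be k + k * (p - q)^2 ≤ ((stp p q)^[2 * k + 1] ab) 0 := by
  have hM : (p - q)^2 ≤ 1 := by
    have : q = 1 - p := by linarith
    subst this
    nlinarith
  set M := (p - q)^2 with hMd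
  have hM0 : 0 ≤ M := sq_nonneg _
  rw [← be_sum]
  induction k with
  | zero =>
    simp [stp, ab, be, hpq]
  | succ k ih =>
    rw [show 2 * (k+1) + 1 = 2 * k + 3 by ring, ab_val hpq k, Finset.sum_range_succ]
    rw [← hMd]
    have key : be (k+1) + M ≤ 2 * M * ∑ l ∈ range (k+1), be l * (1 - M)^l
        + be (k+1) * (1 - M)^(k+1) := by
      have hg : (1 - (1 - M)^(k+1)) = M * ∑ l ∈ range (k+1), (1 - M)^l := by
        have := geom_sum_mul_neg (1 - M) (k+1)
        rw [← this]; ring
      have h1 : 2 * M * ∑ l ∈ range (k+1), be l * (1 - M)^l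
          - be (k+1) * (1 - (1 - M)^(k+1))
          = M * ∑ l ∈ range (k+1), (2 * be l - be (k+1)) * (1 - M)^l := by
        rw [hg, Finset.mul_sum, Finset.mul_sum, Finset.mul_sum, Finset.mul_sum,
          ← Finset.sum_sub_distrib]
        exact Finset.sum_congr rfl fun l _ => by ring
      have h2 : 1 ≤ ∑ l ∈ range (k+1), (2 * be l - be (k+1)) * (1 - M)^l := by
        have h3 : (2 * be 0 - be (k+1)) * (1 - M)^0
            ≤ ∑ l ∈ range (k+1), (2 * be l - be (k+1)) * (1 - M)^l := by
          apply Finset.single_le_sum (f := fun l => (2 * be l - be (k+1)) * (1 - M)^l)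
          · intro l hl
            rw [Finset.mem_range] at hl
            have := be_anti (i := l) (j := k+1) (by omega)
            have := be_pos (k+1)
            have : 0 ≤ 1 - M := by linarith
            have : 0 ≤ 2 * be l - be (k+1) := by linarith
            positivity
          · simp
        have h4 : be 0 = 1 := by simp [be]
        have h5 := be_anti (i := 0) (j := k+1) (by omega)
        rw [h4] at h3 h5
        rw [pow_zero, mul_one] at h3
        linarith
      nlinarith
    push_cast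
    linarith



/-! ### directional concentration -/

/-- coordinatewise mean of the codewords indexed by `W` -/
noncomputable def mu {α : Type*} {n : ℕ} (a : α → Fin n → Bool) (W : Finset α) (x : Fin n) : ℝ :=
  (∑ v ∈ W, sg (a v x)) / W.card

lemma mu_abs_le {α : Type*} {n : ℕ} (a : α → Fin n → Bool) (W : Finset α) (x : Fin n) :
    |mu a W x| ≤ 1 := by
  unfold mu
  rw [abs_div, Nat.abs_cast]
  apply div_le_one_of_le₀ _ (Nat.cast_nonneg _)
  refine (Finset.abs_sum_le_sum_abs _ _).trans ?_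
  simp [abs_sg]

lemma mu_card {α : Type*} {n : ℕ} (a : α → Fin n → Bool) (W : Finset α) (x : Fin n) :
    (W.card : ℝ) * mu a W x = ∑ v ∈ W, sg (a v x) := by
  unfold mu
  rcases W.eq_empty_or_nonempty with h | h
  · subst h; simp
  · have : (0:ℝ) < W.card := by exact_mod_cast h.card_pos
    field_simp

lemma conc {α : Type*} [DecidableEq α] {n : ℕ} (hn : 0 < n) (a : α → Fin n → Bool) (V : Finset α)
    (hV : V.Nonempty) {A ε : ℝ} (hA : 16 ≤ A) (hε : 0 < ε) (hε1 : ε ≤ 1)
    (hmax : ∀ W ⊆ V, W.Nonempty → Real.log W.card - A / (ip (mu a W) (mu a W) + ε)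
      ≤ Real.log V.card - A / (ip (mu a V) (mu a V) + ε))
    (z : Fin n → ℝ) (hz : ∀ x, |z x| ≤ 1) :
    (∑ v ∈ V, |ip z (fun x => sg (a v x) - mu a V x)|)^2
      ≤ 4 * (V.card : ℝ)^2 * (ip (mu a V) (mu a V) + ε)^2 / A := by
  set s := ip (mu a V) (mu a V) + ε with hs
  have hA0 : 0 < A := by linarith
  have hs0 : 0 < s := by have := ip_self_nonneg (mu a V); linarith
  set X : α → ℝ := fun v => ip z (fun x => sg (a v x) - mu a V x) with hX
  -- sums of `X` over a subset
  have hsum : ∀ W : Finset α, ∑ v ∈ W, X v = W.card * ip z (fun x => mu a W x - mu a V x) := by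
    intro W
    rw [← ip_smul_right]
    simp only [hX, ip]
    rw [← Finset.sum_div, Finset.sum_comm]
    congr 1
    apply Finset.sum_congr rfl
    intro x _
    rw [← Finset.mul_sum, Finset.sum_sub_distrib, Finset.sum_const, nsmul_eq_mul]
    linear_combination (-(z x)) * (mu_card a W x)
  have htot : ∑ v ∈ V, X v = 0 := by
    rw [hsum V]
    simp [ip]
  set Vp := V.filter (fun v => 0 ≤ X v) with hVp
  set Vm := V.filter (fun v => ¬ 0 ≤ X v) with hVm
  have hsplit : ∑ v ∈ Vp, X v + ∑ v ∈ Vm, X v = 0 := by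
    rw [hVp, hVm, Finset.sum_filter_add_sum_filter_not, htot]
  have habs : ∑ v ∈ V, |X v| = 2 * ∑ v ∈ Vp, X v := by
    rw [← Finset.sum_filter_add_sum_filter_not V (fun v => 0 ≤ X v)]
    have h1 : ∑ v ∈ Vp, |X v| = ∑ v ∈ Vp, X v := by
      apply Finset.sum_congr rfl
      intro v hv
      exact abs_of_nonneg (Finset.mem_filter.mp hv).2
    have h2 : ∑ v ∈ Vm, |X v| = - ∑ v ∈ Vm, X v := by
      rw [← Finset.sum_neg_distrib]
      apply Finset.sum_congr rfl
      intro v hv
      exact abs_of_neg (not_le.mp (Finset.mem_filter.mp hv).2)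
    rw [← hVp, ← hVm, h1, h2]
    linarith
  have hcard : (Vp.card : ℝ) + Vm.card = V.card := by
    rw [hVp, hVm]
    exact_mod_cast Finset.card_filter_add_card_filter_not (s := V) (fun v => 0 ≤ X v)
  rcases Vm.eq_empty_or_nonempty with hme | hme
  · -- all zero
    have : ∑ v ∈ Vp, X v = 0 := by rw [hme] at hsplit; simpa using hsplit
    rw [habs, this]
    have : 0 ≤ 4 * (V.card : ℝ)^2 * s^2 / A := by positivity
    simpa using this
  rcases Vp.eq_empty_or_nonempty with hpe | hpe
  · exfalso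
    have h1 : ∑ v ∈ Vm, X v = 0 := by rw [hpe] at hsplit; simpa using hsplit
    have h2 : ∑ v ∈ Vm, X v < 0 := by
      apply Finset.sum_neg (fun v hv => not_le.mp (Finset.mem_filter.mp hv).2) hme
    linarith
  have hP : (0:ℝ) < Vp.card := by exact_mod_cast hpe.card_pos
  have hQ : (0:ℝ) < Vm.card := by exact_mod_cast hme.card_pos
  have hN : (0:ℝ) < V.card := by exact_mod_cast hV.card_pos
  set P : ℝ := (Vp.card : ℝ) with hPd
  set Q : ℝ := (Vm.card : ℝ) with hQd
  set N : ℝ := (V.card : ℝ) with hNd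
  set f : Fin n → ℝ := fun x => mu a Vp x - mu a V x with hf
  set g : Fin n → ℝ := fun x => mu a Vm x - mu a V x with hg
  have hfg : ∀ x, P * f x + Q * g x = 0 := by
    intro x
    have h1 : P * mu a Vp x + Q * mu a Vm x = N * mu a V x := by
      rw [hPd, hQd, hNd, mu_card, mu_card, mu_card, hVp, hVm,
        Finset.sum_filter_add_sum_filter_not]
    simp only [hf, hg]
    have h2 : N * mu a V x = (P + Q) * mu a V x := by rw [hcard]
    linarith
  set D := ip f f with hD
  set S := ip (mu a V) (mu a V) with hS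
  set Sp := ip (mu a Vp) (mu a Vp) with hSp
  set Sm := ip (mu a Vm) (mu a Vm) with hSm
  have hn' : (0:ℝ) < n := by exact_mod_cast hn
  have e1 : Q * (P * (Sp - S) + Q * (Sm - S)) = P * N * D := by
    rw [← hcard, hSp, hSm, hS, hD]
    unfold ip
    rw [← sub_div, ← sub_div, ← mul_div_assoc, ← mul_div_assoc, ← add_div, ← mul_div_assoc,
      ← mul_div_assoc]
    congr 1
    rw [← Finset.sum_sub_distrib, ← Finset.sum_sub_distrib, Finset.mul_sum, Finset.mul_sum,
      ← Finset.sum_add_distrib, Finset.mul_sum, Finset.mul_sum]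
    apply Finset.sum_congr rfl
    intro x _
    have h1 : mu a Vp x = mu a V x + f x := by simp [hf]
    have h2 : mu a Vm x = mu a V x + g x := by simp [hg]
    have h3 : Q * g x = - (P * f x) := by linarith [hfg x]
    rw [h1, h2]
    have h4 : Q * (P * ((mu a V x + f x) * (mu a V x + f x) - mu a V x * mu a V x)
        + Q * ((mu a V x + g x) * (mu a V x + g x) - mu a V x * mu a V x))
        = 2 * Q * mu a V x * (P * f x + Q * g x) + Q * P * f x ^ 2 + (Q * g x)^2 := by ring
    rw [h4, hfg x, h3]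
    ring
  have hincr : ∀ W ⊆ V, W.Nonempty → (W.card : ℝ) / N * (ip (mu a W) (mu a W) - S)
      ≤ 2 * s^2 / A := by
    intro W hW hWne
    have hWp : (0:ℝ) < W.card := by exact_mod_cast hWne.card_pos
    have h1 := ip_self_nonneg (mu a W)
    have h2 := ip_self_le_one hn (mu a W) (mu_abs_le a W)
    have h3 := hmax W hW hWne
    have := pot_ineq (s := s) (t := ip (mu a W) (mu a W) + ε) (p := (W.card : ℝ) / N) (A := A)
      hs0 (by linarith) (by linarith) (by positivity) hA (by
        rw [Real.log_div hWp.ne' hN.ne', mul_sub, mul_one_div, mul_one_div]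
        linarith)
    have e : ip (mu a W) (mu a W) + ε - s = ip (mu a W) (mu a W) - S := by rw [hs]; ring
    rwa [e] at this
  have i1 := hincr Vp (Finset.filter_subset _ _) hpe
  have i2 := hincr Vm (Finset.filter_subset _ _) hme
  have i3 : P * D ≤ 4 * Q * s^2 / A := by
    have h1 : P * (Sp - S) ≤ N * (2 * s^2 / A) := by
      have := mul_le_mul_of_nonneg_left i1 hN.le
      have e : N * (P / N * (Sp - S)) = P * (Sp - S) := by field_simp
      rw [← hPd, ← hSp] at this
      rwa [e] at this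
    have h2 : Q * (Sm - S) ≤ N * (2 * s^2 / A) := by
      have := mul_le_mul_of_nonneg_left i2 hN.le
      have e : N * (Q / N * (Sm - S)) = Q * (Sm - S) := by field_simp
      rw [← hQd, ← hSm] at this
      rwa [e] at this
    have h3 : P * N * D ≤ Q * (N * (2 * s^2 / A) + N * (2 * s^2 / A)) := by
      rw [← e1]
      exact mul_le_mul_of_nonneg_left (add_le_add h1 h2) hQ.le
    have h4 : N * (P * D) ≤ N * (4 * Q * s^2 / A) := by
      calc N * (P * D) = P * N * D := by ring
        _ ≤ _ := h3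
        _ = N * (4 * Q * s^2 / A) := by ring
    exact le_of_mul_le_mul_left h4 hN
  have i4 : (ip z f)^2 ≤ D := ip_sq_le hn z f hz
  rw [habs, hsum Vp]
  rw [← hPd, ← hf]
  calc (2 * (P * ip z f))^2 = 4 * P^2 * (ip z f)^2 := by ring
    _ ≤ 4 * P^2 * D := by gcongr
    _ = 4 * P * (P * D) := by ring
    _ ≤ 4 * P * (4 * Q * s^2 / A) := by gcongr
    _ = (16 * P * Q) * s^2 / A := by ring
    _ ≤ (4 * N^2) * s^2 / A := by
        have h : 16 * P * Q ≤ 4 * N^2 := by
          rw [← hcard]
          nlinarith [sq_nonneg (P - Q)]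
        exact div_le_div_of_nonneg_right (mul_le_mul_of_nonneg_right h (sq_nonneg s)) hA0.le

/-! ### the signed majority -/

def sgz (b : Bool) : ℤ := if b then 1 else -1

def Sz {L : ℕ} (y : Fin L → Bool) : ℤ := ∑ j, sgz (y j)

def maj {L : ℕ} (y : Fin L → Bool) : Bool := decide (0 < Sz y)

lemma sgz_cast (b : Bool) : (sgz b : ℝ) = sg b := by cases b <;> simp [sgz, sg]

lemma EE_walk (m : ℝ) (g : ℤ → ℝ) (L : ℕ) : ∀ r : ℤ,
    EE m (fun y : Fin L → Bool => g (Sz y + r)) = ((stp ((1 + m)/2) ((1 - m)/2))^[L] g) r := by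
  induction L with
  | zero => intro r; rw [EE_zero]; simp [Sz]
  | succ L ih =>
    intro r
    rw [EE_succ, Function.iterate_succ_apply']
    have h1 := ih (r + 1)
    have h2 := ih (r - 1)
    unfold stp at h1 h2 ⊢
    rw [← h1, ← h2]
    congr 2
    · congr 1
      funext y
      simp only [Sz, Fin.sum_univ_succ, Fin.cons_zero, Fin.cons_succ, sgz, if_true]
      congr 1
      ring
    · congr 1
      funext y
      simp only [Sz, Fin.sum_univ_succ, Fin.cons_zero, Fin.cons_succ, sgz]
      congr 1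
      simp
      ring

lemma EE_swap {L : ℕ} (m : ℝ) (i i' : Fin L) :
    EE m (fun y : Fin L → Bool => sg (y i) * sg (maj y))
      = EE m (fun y : Fin L → Bool => sg (y i') * sg (maj y)) := by
  unfold EE
  rw [← (Equiv.arrowCongr (Equiv.swap i i') (Equiv.refl Bool)).sum_comp]
  apply Finset.sum_congr rfl
  intro y _
  have h1 : wt m ((Equiv.arrowCongr (Equiv.swap i i') (Equiv.refl Bool)) y) = wt m y := by
    unfold wt
    rw [← Equiv.prod_comp (Equiv.swap i i')]
    apply Finset.prod_congr rfl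
    intro j _
    simp [Equiv.arrowCongr]
  have h2 : Sz ((Equiv.arrowCongr (Equiv.swap i i') (Equiv.refl Bool)) y) = Sz y := by
    unfold Sz
    rw [← Equiv.sum_comp (Equiv.swap i i')]
    apply Finset.sum_congr rfl
    intro j _
    simp [Equiv.arrowCongr]
  have h3 : maj ((Equiv.arrowCongr (Equiv.swap i i') (Equiv.refl Bool)) y) = maj y := by
    unfold maj
    rw [h2]
  beta_reduce
  rw [h1, h3]
  simp [Equiv.arrowCongr]

lemma maj_sum {L : ℕ} (y : Fin L → Bool) : ∑ i, sg (y i) * sg (maj y) = ab (Sz y) := by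
  have h1 : ∑ i, sg (y i) = (Sz y : ℝ) := by
    unfold Sz
    push_cast
    exact Finset.sum_congr rfl fun i _ => (sgz_cast _).symm
  rw [← Finset.sum_mul, h1]
  unfold maj ab
  by_cases h : 0 < Sz y
  · have : (0:ℝ) < (Sz y : ℝ) := by exact_mod_cast h
    simp [h, sg, abs_of_pos this]
  · have : (Sz y : ℝ) ≤ 0 := by exact_mod_cast not_lt.mp h
    simp [h, sg, abs_of_nonpos this]

lemma EE_sum {L : ℕ} {κ : Type*} (s : Finset κ) (m : ℝ) (F : κ → (Fin L → Bool) → ℝ) :
    ∑ i ∈ s, EE m (F i) = EE m (fun y => ∑ i ∈ s, F i y) := by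
  unfold EE
  rw [Finset.sum_comm]
  exact Finset.sum_congr rfl fun y _ => by rw [Finset.mul_sum]

lemma EE_maj_lower (k : ℕ) {m : ℝ} (hm : |m| ≤ 1) (i : Fin (2 * k + 1)) :
    be k + (k : ℝ) / (2 * k + 1) * m^2
      ≤ EE m (fun y : Fin (2 * k + 1) → Bool => sg (y i) * sg (maj y)) := by
  have h1 : ((2 * k + 1 : ℕ) : ℝ) * EE m (fun y : Fin (2 * k + 1) → Bool => sg (y i) * sg (maj y))
      = ((stp ((1 + m)/2) ((1 - m)/2))^[2 * k + 1] ab) 0 := by
    have h2 : ∑ i' : Fin (2 * k + 1), EE m (fun y : Fin (2 * k + 1) → Bool => sg (y i') * sg (maj y))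
        = ((2 * k + 1 : ℕ) : ℝ)
          * EE m (fun y : Fin (2 * k + 1) → Bool => sg (y i) * sg (maj y)) := by
      rw [Finset.sum_congr rfl (fun i' _ => EE_swap m i' i)]
      rw [Finset.sum_const]
      simp
    rw [← h2, EE_sum, ← EE_walk]
    congr 1
    funext y
    rw [maj_sum, add_zero]
  rw [abs_le] at hm
  have h3 := ab_lower (p := (1 + m)/2) (q := (1 - m)/2) (by linarith [hm.1]) (by linarith [hm.2])
    (by ring) k
  rw [← h1] at h3
  have h4 : (1 + m)/2 - (1 - m)/2 = m := by ring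
  rw [h4] at h3
  push_cast at h3
  have h5 : (0:ℝ) < 2 * k + 1 := by positivity
  have h6 : be k + (k : ℝ) / (2 * k + 1) * m^2 = ((2 * k + 1) * be k + k * m^2) / (2 * k + 1) := by
    field_simp
  rw [h6, div_le_iff₀ h5]
  linarith


/-! ### assembly -/

lemma hamming_eq {n : ℕ} (u v : Fin n → Bool) :
    (hammingDist u v : ℝ) = (n - ∑ x, sg (v x) * sg (u x)) / 2 := by
  unfold hammingDist
  rw [Finset.card_filter]
  push_cast
  have h1 : (n : ℝ) = ∑ x : Fin n, (1:ℝ) := by simp
  rw [h1, ← Finset.sum_sub_distrib, Finset.sum_div]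
  apply Finset.sum_congr rfl
  intro x _
  cases u x <;> cases v x <;> simp [sg]

lemma desc_lower {N L : ℕ} (hL : 1 ≤ L) (hN : 2 * L ^ 2 ≤ N) :
    (N : ℝ) ^ L / 2 ≤ (N.descFactorial L : ℝ) := by
  have hLN : L ≤ N := by nlinarith
  have hN0 : (0:ℝ) < N := by
    have : 0 < N := by omega
    exact_mod_cast this
  have hL0 : (0:ℝ) < L := by exact_mod_cast hL
  have h1 : ((N + 1 - L) ^ L : ℕ) ≤ N.descFactorial L := Nat.pow_sub_le_descFactorial N L
  have h2 : (((N + 1 - L) ^ L : ℕ) : ℝ) ≤ (N.descFactorial L : ℝ) := by exact_mod_cast h1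
  refine le_trans ?_ h2
  rw [Nat.cast_pow, Nat.cast_sub (by omega)]
  push_cast
  have h3 : -2 ≤ -(1 / (2 * (L:ℝ))) := by
    have : 1 / (2 * (L:ℝ)) ≤ 1 := by
      rw [div_le_one (by positivity)]
      have : (1:ℝ) ≤ L := by exact_mod_cast hL
      linarith
    linarith
  have h4 := one_add_mul_le_pow h3 L
  have h5 : 1 + (L:ℝ) * -(1 / (2 * (L:ℝ))) = 1/2 := by field_simp; norm_num
  rw [h5] at h4
  have h6 : (N:ℝ) * (1 + -(1 / (2 * (L:ℝ)))) ≤ (N:ℝ) + 1 - L := by
    have h7 : (2:ℝ) * L^2 ≤ N := by exact_mod_cast hN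
    have h8 : (L:ℝ) ≤ N * (1 / (2 * (L:ℝ))) := by
      rw [mul_one_div, le_div_iff₀ (by positivity)]
      nlinarith
    linarith
  have h9 : 0 ≤ (1 + -(1 / (2 * (L:ℝ)))) := by
    have : 1 / (2 * (L:ℝ)) ≤ 1 := by
      rw [div_le_one (by positivity)]
      have : (1:ℝ) ≤ L := by exact_mod_cast hL
      linarith
    linarith
  calc (N:ℝ)^L / 2 = (N:ℝ)^L * (1/2) := by ring
    _ ≤ (N:ℝ)^L * (1 + -(1 / (2 * (L:ℝ))))^L := by gcongr
    _ = ((N:ℝ) * (1 + -(1 / (2 * (L:ℝ)))))^L := by rw [mul_pow]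
    _ ≤ ((N:ℝ) + 1 - L)^L := by gcongr

lemma core (k : ℕ) (hk : 1 ≤ k) {n : ℕ} (hn : 0 < n) {ε : ℝ} (hε : 0 < ε) (hε1 : ε ≤ 1)
    (V : Finset (Fin n → Bool)) (hV : V.Nonempty)
    (hmax : ∀ W ⊆ V, W.Nonempty →
      Real.log W.card - (64 * (2 * (k:ℝ) + 1)^6) / (ip (mu id W) (mu id W) + ε)
      ≤ Real.log V.card - (64 * (2 * (k:ℝ) + 1)^6) / (ip (mu id V) (mu id V) + ε))
    (hN : 2 * (2 * k + 1)^2 ≤ V.card) :
    ∃ T : Fin (2 * k + 1) → Fin n → Bool, Function.Injective T ∧ (∀ i, T i ∈ V) ∧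
      ∀ i, be k - 2 * ε ≤ (∑ x, sg (T i x) * sg (maj (fun j => T j x))) / n := by
  classical
  have hn' : (0:ℝ) < n := by exact_mod_cast hn
  have hN0 : (0:ℝ) < V.card := by exact_mod_cast hV.card_pos
  have hL0 : (0:ℝ) < 2 * (k:ℝ) + 1 := by positivity
  have hk0 : (1:ℝ) ≤ k := by exact_mod_cast hk
  set L : ℝ := 2 * (k:ℝ) + 1 with hL
  have hL1 : 1 ≤ L := by rw [hL]; linarith
  set S := ip (mu id V) (mu id V) with hS
  have hS0 : 0 ≤ S := ip_self_nonneg _
  set s := S + ε with hs
  have hs0 : 0 < s := by linarith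
  set δ := s / (4 * L^3) with hδd
  have hδ0 : 0 < δ := by positivity
  set m : Fin n → ℝ := mu id V with hm
  have hA16 : (16:ℝ) ≤ 64 * L^6 := by
    have : (1:ℝ) ≤ L^6 := one_le_pow₀ hL1
    linarith
  have hδ : ∀ z : Fin n → ℝ, (∀ x, |z x| ≤ 1) →
      ∑ v : V, |(∑ x, z x * (sg ((v : Fin n → Bool) x) - m x)) / n|
        ≤ Fintype.card V * δ := by
    intro z hz
    have h1 := conc hn id V hV hA16 hε hε1 hmax z hz
    rw [Fintype.card_coe]
    rw [Finset.sum_coe_sort V (fun v => |(∑ x, z x * (sg (v x) - m x)) / n|)]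
    have h2 : 4 * (V.card : ℝ)^2 * s^2 / (64 * L^6) = ((V.card : ℝ) * δ)^2 := by
      rw [hδd]; field_simp; norm_num
    rw [← hS, ← hs, h2] at h1
    exact (le_abs_self _).trans (abs_le_of_sq_le_sq h1 (by positivity))
  set F : Fin (2 * k + 1) → Fin n → (Fin (2 * k + 1) → Bool) → ℝ :=
    fun i _ y => sg (y i) * sg (maj y) with hF
  have hyb : ∀ i, ∑ T : Fin (2 * k + 1) → V,
      |(∑ x, F i x (fun j => (T j : Fin n → Bool) x)) / n - (∑ x, EE (m x) (F i x)) / n|
        ≤ (V.card : ℝ) ^ (2 * k + 1) * (L * δ) := by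
    intro i
    have := hybrid (fun v : V => (v : Fin n → Bool)) m (fun x => mu_abs_le _ _ x) δ hδ
      (2 * k + 1) (F i) (fun x y => by simp [hF, abs_mul, abs_sg])
    rw [Fintype.card_coe] at this
    push_cast at this
    exact this
  have hE : ∀ i, be k + (k:ℝ) / L * S ≤ (∑ x, EE (m x) (F i x)) / n := by
    intro i
    rw [le_div_iff₀ hn']
    have h1 : (be k + (k:ℝ) / L * S) * n = ∑ x : Fin n, (be k + (k:ℝ) / L * (m x)^2) := by
      rw [Finset.sum_add_distrib, Finset.sum_const, ← Finset.mul_sum, hS, ip]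
      rw [Finset.card_univ, Fintype.card_fin, nsmul_eq_mul]
      have h2 : ∑ x, m x * m x = ∑ x, m x ^ 2 := Finset.sum_congr rfl fun x _ => by ring
      rw [h2]
      field_simp
    rw [h1]
    apply Finset.sum_le_sum
    intro x _
    exact EE_maj_lower k (mu_abs_le _ _ x) i
  -- the bad tuples
  set bad : Fin (2 * k + 1) → Finset (Fin (2 * k + 1) → V) := fun i =>
    Finset.univ.filter (fun T =>
      (∑ x, F i x (fun j => (T j : Fin n → Bool) x)) / n < be k - 2 * ε) with hbad
  have hbadc : ∀ i, ((bad i).card : ℝ) ≤ (V.card : ℝ) ^ (2 * k + 1) / (4 * L) := by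
    intro i
    have h1 : ((bad i).card : ℝ) * ((k:ℝ) / L * s) ≤ (V.card : ℝ) ^ (2 * k + 1) * (L * δ) := by
      refine le_trans ?_ (hyb i)
      calc ((bad i).card : ℝ) * ((k:ℝ) / L * s) = ∑ T ∈ bad i, ((k:ℝ) / L * s) := by
            rw [Finset.sum_const, nsmul_eq_mul]
        _ ≤ ∑ T ∈ bad i, |(∑ x, F i x (fun j => (T j : Fin n → Bool) x)) / n
              - (∑ x, EE (m x) (F i x)) / n| := by
            apply Finset.sum_le_sum
            intro T hT
            have h2 := (Finset.mem_filter.mp hT).2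
            have h3 := hE i
            have h4 : (k:ℝ) / L ≤ 1 := by
              rw [div_le_one (by positivity)]; linarith
            have h5 : (k:ℝ) / L * s ≤ (k:ℝ) / L * S + ε := by
              rw [hs, mul_add]
              have := mul_le_mul_of_nonneg_right h4 hε.le
              linarith
            rw [abs_sub_comm]
            refine le_trans ?_ (le_abs_self _)
            linarith
        _ ≤ _ := by
            apply Finset.sum_le_sum_of_subset_of_nonneg (Finset.subset_univ _)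
            intro T _ _
            exact abs_nonneg _
    have h6 : (V.card : ℝ) ^ (2 * k + 1) * (L * δ)
        = ((V.card : ℝ) ^ (2 * k + 1) / (4 * L * k)) * ((k:ℝ) / L * s) := by
      rw [hδd]; field_simp
    rw [h6] at h1
    have h7 := le_of_mul_le_mul_right h1 (by positivity)
    refine h7.trans ?_
    apply div_le_div_of_nonneg_left (by positivity) (by positivity)
    nlinarith
  by_contra hcon
  push Not at hcon
  -- every embedding is bad
  have hemb : ∀ e : Fin (2 * k + 1) ↪ V, (e : Fin (2 * k + 1) → V) ∈ Finset.univ.biUnion bad := by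
    intro e
    obtain ⟨i, hi⟩ := hcon (fun j => (e j : Fin n → Bool))
      (fun i j hij => e.injective (Subtype.ext hij)) (fun i => (e i).2)
    rw [Finset.mem_biUnion]
    refine ⟨i, Finset.mem_univ _, ?_⟩
    rw [hbad]
    exact Finset.mem_filter.mpr ⟨Finset.mem_univ _, hi⟩
  have hcard1 : Fintype.card (Fin (2 * k + 1) ↪ V) ≤ (Finset.univ.biUnion bad).card := by
    rw [← Fintype.card_coe (Finset.univ.biUnion bad)]
    exact Fintype.card_le_of_injective
      (fun e : (Fin (2 * k + 1) ↪ V) => (⟨(e : Fin (2 * k + 1) → V), hemb e⟩ :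
        {T // T ∈ Finset.univ.biUnion bad}))
      (fun e e' h => DFunLike.coe_injective (Subtype.ext_iff.mp h))
  have hcard2 : ((Finset.univ.biUnion bad).card : ℝ) ≤ (V.card : ℝ) ^ (2 * k + 1) / 4 := by
    have h1 : ((Finset.univ.biUnion bad).card : ℝ) ≤ ∑ i, ((bad i).card : ℝ) := by
      exact_mod_cast Finset.card_biUnion_le
    refine h1.trans ((Finset.sum_le_sum fun i _ => hbadc i).trans ?_)
    rw [Finset.sum_const, Finset.card_univ, Fintype.card_fin, nsmul_eq_mul]
    push_cast
    rw [← hL]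
    apply le_of_eq
    field_simp
  rw [Fintype.card_embedding_eq, Fintype.card_coe, Fintype.card_fin] at hcard1
  have h3 := desc_lower (N := V.card) (L := 2 * k + 1) (by omega) hN
  have h4 : (V.card.descFactorial (2 * k + 1) : ℝ) ≤ (V.card : ℝ) ^ (2 * k + 1) / 4 := by
    refine le_trans ?_ hcard2
    exact_mod_cast hcard1
  have h5 : (0:ℝ) < (V.card : ℝ) ^ (2 * k + 1) := by positivity
  linarith

/-- the bound -/
theorem bound (k : ℕ) (hk : 1 ≤ k) (ε : ℝ) (hε : 0 < ε) (hε1 : ε ≤ 1) (n : ℕ)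
    (code : Finset (Fin n → Bool))
    (h : ∀ x : Fin n → Bool, (code.filter (fun c => (hammingDist x c : ℝ) ≤
        ((1:ℝ)/2 - (Nat.choose (2 * k) k : ℝ) / (2:ℝ)^(2 * k + 1) + ε) * (n:ℝ))).card < 2 * k + 1) :
    (code.card : ℝ) ≤ 2 * (2 * (k:ℝ) + 1)^2 * Real.exp (64 * (2 * (k:ℝ) + 1)^6 / ε) := by
  classical
  have hexp1 : 1 ≤ Real.exp (64 * (2 * (k:ℝ) + 1)^6 / ε) := by
    apply Real.one_le_exp
    positivity
  have hL1 : (1:ℝ) ≤ (2 * (k:ℝ) + 1)^2 := by
    apply one_le_pow₀
    have : (0:ℝ) ≤ k := Nat.cast_nonneg k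
    linarith
  rcases code.eq_empty_or_nonempty with hc | hc
  · subst hc
    simp
    positivity
  rcases Nat.eq_zero_or_pos n with hn | hn
  · subst hn
    have h1 : code.card ≤ 1 := by
      rw [Finset.card_le_one]
      intro a _ b _
      exact Subsingleton.elim _ _
    have h2 : (code.card : ℝ) ≤ 1 := by exact_mod_cast h1
    nlinarith
  -- the maximiser
  set A : ℝ := 64 * (2 * (k:ℝ) + 1)^6 with hA
  obtain ⟨V, hVmem, hVmax⟩ := Finset.exists_max_image
    (code.powerset.filter (fun W => W.Nonempty))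
    (fun W => Real.log W.card - A / (ip (mu id W) (mu id W) + ε))
    ⟨code, by simp [hc]⟩
  rw [Finset.mem_filter, Finset.mem_powerset] at hVmem
  obtain ⟨hVsub, hVne⟩ := hVmem
  have hmax : ∀ W ⊆ V, W.Nonempty → Real.log W.card - A / (ip (mu id W) (mu id W) + ε)
      ≤ Real.log V.card - A / (ip (mu id V) (mu id V) + ε) := by
    intro W hW hWne
    exact hVmax W (by rw [Finset.mem_filter, Finset.mem_powerset]; exact ⟨hW.trans hVsub, hWne⟩)
  have hV0 : (0:ℝ) < V.card := by exact_mod_cast hVne.card_pos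
  have hC0 : (0:ℝ) < code.card := by exact_mod_cast hc.card_pos
  have hcodeV : (code.card : ℝ) ≤ V.card * Real.exp (A / ε) := by
    have h1 := hVmax code (by simp [hc])
    have h2 : A / (ip (mu id code) (mu id code) + ε) ≤ A / ε := by
      apply div_le_div_of_nonneg_left (by positivity) hε
      have := ip_self_nonneg (mu id code)
      linarith
    have h3 : 0 ≤ A / (ip (mu id V) (mu id V) + ε) := by
      have := ip_self_nonneg (mu id V)
      positivity
    have h4 : Real.log code.card ≤ Real.log V.card + A / ε := by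
      have h1' : Real.log code.card - A / (ip (mu id code) (mu id code) + ε)
        ≤ Real.log V.card - A / (ip (mu id V) (mu id V) + ε) := h1
      linarith
    calc (code.card : ℝ) = Real.exp (Real.log code.card) := (Real.exp_log hC0).symm
      _ ≤ Real.exp (Real.log V.card + A / ε) := Real.exp_le_exp.mpr h4
      _ = V.card * Real.exp (A / ε) := by rw [Real.exp_add, Real.exp_log hV0]
  by_cases hbig : 2 * (2 * k + 1)^2 ≤ V.card
  · exfalso
    obtain ⟨T, hTinj, hTV, hT⟩ := core k hk hn hε hε1 V hVne hmax hbig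
    have h1 := h (fun x => maj (fun j => T j x))
    have h2 : (Finset.univ.image T) ⊆ code.filter (fun c =>
        (hammingDist (fun x => maj (fun j => T j x)) c : ℝ) ≤
        ((1:ℝ)/2 - (Nat.choose (2 * k) k : ℝ) / (2:ℝ)^(2 * k + 1) + ε) * (n:ℝ)) := by
      intro c hcm
      rw [Finset.mem_image] at hcm
      obtain ⟨i, _, rfl⟩ := hcm
      rw [Finset.mem_filter]
      refine ⟨hVsub (hTV i), ?_⟩
      rw [hamming_eq]
      have hn' : (0:ℝ) < n := by exact_mod_cast hn
      have h3 := hT i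
      rw [le_div_iff₀ hn'] at h3
      have h4 : (Nat.choose (2 * k) k : ℝ) / (2:ℝ)^(2 * k + 1) = be k / 2 := by
        unfold be
        rw [Nat.centralBinom, pow_succ, pow_mul]
        norm_num
        field_simp
      rw [h4]
      linarith
    have h5 := Finset.card_le_card h2
    rw [Finset.card_image_of_injective _ hTinj, Finset.card_univ, Fintype.card_fin] at h5
    omega
  · push Not at hbig
    have h1 : (V.card : ℝ) ≤ 2 * (2 * (k:ℝ) + 1)^2 := by exact_mod_cast hbig.le
    calc (code.card : ℝ) ≤ V.card * Real.exp (A / ε) := hcodeV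
      _ ≤ 2 * (2 * (k:ℝ) + 1)^2 * Real.exp (A / ε) := by gcongr


/-- For every odd `L ≥ 3` and every `0 < ε ≤ 1`, a binary code of any length in which no Hamming
ball of normalised radius `τ_L + ε` contains `L` codewords has at most
`2 L^2 exp (64 L^6 / ε)` codewords. -/
theorem result :
    ∀ L : ℕ, Odd L → 3 ≤ L →
      ∀ ε : ℝ, 0 < ε → ε ≤ 1 →
        ∀ n : ℕ, ∀ code : Finset (Fin n → Bool),
          (∀ x : Fin n → Bool,
            (code.filter (fun c => (hammingDist x c : ℝ) ≤
              ((1 : ℝ) / 2 - (Nat.choose (2 * (L / 2)) (L / 2) : ℝ) / (2 : ℝ) ^ (2 * (L / 2) + 1) + ε)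
                * (n : ℝ))).card < L) →
          (code.card : ℝ) ≤ 2 * (L : ℝ) ^ 2 * Real.exp (64 * (L : ℝ) ^ 6 / ε) := by
  intro L hL h3 ε hε hε1 n code h
  obtain ⟨k, rfl⟩ := hL
  have hk : (2 * k + 1) / 2 = k := by omega
  rw [hk] at h
  have := bound k (by omega) ε hε hε1 n code h
  push_cast
  exact this

end Pool.Agent.Results.MP_92436f_lc.SingleExp
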